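import Mathlib

/-!
Quaternary quadratic forms: isotropic planes.
-/

namespace Pool.Agent.Work.D9odd

open Matrix

section ring

variable {k : Type*} [CommRing k]

/-- the bilinear form of a matrix -/
def bf {n : Type*} [Fintype n] (N : Matrix n n k) (u v : n → k) : k := u ⬝ᵥ (N *ᵥ v)

variable {n : Type*} [Fintype n] (N : Matrix n n k)

theorem bf_add_left (u u' v : n → k) : bf N (u + u') v = bf N u v + bf N u' v := by
  simp [bf, add_dotProduct]

theorem bf_smul_left (c : k) (u v : n → k) : bf N (c • u) v = c * bf N u v := by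
  simp [bf, smul_dotProduct]

theorem bf_add_right (u v v' : n → k) : bf N u (v + v') = bf N u v + bf N u v' := by
  simp [bf, Matrix.mulVec_add, dotProduct_add]

theorem bf_smul_right (c : k) (u v : n → k) : bf N u (c • v) = c * bf N u v := by
  simp [bf, Matrix.mulVec_smul, dotProduct_smul]

theorem bf_neg_left (u v : n → k) : bf N (-u) v = - bf N u v := by
  simp [bf]

theorem bf_neg_right (u v : n → k) : bf N u (-v) = - bf N u v := by
  simp [bf, Matrix.mulVec_neg]

theorem bf_sub_left (u u' v : n → k) : bf N (u - u') v = bf N u v - bf N u' v := by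
  rw [sub_eq_add_neg, bf_add_left, bf_neg_left, sub_eq_add_neg]

theorem bf_sub_right (u v v' : n → k) : bf N u (v - v') = bf N u v - bf N u v' := by
  rw [sub_eq_add_neg, bf_add_right, bf_neg_right, sub_eq_add_neg]

theorem bf_add_mat (N N' : Matrix n n k) (u v : n → k) :
    bf (N + N') u v = bf N u v + bf N' u v := by
  simp [bf, Matrix.add_mulVec, dotProduct_add]

theorem bf_smul_mat (c : k) (N : Matrix n n k) (u v : n → k) :
    bf (c • N) u v = c * bf N u v := by
  simp [bf, Matrix.smul_mulVec, dotProduct_smul]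

variable {N} in
theorem bf_comm (h : Nᵀ = N) (u v : n → k) : bf N u v = bf N v u := by
  unfold bf
  rw [Matrix.dotProduct_mulVec, dotProduct_comm, ← Matrix.mulVec_transpose, h]

theorem bf_congr {m : Type*} [Fintype m] (P : Matrix n m k) (u v : m → k) :
    bf (Pᵀ * N * P) u v = bf N (P *ᵥ u) (P *ᵥ v) := by
  unfold bf
  rw [← Matrix.mulVec_mulVec, ← Matrix.mulVec_mulVec, Matrix.dotProduct_mulVec,
    Matrix.vecMul_transpose]

end ring

section field

variable {k : Type*} [Field k]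

/-- the form vanishes on a plane -/
def IsoPlane {n : Type*} [Fintype n] (N : Matrix n n k) : Prop :=
  ∃ x y : n → k, LinearIndependent k ![x, y] ∧ bf N x x = 0 ∧ bf N x y = 0 ∧ bf N y y = 0

theorem lin_indep_map {n m : Type*} [Fintype m] (P : Matrix n m k)
    (hP : Function.Injective P.mulVec) (x y : m → k) (h : LinearIndependent k ![x, y]) :
    LinearIndependent k ![P *ᵥ x, P *ᵥ y] := by
  rw [LinearIndependent.pair_iff] at h ⊢
  intro s t hst
  apply h s t
  apply hP
  rw [Matrix.mulVec_add, Matrix.mulVec_smul, Matrix.mulVec_smul, hst, Matrix.mulVec_zero]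

theorem IsoPlane.congr {n m : Type*} [Fintype n] [Fintype m] (N : Matrix n n k)
    (P : Matrix n m k) (hP : Function.Injective P.mulVec) (h : IsoPlane (Pᵀ * N * P)) :
    IsoPlane N := by
  obtain ⟨x, y, hxy, h1, h2, h3⟩ := h
  rw [bf_congr] at h1 h2 h3
  exact ⟨P *ᵥ x, P *ᵥ y, lin_indep_map P hP x y hxy, h1, h2, h3⟩

theorem inj_of_det {n : Type*} [Fintype n] [DecidableEq n] (P : Matrix n n k) (hP : P.det ≠ 0) :
    Function.Injective P.mulVec := by
  rw [Matrix.mulVec_injective_iff_isUnit]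
  exact (Matrix.isUnit_iff_isUnit_det P).mpr (isUnit_iff_ne_zero.mpr hP)

/-- two independent vectors are the first two columns of an invertible matrix -/
theorem exists_cols (p q : Fin 4 → k) (h : LinearIndependent k ![p, q]) :
    ∃ P : Matrix (Fin 4) (Fin 4) k, P.det ≠ 0 ∧ (∀ i, P i 0 = p i) ∧ (∀ i, P i 1 = q i) := by
  obtain ⟨x, hx⟩ := exists_linearIndependent_snoc_of_lt_finrank h (by simp)
  obtain ⟨y, hy⟩ := exists_linearIndependent_snoc_of_lt_finrank hx (by simp)
  set w : Fin 4 → (Fin 4 → k) := Fin.snoc (Fin.snoc ![p, q] x) y with hw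
  have h0 : w 0 = p := rfl
  have h1 : w 1 = q := rfl
  refine ⟨(Matrix.of w)ᵀ, ?_, fun i => ?_, fun i => ?_⟩
  · rw [Matrix.det_transpose]
    have : LinearIndependent k (Matrix.of w).row := hy
    rw [Matrix.linearIndependent_rows_iff_isUnit, Matrix.isUnit_iff_isUnit_det] at this
    exact this.ne_zero
  · simp [h0]
  · simp [h1]

theorem mulVec_single_zero (P : Matrix (Fin 4) (Fin 4) k) (p : Fin 4 → k)
    (h : ∀ i, P i 0 = p i) : P *ᵥ Pi.single 0 1 = p := by
  ext i
  simp [h]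

theorem mulVec_single_one' (P : Matrix (Fin 4) (Fin 4) k) (p : Fin 4 → k)
    (h : ∀ i, P i 1 = p i) : P *ᵥ Pi.single 1 1 = p := by
  ext i
  simp [h]

theorem bf_four (N : Matrix (Fin 4) (Fin 4) k) (u v : Fin 4 → k) : bf N u v =
    u 0 * (N 0 0 * v 0 + N 0 1 * v 1 + N 0 2 * v 2 + N 0 3 * v 3) +
    u 1 * (N 1 0 * v 0 + N 1 1 * v 1 + N 1 2 * v 2 + N 1 3 * v 3) +
    u 2 * (N 2 0 * v 0 + N 2 1 * v 1 + N 2 2 * v 2 + N 2 3 * v 3) +
    u 3 * (N 3 0 * v 0 + N 3 1 * v 1 + N 3 2 * v 2 + N 3 3 * v 3) := by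
  simp [bf, Matrix.mulVec, dotProduct, Fin.sum_univ_four]

theorem bf_single (N : Matrix (Fin 4) (Fin 4) k) (i j : Fin 4) :
    bf N (Pi.single i 1) (Pi.single j 1) = N i j := by
  simp [bf]

/-- explicit formula for the determinant -/
theorem det_four (N : Matrix (Fin 4) (Fin 4) k) : N.det =
    N 0 0 * (N 1 1 * (N 2 2 * N 3 3 - N 2 3 * N 3 2) - N 1 2 * (N 2 1 * N 3 3 - N 2 3 * N 3 1) +
      N 1 3 * (N 2 1 * N 3 2 - N 2 2 * N 3 1)) -
    N 0 1 * (N 1 0 * (N 2 2 * N 3 3 - N 2 3 * N 3 2) - N 1 2 * (N 2 0 * N 3 3 - N 2 3 * N 3 0) +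
      N 1 3 * (N 2 0 * N 3 2 - N 2 2 * N 3 0)) +
    N 0 2 * (N 1 0 * (N 2 1 * N 3 3 - N 2 3 * N 3 1) - N 1 1 * (N 2 0 * N 3 3 - N 2 3 * N 3 0) +
      N 1 3 * (N 2 0 * N 3 1 - N 2 1 * N 3 0)) -
    N 0 3 * (N 1 0 * (N 2 1 * N 3 2 - N 2 2 * N 3 1) - N 1 1 * (N 2 0 * N 3 2 - N 2 2 * N 3 0) +
      N 1 2 * (N 2 0 * N 3 1 - N 2 1 * N 3 0)) := by
  rw [Matrix.det_succ_row_zero]
  simp [Fin.sum_univ_four, Matrix.det_fin_three, Fin.succAbove, Matrix.submatrix]
  ring

/-- a form with square determinant which vanishes at `e_0` vanishes on a plane -/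
theorem isoPlane_aux (N : Matrix (Fin 4) (Fin 4) k) (hs : Nᵀ = N) (z : k)
    (_hz : z ≠ 0) (hdet : N.det = z ^ 2) (h0 : N 0 0 = 0) (h1 : N 0 1 ≠ 0) : IsoPlane N := by
  have hs' : ∀ i j, N i j = N j i := fun i j => by
    conv_lhs => rw [← hs]
    rfl
  set w₁ : Fin 4 → k := ![0, -N 0 2, N 0 1, 0] with hw₁
  set w₂ : Fin 4 → k := ![0, -N 0 3, 0, N 0 1] with hw₂
  set e : Fin 4 → k := Pi.single 0 1 with he
  have hee : bf N e e = 0 := by rw [he, bf_single, h0]
  have he₁ : bf N e w₁ = 0 := by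
    rw [bf_four]; simp [he, hw₁]; ring
  have he₂ : bf N e w₂ = 0 := by
    rw [bf_four]; simp [he, hw₂]; ring
  have hid : bf N w₁ w₂ ^ 2 - bf N w₁ w₁ * bf N w₂ w₂ = (N 0 1 * z) ^ 2 := by
    rw [mul_pow, ← hdet, det_four, bf_four, bf_four, bf_four]
    simp only [hw₁, hw₂, Matrix.cons_val_zero, Matrix.cons_val_one, Matrix.cons_val, h0,
      hs' 1 0, hs' 2 0, hs' 3 0, hs' 2 1, hs' 3 1, hs' 3 2]
    ring
  by_cases hα : bf N w₁ w₁ = 0
  · refine ⟨e, w₁, ?_, hee, he₁, hα⟩
    rw [LinearIndependent.pair_iff]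
    intro s t hst
    have ht := congrFun hst 2
    simp [he, hw₁, h1] at ht
    subst ht
    have hs'' := congrFun hst 0
    simp [he, hw₁] at hs''
    exact ⟨hs'', rfl⟩
  · refine ⟨e, (-bf N w₁ w₂ + N 0 1 * z) • w₁ + bf N w₁ w₁ • w₂, ?_, hee, ?_, ?_⟩
    · rw [LinearIndependent.pair_iff]
      intro s t hst
      have ht : t * (bf N w₁ w₁ * N 0 1) = 0 := by
        have h3 := congrFun hst 3
        have a1 : w₁ 3 = 0 := rfl
        have a2 : w₂ 3 = N 0 1 := rfl
        have a3 : e 3 = 0 := by rw [he]; rfl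
        simp only [Pi.add_apply, Pi.smul_apply, smul_eq_mul, Pi.zero_apply, a1, a2, a3] at h3
        linear_combination h3
      have ht : t = 0 := by
        rcases mul_eq_zero.mp ht with h | h
        · exact h
        · exact absurd h (mul_ne_zero hα h1)
      subst ht
      have hs'' := congrFun hst 0
      simp [he, hw₁, hw₂] at hs''
      exact ⟨hs'', rfl⟩
    · rw [bf_add_right, bf_smul_right, bf_smul_right, he₁, he₂]
      ring
    · rw [bf_add_right, bf_smul_right, bf_smul_right, bf_add_left, bf_smul_left, bf_smul_left,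
        bf_add_left, bf_smul_left, bf_smul_left, bf_comm hs w₂ w₁]
      linear_combination (-bf N w₁ w₁) * hid

/-- a form with non zero square determinant and a non zero isotropic vector vanishes on a plane -/
theorem isoPlane_of_isotropic (N : Matrix (Fin 4) (Fin 4) k) (hs : Nᵀ = N) (z : k)
    (hz : z ≠ 0) (hdet : N.det = z ^ 2) (c : Fin 4 → k) (hc : c ≠ 0) (hcc : bf N c c = 0) :
    IsoPlane N := by
  -- a vector with `N(c, d) ≠ 0`
  have hNc : N *ᵥ c ≠ 0 := by
    intro h
    have : N.det = 0 := Matrix.exists_mulVec_eq_zero_iff.mp ⟨c, hc, h⟩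
    rw [hdet] at this
    exact hz (by simpa using this)
  obtain ⟨j, hj⟩ : ∃ j, (N *ᵥ c) j ≠ 0 := by
    by_contra hcon
    push Not at hcon
    exact hNc (funext hcon)
  set d : Fin 4 → k := Pi.single j 1 with hd
  have hdc : bf N d c ≠ 0 := by
    rw [bf, hd, single_one_dotProduct]; exact hj
  have hcd : bf N c d ≠ 0 := by rw [bf_comm hs]; exact hdc
  have hind : LinearIndependent k ![c, d] := by
    rw [LinearIndependent.pair_iff]
    intro s t hst
    have h1 : bf N c (s • c + t • d) = 0 := by rw [hst]; simp [bf]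
    rw [bf_add_right, bf_smul_right, bf_smul_right, hcc, mul_zero, zero_add] at h1
    have ht : t = 0 := by
      rcases mul_eq_zero.mp h1 with h | h
      · exact h
      · exact absurd h hcd
    subst ht
    rw [zero_smul, add_zero] at hst
    rcases smul_eq_zero.mp hst with h | h
    · exact ⟨h, rfl⟩
    · exact absurd h hc
  obtain ⟨P, hP, h0, h1⟩ := exists_cols c d hind
  apply IsoPlane.congr N P (inj_of_det P hP)
  have e0 := mulVec_single_zero P c h0
  have e1 := mulVec_single_one' P d h1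
  refine isoPlane_aux (Pᵀ * N * P) ?_ (P.det * z) (mul_ne_zero hP hz) ?_ ?_ ?_
  · rw [Matrix.transpose_mul, Matrix.transpose_mul, Matrix.transpose_transpose, hs,
      Matrix.mul_assoc]
  · rw [Matrix.det_mul, Matrix.det_mul, Matrix.det_transpose, hdet]; ring
  · rw [← bf_single (Pᵀ * N * P) 0 0, bf_congr, e0, hcc]
  · rw [← bf_single (Pᵀ * N * P) 0 1, bf_congr, e0, e1]; exact hcd

end field

end Pool.Agent.Work.D9odd
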