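import Mathlib
import Pool.Agent.Work.MP_b62148_ag.D9odd.Form

/-!
The pencils of quaternary forms attached to a net of quinary forms `r S_1 + r v S_2 + S_0` and the
moving hyperplane `A_2 + v A_3 + v ^ 2 A_4 = 0`.
-/

namespace Pool.Agent.Work.D9odd

open Matrix

section

variable {k : Type*} [CommRing k]

/-- basis of the hyperplane `A_2 + v A_3 + v ^ 2 A_4 = 0` -/
def hyp (v : k) : Matrix (Fin 5) (Fin 4) k :=
  !![1, 0, 0, 0; 0, 1, 0, 0; 0, 0, v, 0; 0, 0, -1, v; 0, 0, 0, -1]

/-- the constant term of the pencil over the line of slope `v` -/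
def pen0 (S0 : Matrix (Fin 5) (Fin 5) k) (v : k) : Matrix (Fin 4) (Fin 4) k :=
  (hyp v)ᵀ * S0 * hyp v

/-- the linear term of the pencil over the line of slope `v` -/
def pen1 (S1 S2 : Matrix (Fin 5) (Fin 5) k) (v : k) : Matrix (Fin 4) (Fin 4) k :=
  (hyp v)ᵀ * (S1 + v • S2) * hyp v

/-- the determinant of the pencil, as a polynomial in `r`, with coefficients in the polynomials in
`v` -/
noncomputable def penDet (S0 S1 S2 : Matrix (Fin 5) (Fin 5) k) : Polynomial (Polynomial k) :=
  ((pen0 (S0.map Polynomial.C) (Polynomial.X : Polynomial k)).map Polynomial.C +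
    (Polynomial.X : Polynomial (Polynomial k)) •
      (pen1 (S1.map Polynomial.C) (S2.map Polynomial.C) (Polynomial.X : Polynomial k)).map
        Polynomial.C).det

end

end Pool.Agent.Work.D9odd
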