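import Mathlib
import Pool.Agent.Work.MP_b62148_ag.D9.Engine
import Pool.Agent.Work.MP_b62148_ag.D9odd.Pen

/-!
Odd class: ring homomorphisms and the pencils; the abstract step over a function field.
-/

namespace Pool.Agent.Work.D9odd

open Matrix Polynomial

section ring

variable {A A' : Type*} [CommRing A] [CommRing A'] (f : A →+* A')

theorem map_hyp (v : A) : (hyp v).map f = hyp (f v) := by
  ext i j
  fin_cases i <;> fin_cases j <;> simp [hyp]

theorem map_pen0 (S0 : Matrix (Fin 5) (Fin 5) A) (v : A) :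
    (pen0 S0 v).map f = pen0 (S0.map f) (f v) := by
  unfold pen0
  rw [Matrix.map_mul, Matrix.map_mul, Matrix.transpose_map, map_hyp]

theorem map_pen1 (S1 S2 : Matrix (Fin 5) (Fin 5) A) (v : A) :
    (pen1 S1 S2 v).map f = pen1 (S1.map f) (S2.map f) (f v) := by
  unfold pen1
  rw [Matrix.map_mul, Matrix.map_mul, Matrix.transpose_map, map_hyp]
  congr 2
  ext i j
  simp

theorem map_pen (S0 S1 S2 : Matrix (Fin 5) (Fin 5) A) (v r : A) :
    (pen0 S0 v + r • pen1 S1 S2 v).map f =
      pen0 (S0.map f) (f v) + f r • pen1 (S1.map f) (S2.map f) (f v) := by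
  rw [← map_pen0, ← map_pen1]
  ext i j
  simp

theorem map_bf {n : Type*} [Fintype n] (N : Matrix n n A) (x y : n → A) :
    f (bf N x y) = bf (N.map f) (f ∘ x) (f ∘ y) := by
  simp only [bf, dotProduct, Matrix.mulVec, map_sum, map_mul, Matrix.map_apply,
    Function.comp_apply]

theorem pen0_symm {S0 : Matrix (Fin 5) (Fin 5) A} (h0 : S0ᵀ = S0) (v : A) :
    (pen0 S0 v)ᵀ = pen0 S0 v := by
  unfold pen0
  rw [Matrix.transpose_mul, Matrix.transpose_mul, Matrix.transpose_transpose, h0,
    Matrix.mul_assoc]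

theorem pen1_symm {S1 S2 : Matrix (Fin 5) (Fin 5) A} (h1 : S1ᵀ = S1) (h2 : S2ᵀ = S2) (v : A) :
    (pen1 S1 S2 v)ᵀ = pen1 S1 S2 v := by
  unfold pen1
  rw [Matrix.transpose_mul, Matrix.transpose_mul, Matrix.transpose_transpose,
    Matrix.transpose_add, Matrix.transpose_smul, h1, h2, Matrix.mul_assoc]

variable {k : Type*} [CommRing k]

theorem penDet_eval₂ (S0 S1 S2 : Matrix (Fin 5) (Fin 5) k) (φ : k[X] →+* A) (r : A) :
    (penDet S0 S1 S2).eval₂ φ r =
      (pen0 (S0.map (φ.comp C)) (φ X) + r • pen1 (S1.map (φ.comp C)) (S2.map (φ.comp C))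
        (φ X)).det := by
  have h1 : (penDet S0 S1 S2).eval₂ φ r = Polynomial.eval₂RingHom φ r (penDet S0 S1 S2) := rfl
  rw [h1, penDet, RingHom.map_det]
  congr 1
  have h2 : ∀ S : Matrix (Fin 5) (Fin 5) k, S.map (φ.comp C) = (S.map C).map φ := fun S => by
    ext i j; rfl
  rw [h2, h2, h2, ← map_pen0, ← map_pen1]
  ext i j
  simp only [RingHom.mapMatrix_apply, Matrix.map_apply, Matrix.add_apply, Matrix.smul_apply,
    smul_eq_mul, map_add, map_mul]
  simp only [coe_eval₂RingHom, eval₂_C, eval₂_X]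

theorem penDet_natDegree (S0 S1 S2 : Matrix (Fin 5) (Fin 5) k) :
    (penDet S0 S1 S2).natDegree ≤ 4 := by
  rw [penDet, add_comm]
  have := Polynomial.natDegree_det_X_add_C_le
    (pen1 (S1.map Polynomial.C) (S2.map Polynomial.C) (Polynomial.X : Polynomial k))
    (pen0 (S0.map Polynomial.C) (Polynomial.X : Polynomial k))
  rw [Fintype.card_fin] at this
  exact this

theorem penDet_sum (S0 S1 S2 : Matrix (Fin 5) (Fin 5) k) (φ : k[X] →+* A) (r : A) :
    (pen0 (S0.map (φ.comp C)) (φ X) + r • pen1 (S1.map (φ.comp C)) (S2.map (φ.comp C))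
        (φ X)).det = φ ((penDet S0 S1 S2).coeff 0) + φ ((penDet S0 S1 S2).coeff 1) * r +
      φ ((penDet S0 S1 S2).coeff 2) * r ^ 2 + φ ((penDet S0 S1 S2).coeff 3) * r ^ 3 +
      φ ((penDet S0 S1 S2).coeff 4) * r ^ 4 := by
  rw [← penDet_eval₂, Polynomial.eval₂_eq_sum_range' φ
    (Nat.lt_succ_of_le (penDet_natDegree S0 S1 S2))]
  simp [Finset.sum_range_succ]

end ring

section indep

variable {K : Type*} [Field K]

theorem minor_of_indep {n : Type*} (x y : n → K) (h : LinearIndependent K ![x, y]) :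
    ∃ i j, x i * y j - x j * y i ≠ 0 := by
  by_contra hcon
  push Not at hcon
  rw [LinearIndependent.pair_iff] at h
  have hx : x ≠ 0 := by
    rintro rfl
    have := h 1 0 (by simp)
    exact one_ne_zero this.1
  obtain ⟨i, hi⟩ : ∃ i, x i ≠ 0 := by
    by_contra hc
    push Not at hc
    exact hx (funext hc)
  have := h (-(y i)) (x i) (by
    funext j
    simp only [Pi.add_apply, Pi.smul_apply, smul_eq_mul, Pi.zero_apply]
    linear_combination hcon i j)
  exact hi this.2

theorem indep_of_minor {n : Type*} (x y : n → K) (i j : n) (h : x i * y j - x j * y i ≠ 0) :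
    LinearIndependent K ![x, y] := by
  rw [LinearIndependent.pair_iff]
  intro s t hst
  have h1 := congrFun hst i
  have h2 := congrFun hst j
  simp only [Pi.add_apply, Pi.smul_apply, smul_eq_mul, Pi.zero_apply] at h1 h2
  constructor
  · have : s * (x i * y j - x j * y i) = 0 := by linear_combination y j * h1 - y i * h2
    exact (mul_eq_zero.mp this).resolve_right h
  · have : t * (x i * y j - x j * y i) = 0 := by linear_combination x i * h2 - x j * h1
    exact (mul_eq_zero.mp this).resolve_right h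

theorem hyp_mem (v : K) (a : Fin 5 → K) (ha : a 2 + v * a 3 + v ^ 2 * a 4 = 0) :
    hyp v *ᵥ ![a 0, a 1, -(a 3 + v * a 4), -a 4] = a := by
  funext i
  fin_cases i <;> simp [hyp, Matrix.mulVec, dotProduct, Fin.sum_univ_four]
  · linear_combination -ha

/-- if `S` vanishes on a plane, its restriction to a hyperplane has an isotropic vector -/
theorem pen0_isotropic (S : Matrix (Fin 5) (Fin 5) K) (hS : Sᵀ = S) (h : IsoPlane S) (v : K) :
    ∃ c : Fin 4 → K, c ≠ 0 ∧ bf (pen0 S v) c c = 0 := by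
  obtain ⟨x, y, hxy, hxx, hxy', hyy⟩ := h
  have key : ∀ a : Fin 5 → K, a ≠ 0 → a 2 + v * a 3 + v ^ 2 * a 4 = 0 → bf S a a = 0 →
      ∃ c : Fin 4 → K, c ≠ 0 ∧ bf (pen0 S v) c c = 0 := by
    intro a ha h1 h2
    refine ⟨![a 0, a 1, -(a 3 + v * a 4), -a 4], ?_, ?_⟩
    · intro h0
      apply ha
      rw [← hyp_mem v a h1, h0, Matrix.mulVec_zero]
    · rw [pen0, bf_congr, hyp_mem v a h1, h2]
  rw [LinearIndependent.pair_iff] at hxy
  by_cases hx : x 2 + v * x 3 + v ^ 2 * x 4 = 0
  · refine key x ?_ hx hxx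
    rintro rfl
    exact one_ne_zero (hxy 1 0 (by simp)).1
  · refine key ((-(y 2 + v * y 3 + v ^ 2 * y 4)) • x + (x 2 + v * x 3 + v ^ 2 * x 4) • y) ?_ ?_ ?_
    · intro h0
      exact hx (hxy _ _ h0).2
    · simp only [Pi.add_apply, Pi.smul_apply, smul_eq_mul]
      ring
    · rw [bf_add_left, bf_add_right, bf_add_right, bf_smul_left, bf_smul_right, bf_smul_left,
        bf_smul_right, bf_smul_left, bf_smul_right, bf_smul_left, bf_smul_right, hxx, hyy, hxy',
        bf_comm hS y x, hxy']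
      ring

end indep

end Pool.Agent.Work.D9odd
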