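import Mathlib
import Pool.Agent.Work.MP_b62148_ag.D9.Engine
import Pool.Agent.Work.MP_b62148_ag.D9odd.AMaps

/-!
Odd class: infinitely many members of the pencil over the function field vanish on a plane;
specialisation to rational points.
-/

namespace Pool.Agent.Work.D9odd

open Matrix Polynomial

/-- the conclusion of the doubling lemma over a field -/
def Double (K : Type*) [Field K] : Prop :=
  ∀ N0 N1 : Matrix (Fin 4) (Fin 4) K, N0ᵀ = N0 → N1ᵀ = N1 → IsoPlane N0 → N0.det ≠ 0 →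
    ¬ IsSquare ((N0.map Polynomial.C + (Polynomial.X : Polynomial K) • N1.map Polynomial.C).det) →
    {r : K | IsSquare (N0 + r • N1).det}.Infinite → {r : K | IsoPlane (N0 + r • N1)}.Infinite

theorem IsoPlane.map {k K : Type*} [Field k] [Field K] (f : k →+* K) {n : Type*} [Fintype n]
    {N : Matrix n n k} (h : IsoPlane N) : IsoPlane (N.map f) := by
  obtain ⟨x, y, hxy, h1, h2, h3⟩ := h
  obtain ⟨i, j, hij⟩ := minor_of_indep x y hxy
  refine ⟨f ∘ x, f ∘ y, indep_of_minor _ _ i j ?_, ?_, ?_, ?_⟩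
  · intro h0
    apply hij
    apply f.injective
    rw [map_zero, map_sub, map_mul, map_mul]
    exact h0
  · rw [← map_bf, h1, map_zero]
  · rw [← map_bf, h2, map_zero]
  · rw [← map_bf, h3, map_zero]

theorem penDet_mapA {k K : Type*} [CommRing k] [CommRing K] (S0 S1 S2 : Matrix (Fin 5) (Fin 5) k)
    (ψ : k[X] →+* K) :
    ((pen0 (S0.map (ψ.comp C)) (ψ X)).map Polynomial.C + (Polynomial.X : Polynomial K) •
      (pen1 (S1.map (ψ.comp C)) (S2.map (ψ.comp C)) (ψ X)).map Polynomial.C).det =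
      (penDet S0 S1 S2).map ψ := by
  have h1 := penDet_eval₂ S0 S1 S2 ((Polynomial.C : K →+* K[X]).comp ψ) (X : K[X])
  have h2 : (penDet S0 S1 S2).eval₂ ((Polynomial.C : K →+* K[X]).comp ψ) (X : K[X]) =
      (penDet S0 S1 S2).map ψ := rfl
  rw [← h2, h1]
  have h3 : ∀ S : Matrix (Fin 5) (Fin 5) k,
      S.map (((Polynomial.C : K →+* K[X]).comp ψ).comp C) =
        (S.map (ψ.comp C)).map (Polynomial.C : K →+* K[X]) := fun S => by
    ext i j; rfl
  rw [h3, h3, h3]
  have h4 : ((Polynomial.C : K →+* K[X]).comp ψ) X = Polynomial.C (ψ X) := rfl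
  rw [h4, ← map_pen0 (Polynomial.C : K →+* K[X]), ← map_pen1 (Polynomial.C : K →+* K[X])]

theorem map_evalG {A A' k : Type*} [CommRing A] [CommRing A'] [CommRing k] (τ : A →+* A')
    (ψ : k[X] →+* A) (r : A) (G : MvPolynomial (Fin 2) k) :
    τ (MvPolynomial.eval₂ (ψ.comp C) ![r, ψ X] G) =
      MvPolynomial.eval₂ ((τ.comp ψ).comp C) ![τ r, τ (ψ X)] G := by
  rw [MvPolynomial.eval₂_comp_left τ]
  congr 1
  funext l
  fin_cases l <;> rfl

/-- the coefficients of a square of degree four -/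
theorem square_rel {K : Type*} [Field K] (f : K[X]) (hdeg : f.natDegree ≤ 4) (h : IsSquare f) :
    (f.coeff 1 ^ 2 - 4 * f.coeff 0 * f.coeff 2) ^ 2 = 64 * f.coeff 0 ^ 3 * f.coeff 4 := by
  obtain ⟨g, rfl⟩ := h
  have hg : g.natDegree ≤ 2 := by
    rcases eq_or_ne g 0 with rfl | h0
    · simp
    · rw [Polynomial.natDegree_mul h0 h0] at hdeg
      omega
  have g3 : g.coeff 3 = 0 := Polynomial.coeff_eq_zero_of_natDegree_lt (by omega)
  have g4 : g.coeff 4 = 0 := Polynomial.coeff_eq_zero_of_natDegree_lt (by omega)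
  have e0 : (g * g).coeff 0 = g.coeff 0 * g.coeff 0 := Polynomial.mul_coeff_zero g g
  have e1 : (g * g).coeff 1 = g.coeff 0 * g.coeff 1 + g.coeff 1 * g.coeff 0 :=
    Polynomial.mul_coeff_one g g
  have e2 : (g * g).coeff 2 = g.coeff 0 * g.coeff 2 + g.coeff 1 * g.coeff 1 +
      g.coeff 2 * g.coeff 0 := by
    rw [Polynomial.coeff_mul, Finset.Nat.sum_antidiagonal_eq_sum_range_succ_mk]
    simp [Finset.sum_range_succ]
  have e4 : (g * g).coeff 4 = g.coeff 2 * g.coeff 2 := by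
    rw [Polynomial.coeff_mul, Finset.Nat.sum_antidiagonal_eq_sum_range_succ_mk]
    simp [Finset.sum_range_succ, g3, g4]
  rw [e0, e1, e2, e4]
  ring

section

variable {R K T k : Type*} [CommRing R] [IsDomain R] [Field K] [Algebra R K] [IsFractionRing R K]
  [CommRing T] [IsDomain T] [CharZero T] [Field k]

/-- over the function field infinitely many members of the pencil vanish on a plane -/
theorem iso_infinite (hD : Double K) (S0 S1 S2 : Matrix (Fin 5) (Fin 5) k) (h0 : S0ᵀ = S0)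
    (h1 : S1ᵀ = S1) (h2 : S2ᵀ = S2) (hiso : IsoPlane S0) (φ : k[X] →+* R) (z : R)
    (hz : z ^ 2 = φ ((penDet S0 S1 S2).coeff 0)) (hz0 : z ≠ 0) (ev : R →+* T) (hev : ev z = 0)
    (hev1 : ev (φ ((penDet S0 S1 S2).coeff 1)) ≠ 0) (ψ : k[X] →+* K)
    (hψ : ψ = (algebraMap R K).comp φ) :
    {r : K | IsoPlane (pen0 (S0.map (ψ.comp C)) (ψ X) +
      r • pen1 (S1.map (ψ.comp C)) (S2.map (ψ.comp C)) (ψ X))}.Infinite := by
  have hinj := IsFractionRing.injective R K
  have hψ' : ∀ p, ψ p = algebraMap R K (φ p) := fun p => by rw [hψ]; rfl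
  set N0 := pen0 (S0.map (ψ.comp C)) (ψ X) with hN0
  set N1 := pen1 (S1.map (ψ.comp C)) (S2.map (ψ.comp C)) (ψ X) with hN1
  have hsum : ∀ r : K, (N0 + r • N1).det = algebraMap R K z ^ 2 +
      algebraMap R K (φ ((penDet S0 S1 S2).coeff 1)) * r +
      algebraMap R K (φ ((penDet S0 S1 S2).coeff 2)) * r ^ 2 +
      algebraMap R K (φ ((penDet S0 S1 S2).coeff 3)) * r ^ 3 +
      algebraMap R K (φ ((penDet S0 S1 S2).coeff 4)) * r ^ 4 := by
    intro r
    rw [hN0, hN1, penDet_sum]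
    simp only [hψ']
    rw [← hz, map_pow]
  have hdet0 : N0.det = algebraMap R K z ^ 2 := by
    have := hsum 0
    simpa using this
  have hzK : algebraMap R K z ≠ 0 := fun h => hz0 (hinj (by rw [h, map_zero]))
  have hsym : ∀ (S : Matrix (Fin 5) (Fin 5) k), Sᵀ = S →
      (S.map (ψ.comp C))ᵀ = S.map (ψ.comp C) := by
    intro S hS
    rw [← Matrix.transpose_map, hS]
  have s0 : N0ᵀ = N0 := pen0_symm (hsym S0 h0) _
  have s1 : N1ᵀ = N1 := pen1_symm (hsym S1 h1) (hsym S2 h2) _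
  obtain ⟨c, hc, hcc⟩ := pen0_isotropic (S0.map (ψ.comp C)) (hsym S0 h0) (hiso.map _) (ψ X)
  have hiso0 : IsoPlane N0 := isoPlane_of_isotropic N0 s0 _ hzK hdet0 c hc hcc
  refine hD N0 N1 s0 s1 hiso0 (by rw [hdet0]; exact pow_ne_zero 2 hzK) ?_ ?_
  · intro hsq
    rw [hN0, hN1, penDet_mapA] at hsq
    have h3 := square_rel _ ((Polynomial.natDegree_map_le).trans (penDet_natDegree S0 S1 S2)) hsq
    simp only [Polynomial.coeff_map, hψ'] at h3
    rw [← hz] at h3
    have h4 : (φ ((penDet S0 S1 S2).coeff 1) ^ 2 -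
        4 * z ^ 2 * φ ((penDet S0 S1 S2).coeff 2)) ^ 2 =
        64 * (z ^ 2) ^ 3 * φ ((penDet S0 S1 S2).coeff 4) := by
      apply hinj
      simp only [map_sub, map_mul, map_pow, map_ofNat] at h3 ⊢
      exact h3
    have h5 := congrArg ev h4
    simp only [map_sub, map_mul, map_pow, hev] at h5
    have h6 : ev (φ ((penDet S0 S1 S2).coeff 1)) ^ 4 = 0 := by
      have : ev (φ ((penDet S0 S1 S2).coeff 1)) ^ 4 =
        (ev (φ ((penDet S0 S1 S2).coeff 1)) ^ 2 - ev 4 * 0 ^ 2 *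
          ev (φ ((penDet S0 S1 S2).coeff 2))) ^ 2 := by ring
      rw [this, h5]
      ring
    exact hev1 (pow_eq_zero_iff (by norm_num) |>.mp h6)
  · have h3 := D9.infinite_fraction (K := K) ev z (φ ((penDet S0 S1 S2).coeff 1))
      (φ ((penDet S0 S1 S2).coeff 2)) (φ ((penDet S0 S1 S2).coeff 3))
      (φ ((penDet S0 S1 S2).coeff 4)) hev hev1 hz0
    refine h3.mono fun r hr => ?_
    show IsSquare (N0 + r • N1).det
    rw [hsum]
    exact hr

/-- specialisation -/
theorem spec_zero (S0 S1 S2 : Matrix (Fin 5) (Fin 5) k) (φ : k[X] →+* R)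
    (P : Set (R →+* k)) (hP : ∀ r : R, (∀ p ∈ P, p r = 0) → r = 0)
    (hPk : ∀ p ∈ P, (p.comp φ).comp C = RingHom.id k) (ψ : k[X] →+* K)
    (hψ : ψ = (algebraMap R K).comp φ) (G : MvPolynomial (Fin 2) k)
    (hG : ∀ r v : k, IsoPlane (pen0 S0 v + r • pen1 S1 S2 v) →
      MvPolynomial.eval ![r, v] G = 0) (r : K)
    (hr : IsoPlane (pen0 (S0.map (ψ.comp C)) (ψ X) +
      r • pen1 (S1.map (ψ.comp C)) (S2.map (ψ.comp C)) (ψ X))) :
    MvPolynomial.eval₂ (ψ.comp C) ![r, ψ X] G = 0 := by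
  classical
  by_contra hne
  obtain ⟨x, y, hxy, hxx, hxy', hyy⟩ := hr
  obtain ⟨i, j, hij⟩ := minor_of_indep x y hxy
  set g := MvPolynomial.eval₂ (ψ.comp C) ![r, ψ X] G with hg
  set m := x i * y j - x j * y i with hm
  obtain ⟨p, hp, f, ι, φ', hι, hι', hφ', hZ⟩ := D9.exists_spec (K := K) P hP
    ({r, g⁻¹, m⁻¹} ∪ (Finset.univ.image x ∪ Finset.univ.image y))
  obtain ⟨r', hr'⟩ := hZ r (by simp)
  obtain ⟨g', hg'⟩ := hZ g⁻¹ (by simp)
  obtain ⟨m', hm'⟩ := hZ m⁻¹ (by simp)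
  choose x' hx' using fun l : Fin 4 => hZ (x l) (by simp)
  choose y' hy' using fun l : Fin 4 => hZ (y l) (by simp)
  have fx : ι ∘ x' = x := funext hx'
  have fy : ι ∘ y' = y := funext hy'
  set α : R →+* Localization.Away f := algebraMap R (Localization.Away f) with hα
  set ψ' : k[X] →+* Localization.Away f := α.comp φ with hψ'
  have hιψ : ι.comp ψ' = ψ := by
    rw [hψ', ← RingHom.comp_assoc, hι', hψ]
  have hφψ : (φ'.comp ψ').comp C = RingHom.id k := by
    have e : φ'.comp (α.comp φ) = (φ'.comp α).comp φ := rfl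
    rw [hψ', e, hφ']
    exact hPk p hp
  have eι : ∀ q, ι (ψ' q) = ψ q := fun q => by rw [← hιψ]; rfl
  have mι : ∀ S : Matrix (Fin 5) (Fin 5) k, (S.map (ψ'.comp C)).map ι = S.map (ψ.comp C) := by
    intro S
    ext a b
    simp only [Matrix.map_apply, RingHom.comp_apply]
    exact eι _
  have eφ : ∀ c : k, φ' (ψ' (C c)) = c := fun c => by
    have := RingHom.congr_fun hφψ c
    exact this
  have mφ : ∀ S : Matrix (Fin 5) (Fin 5) k, (S.map (ψ'.comp C)).map φ' = S := by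
    intro S
    ext a b
    simp only [Matrix.map_apply, RingHom.comp_apply]
    exact eφ _
  set N' : Matrix (Fin 4) (Fin 4) (Localization.Away f) := pen0 (S0.map (ψ'.comp C)) (ψ' X) +
      r' • pen1 (S1.map (ψ'.comp C)) (S2.map (ψ'.comp C)) (ψ' X) with hN'
  have hNι : N'.map ι = pen0 (S0.map (ψ.comp C)) (ψ X) +
      r • pen1 (S1.map (ψ.comp C)) (S2.map (ψ.comp C)) (ψ X) := by
    rw [hN', map_pen, mι, mι, mι, eι, hr']
  have hNφ : N'.map φ' = pen0 S0 (φ' (ψ' X)) + φ' r' • pen1 S1 S2 (φ' (ψ' X)) := by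
    rw [hN', map_pen, mφ, mφ, mφ]
  have t1 : bf N' x' x' = 0 := by
    apply hι; rw [map_bf, hNι, fx, map_zero, hxx]
  have t2 : bf N' x' y' = 0 := by
    apply hι; rw [map_bf, hNι, fx, fy, map_zero, hxy']
  have t3 : bf N' y' y' = 0 := by
    apply hι; rw [map_bf, hNι, fy, map_zero, hyy]
  have t4 : (x' i * y' j - x' j * y' i) * m' = 1 := by
    apply hι
    rw [map_mul, map_sub, map_mul, map_mul, hm', hx', hx', hy', hy', map_one, ← hm]
    exact mul_inv_cancel₀ hij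
  have t5 : MvPolynomial.eval₂ (ψ'.comp C) ![r', ψ' X] G * g' = 1 := by
    apply hι
    rw [map_mul, map_evalG, hιψ, hr', eι, ← hg, hg', map_one]
    exact mul_inv_cancel₀ hne
  have hk : IsoPlane (pen0 S0 (φ' (ψ' X)) + φ' r' • pen1 S1 S2 (φ' (ψ' X))) := by
    rw [← hNφ]
    refine ⟨φ' ∘ x', φ' ∘ y', indep_of_minor _ _ i j ?_, ?_, ?_, ?_⟩
    · intro h0
      have := congrArg φ' t4
      rw [map_mul, map_sub, map_mul, map_mul, map_one] at this
      simp only [Function.comp_apply] at h0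
      rw [h0, zero_mul] at this
      exact zero_ne_one this
    · rw [← map_bf, t1, map_zero]
    · rw [← map_bf, t2, map_zero]
    · rw [← map_bf, t3, map_zero]
  have h6 := hG _ _ hk
  have h7 := congrArg φ' t5
  rw [map_mul, map_evalG, hφψ, map_one] at h7
  have h8 : MvPolynomial.eval₂ (RingHom.id k) ![φ' r', φ' (ψ' X)] G =
      MvPolynomial.eval ![φ' r', φ' (ψ' X)] G := rfl
  rw [h8, h6, zero_mul] at h7
  exact zero_ne_one h7

end

end Pool.Agent.Work.D9odd
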