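import Mathlib
import Pool.Agent.Work.MP_b62148_ag.D9odd.AStep

/-!
Odd class: the coordinate ring of `z ^ 2 = B(v)`; density of the members of the pencils vanishing
on a plane, over every field over which the curve has infinitely many points.
-/

namespace Pool.Agent.Work.D9odd

open Matrix Polynomial

universe u

section

variable {k : Type*} [Field k]

/-- the polynomial `Y ^ 2 - B` over `k[v]` -/
noncomputable def crv (B : k[X]) : (k[X])[X] := X ^ 2 - C B

theorem crv_monic (B : k[X]) : (crv B).Monic := Polynomial.monic_X_pow_sub_C B two_ne_zero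

theorem crv_natDegree (B : k[X]) : (crv B).natDegree = 2 := Polynomial.natDegree_X_pow_sub_C

theorem crv_irreducible (B : k[X]) (hB : ¬ ∃ t, t ^ 2 = B) : Irreducible (crv B) := by
  rw [(crv_monic B).irreducible_iff_roots_eq_zero_of_degree_le_three
    (by rw [crv_natDegree]) (by rw [crv_natDegree]; norm_num)]
  by_contra hne
  obtain ⟨t, ht⟩ := Multiset.exists_mem_of_ne_zero hne
  have h1 := (Polynomial.mem_roots'.mp ht).2
  apply hB
  refine ⟨t, ?_⟩
  rw [Polynomial.IsRoot.def, crv] at h1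
  simp only [Polynomial.eval_sub, Polynomial.eval_pow, Polynomial.eval_X, Polynomial.eval_C] at h1
  exact sub_eq_zero.mp h1

theorem not_sq {Ω : Type*} [Field Ω] [Algebra k Ω] (B : k[X]) (v0 : Ω)
    (h : Polynomial.aeval v0 B = 0) (h' : Polynomial.aeval v0 (Polynomial.derivative B) ≠ 0) :
    ¬ ∃ t, t ^ 2 = B := by
  rintro ⟨t, rfl⟩
  apply h'
  rw [map_pow] at h
  have h1 := pow_eq_zero_iff (two_ne_zero) |>.mp h
  rw [Polynomial.derivative_pow, map_mul, map_mul, map_pow, h1]
  simp

/-- the ring homomorphism attached to a point -/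
noncomputable def ptHom {A : Type*} [CommRing A] (B : k[X]) (i : k[X] →+* A) (z : A)
    (h : z ^ 2 = i B) : AdjoinRoot (crv B) →+* A :=
  AdjoinRoot.lift i z (by
    rw [crv, Polynomial.eval₂_sub, Polynomial.eval₂_pow, Polynomial.eval₂_X, Polynomial.eval₂_C,
      h, sub_self])

theorem ptHom_of {A : Type*} [CommRing A] (B : k[X]) (i : k[X] →+* A) (z : A)
    (h : z ^ 2 = i B) (p : k[X]) : ptHom B i z h (AdjoinRoot.of (crv B) p) = i p :=
  AdjoinRoot.lift_of _

theorem ptHom_root {A : Type*} [CommRing A] (B : k[X]) (i : k[X] →+* A) (z : A)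
    (h : z ^ 2 = i B) : ptHom B i z h (AdjoinRoot.root (crv B)) = z :=
  AdjoinRoot.lift_root _

theorem exists_ab (B : k[X]) (r : AdjoinRoot (crv B)) : ∃ a b : k[X],
    r = AdjoinRoot.of (crv B) a + AdjoinRoot.of (crv B) b * AdjoinRoot.root (crv B) := by
  obtain ⟨g, rfl⟩ := AdjoinRoot.mk_surjective r
  have h1 : AdjoinRoot.mk (crv B) g = AdjoinRoot.mk (crv B) (g %ₘ crv B) := by
    rw [AdjoinRoot.mk_eq_mk]
    refine ⟨g /ₘ crv B, ?_⟩
    have := Polynomial.modByMonic_add_div g (crv B)
    linear_combination -this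
  have h2 : (g %ₘ crv B).natDegree < 2 := by
    have := Polynomial.natDegree_modByMonic_lt g (crv_monic B) (by
      intro h
      have := crv_natDegree B
      rw [h] at this
      simp at this)
    rwa [crv_natDegree] at this
  rw [h1]
  refine ⟨(g %ₘ crv B).coeff 0, (g %ₘ crv B).coeff 1, ?_⟩
  have h3 : g %ₘ crv B = C ((g %ₘ crv B).coeff 0) + C ((g %ₘ crv B).coeff 1) * X := by
    conv_lhs => rw [Polynomial.as_sum_range' _ 2 h2]
    simp [Finset.sum_range_succ, ← Polynomial.C_mul_X_pow_eq_monomial]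
  conv_lhs => rw [h3]
  rw [map_add, map_mul, AdjoinRoot.mk_C, AdjoinRoot.mk_C, AdjoinRoot.mk_X]

/-- the rational points of the curve -/
def CPts (B : k[X]) : Set (k × k) := {p | p.2 ^ 2 = B.eval p.1}

/-- the homomorphisms attached to rational points -/
def PP (B : k[X]) : Set (AdjoinRoot (crv B) →+* k) :=
  {p | ∃ (v z : k) (h : z ^ 2 = Polynomial.evalRingHom v B),
    p = ptHom B (Polynomial.evalRingHom v) z h}

theorem CPts_fst (B : k[X]) (hinf : (CPts B).Infinite) :
    {v : k | ∃ z, z ^ 2 = B.eval v}.Infinite := by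
  intro hfin
  apply hinf
  have h1 : (CPts B) ⊆ ⋃ v ∈ {v : k | ∃ z, z ^ 2 = B.eval v},
      ((fun z : k => (v, z)) '' {z : k | z ^ 2 = B.eval v}) := by
    rintro ⟨v, z⟩ h
    simp only [Set.mem_iUnion]
    exact ⟨v, ⟨z, h⟩, z, h, rfl⟩
  refine (hfin.biUnion fun v _ => ?_).subset h1
  refine Set.Finite.image _ ?_
  have h2 : (X ^ 2 - C (B.eval v) : k[X]) ≠ 0 := Polynomial.X_pow_sub_C_ne_zero two_pos _
  refine (Polynomial.finite_setOfPred_isRoot h2).subset fun z hz => ?_
  show Polynomial.IsRoot _ z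
  rw [Polynomial.IsRoot.def]
  simp only [Polynomial.eval_sub, Polynomial.eval_pow, Polynomial.eval_X, Polynomial.eval_C]
  exact sub_eq_zero.mpr hz

theorem PP_dense (B : k[X]) (hB : ¬ ∃ t, t ^ 2 = B) (hinf : (CPts B).Infinite)
    (r : AdjoinRoot (crv B)) (hr : ∀ p ∈ PP B, p r = 0) : r = 0 := by
  obtain ⟨a, b, rfl⟩ := exists_ab B r
  have h1 : a ^ 2 - b ^ 2 * B = 0 := by
    apply Polynomial.eq_zero_of_infinite_isRoot
    refine (CPts_fst B hinf).mono ?_
    rintro v ⟨z, hz⟩
    show Polynomial.IsRoot _ v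
    have hz' : z ^ 2 = Polynomial.evalRingHom v B := hz
    have h2 := hr (ptHom B (Polynomial.evalRingHom v) z hz') ⟨v, z, hz', rfl⟩
    rw [map_add, map_mul, ptHom_of, ptHom_of, ptHom_root] at h2
    simp only [Polynomial.coe_evalRingHom] at h2
    rw [Polynomial.IsRoot.def]
    simp only [Polynomial.eval_sub, Polynomial.eval_pow, Polynomial.eval_mul]
    rw [← hz]
    linear_combination (a.eval v - b.eval v * z) * h2
  rcases eq_or_ne b 0 with hb | hb
  · rw [hb] at h1
    have ha : a = 0 := by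
      have : a ^ 2 = 0 := by linear_combination h1
      exact pow_eq_zero_iff two_ne_zero |>.mp this
    rw [ha, hb]
    simp
  · exfalso
    have h2 : b ^ 2 ∣ a ^ 2 := ⟨B, by linear_combination h1⟩
    obtain ⟨t, rfl⟩ := (IsIntegrallyClosed.pow_dvd_pow_iff two_ne_zero).mp h2
    apply hB
    refine ⟨t, ?_⟩
    have h3 : b ^ 2 * (t ^ 2 - B) = 0 := by linear_combination h1
    exact sub_eq_zero.mp ((mul_eq_zero.mp h3).resolve_left (pow_ne_zero 2 hb))

/-- Module (A), odd class: over every field over which `z ^ 2 = B_4(v)` has infinitely many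
points the members of the pencils which vanish on a plane are dense. -/
theorem dense_rv {k : Type u} [Field k] [CharZero k] {Ω : Type*} [Field Ω] [Algebra k Ω]
    (S0 S1 S2 : Matrix (Fin 5) (Fin 5) k) (h0 : S0ᵀ = S0) (h1 : S1ᵀ = S1) (h2 : S2ᵀ = S2)
    (hiso : IsoPlane S0) (v0 : Ω)
    (h4 : Polynomial.aeval v0 ((penDet S0 S1 S2).coeff 0) = 0)
    (h4' : Polynomial.aeval v0 (Polynomial.derivative ((penDet S0 S1 S2).coeff 0)) ≠ 0)
    (h5 : Polynomial.aeval v0 ((penDet S0 S1 S2).coeff 1) ≠ 0)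
    (hinf : (CPts ((penDet S0 S1 S2).coeff 0)).Infinite)
    (hD : ∀ (K : Type u) [Field K], (2 : K) ≠ 0 → Double K)
    (G : MvPolynomial (Fin 2) k)
    (hG : ∀ r v : k, IsoPlane (pen0 S0 v + r • pen1 S1 S2 v) →
      MvPolynomial.eval ![r, v] G = 0) : G = 0 := by
  set B := (penDet S0 S1 S2).coeff 0 with hB
  have hns := not_sq B v0 h4 h4'
  have hirr := crv_irreducible B hns
  have : IsDomain (AdjoinRoot (crv B)) := AdjoinRoot.isDomain_of_prime hirr.prime
  have hchar : CharZero Ω := charZero_of_injective_algebraMap (algebraMap k Ω).injective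
  let R := AdjoinRoot (crv B)
  let K := FractionRing R
  let φ : k[X] →+* R := AdjoinRoot.of (crv B)
  let z : R := AdjoinRoot.root (crv B)
  let ψ : k[X] →+* K := (algebraMap R K).comp φ
  have hinj := IsFractionRing.injective R K
  have hz : z ^ 2 = φ B := by
    have h := AdjoinRoot.eval₂_root (crv B)
    rw [crv, Polynomial.eval₂_sub, Polynomial.eval₂_pow, Polynomial.eval₂_X,
      Polynomial.eval₂_C] at h
    exact sub_eq_zero.mp h
  have e0 : (0 : Ω) ^ 2 = (Polynomial.aeval (R := k) v0 : k[X] →ₐ[k] Ω).toRingHom B := by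
    show (0 : Ω) ^ 2 = Polynomial.aeval v0 B
    rw [h4]; simp
  let ev : R →+* Ω := ptHom B (Polynomial.aeval (R := k) v0 : k[X] →ₐ[k] Ω).toRingHom 0 e0
  have hev : ev z = 0 := ptHom_root _ _ _ _
  have hev' : ∀ p : k[X], ev (φ p) = Polynomial.aeval v0 p := fun p => ptHom_of _ _ _ _ p
  have hφinj : Function.Injective φ := by
    rw [injective_iff_map_eq_zero]
    intro p hp
    have h := AdjoinRoot.of.injective_of_degree_ne_zero (f := crv B) (by
      rw [Polynomial.degree_eq_natDegree (crv_monic B).ne_zero, crv_natDegree]; norm_num)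
    exact h (by rw [map_zero]; exact hp)
  have hB0 : B ≠ 0 := fun h => hns ⟨0, by rw [h]; simp⟩
  have hz0 : z ≠ 0 := by
    intro h
    rw [h] at hz
    apply hB0
    apply hφinj
    rw [map_zero, ← hz]; simp
  have h2K : (2 : K) ≠ 0 := by
    intro h
    have h6 : (2 : R) = 0 := hinj (by rw [map_zero, map_ofNat]; exact h)
    have h7 : ev 2 = 0 := by rw [h6, map_zero]
    rw [map_ofNat] at h7
    exact two_ne_zero h7
  have hiso' := iso_infinite (R := R) (K := K) (T := Ω) (hD K h2K) S0 S1 S2 h0 h1 h2 hiso φ z hz hz0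
    ev hev (by rw [hev']; exact h5) ψ rfl
  have hspec := fun r hr => spec_zero (R := R) (K := K) S0 S1 S2 φ (PP B)
    (fun r hr => PP_dense B hns hinf r hr) (by
      rintro p ⟨v, z', h, rfl⟩
      ext c
      simp only [RingHom.comp_apply, RingHom.id_apply]
      have : ptHom B (Polynomial.evalRingHom v) z' h (φ (C c)) =
        Polynomial.evalRingHom v (C c) := ptHom_of _ _ _ _ _
      rw [this]
      simp) ψ rfl G hG r hr
  -- the polynomial in `r` over `k[v]`
  let H : (k[X])[X] := MvPolynomial.eval₂ ((C : k[X] →+* (k[X])[X]).comp C) ![X, C X] G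
  have hH : ∀ r : K, (H.map ψ).eval r = MvPolynomial.eval₂ (ψ.comp C) ![r, ψ X] G := by
    intro r
    rw [Polynomial.eval_map]
    have h := MvPolynomial.eval₂_comp_left (Polynomial.eval₂RingHom ψ r)
      ((C : k[X] →+* (k[X])[X]).comp C) ![X, C X] G
    rw [Polynomial.coe_eval₂RingHom] at h
    rw [h]
    congr 1
    · ext c
      simp
    · funext l
      fin_cases l <;> simp
  have hH0 : H.map ψ = 0 := by
    apply Polynomial.eq_zero_of_infinite_isRoot
    refine hiso'.mono fun r hr => ?_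
    show Polynomial.IsRoot _ r
    rw [Polynomial.IsRoot.def, hH]
    exact hspec r hr
  have hψinj : Function.Injective ψ := hinj.comp hφinj
  have hH1 : H = 0 := by
    apply Polynomial.map_injective ψ hψinj
    rw [hH0, Polynomial.map_zero]
  apply MvPolynomial.funext
  intro x
  rw [map_zero]
  have h := MvPolynomial.eval₂_comp_left
    ((Polynomial.evalRingHom (x 1)).comp (Polynomial.evalRingHom (C (x 0))))
      ((C : k[X] →+* (k[X])[X]).comp C) ![X, C X] G
  have h8 : MvPolynomial.eval₂ ((C : k[X] →+* (k[X])[X]).comp C) ![X, C X] G = 0 := hH1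
  rw [h8, map_zero] at h
  rw [MvPolynomial.eval, MvPolynomial.coe_eval₂Hom, h]
  congr 1
  · ext c
    simp
  · funext l
    fin_cases l <;> simp

end

end Pool.Agent.Work.D9odd
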