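import Mathlib
import Pool.Agent.Work.MP_b62148_ag.D9.TwoAdic
import Pool.Agent.Work.MP_b62148_ag.D9.Val2
import Pool.Agent.Work.MP_b62148_ag.D9odd.ACurve

/-!
Odd class: a finite extension over which `z ^ 2 = B(v)` has infinitely many points.
-/

namespace Pool.Agent.Work.D9odd

open Matrix Polynomial

section near

variable {F : Type*} [Field F] {Γ₀ : Type*} [LinearOrderedCommGroupWithZero Γ₀]

theorem near_quartic (w : Valuation F Γ₀) (h2 : w 2 < 1) (hc2 : (2 : F) ≠ 0) {b1 b2 b3 b4 δ q : F}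
    (hb1 : b1 ≠ 0) (hδ : δ ≠ 0) (C : Γ₀) (hC : 1 ≤ C) (h1C : w b1 ≤ C) (h2C : w b2 ≤ C)
    (h3C : w b3 ≤ C) (h4C : w b4 ≤ C) (hsmall : w δ * C ^ 3 < w b1 ^ 2)
    (hq : q ^ 2 = b1 * δ + b2 * δ ^ 2 + b3 * δ ^ 3 + b4 * δ ^ 4) :
    {s : F | IsSquare (b1 * (δ + s) + b2 * (δ + s) ^ 2 + b3 * (δ + s) ^ 3 +
      b4 * (δ + s) ^ 4)}.Infinite := by
  have hC0 : 0 < C := lt_of_lt_of_le zero_lt_one hC
  have hb10 : 0 < w b1 := zero_lt_iff.mpr ((Valuation.ne_zero_iff w).mpr hb1)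
  have hδ0 : 0 < w δ := zero_lt_iff.mpr ((Valuation.ne_zero_iff w).mpr hδ)
  -- `w δ * C < w b1`
  have hδC : w δ * C < w b1 := by
    have h1 : w δ * C * C ^ 2 < w b1 * C ^ 2 := by
      calc w δ * C * C ^ 2 = w δ * C ^ 3 := by rw [mul_assoc, ← pow_succ']
        _ < w b1 ^ 2 := hsmall
        _ = w b1 * w b1 := sq _
        _ ≤ w b1 * C := by gcongr
        _ = w b1 * C * 1 := (mul_one _).symm
        _ ≤ w b1 * C * C := by gcongr
        _ = w b1 * C ^ 2 := by rw [mul_assoc, ← sq]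
    exact lt_of_mul_lt_mul_right h1 zero_le
  have hδ1 : w δ ≤ 1 := by
    by_contra hcon
    push Not at hcon
    have h1 : w b1 < w b1 := by
      calc w b1 ≤ C := h1C
        _ = 1 * C := (one_mul C).symm
        _ ≤ w δ * C := by gcongr
        _ < w b1 := hδC
    exact lt_irrefl _ h1
  have hint : ∀ m : ℕ, w (m : F) ≤ 1 := by
    intro m
    induction m with
    | zero => simp
    | succ m ih =>
      rw [Nat.cast_succ]
      exact le_trans (w.map_add _ _) (max_le ih (by rw [map_one]))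
  have hδn : ∀ n : ℕ, w (δ ^ n) ≤ 1 := fun n => by
    rw [map_pow]; exact pow_le_one₀ zero_le hδ1
  -- a term `m b δ ^ n` is bounded by `C`
  have t0 : ∀ (m : ℕ) (b : F) (n : ℕ), w b ≤ C → w ((m : F) * b * δ ^ n) ≤ C := by
    intro m b n hb
    rw [map_mul, map_mul]
    calc w (m : F) * w b * w (δ ^ n) ≤ 1 * C * 1 := by
          gcongr
          · exact hint m
          · exact hδn n
      _ = C := by rw [one_mul, mul_one]
  -- a term `m b δ ^ (n + 1)` is smaller than `b1`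
  have t1 : ∀ (m : ℕ) (b : F) (n : ℕ), w b ≤ C → w ((m : F) * b * δ ^ (n + 1)) < w b1 := by
    intro m b n hb
    rw [pow_succ, map_mul, map_mul, map_mul]
    calc w (m : F) * w b * (w (δ ^ n) * w δ) ≤ 1 * C * (1 * w δ) := by
          gcongr
          · exact hint m
          · exact hδn n
      _ = w δ * C := by rw [one_mul, one_mul, mul_comm]
      _ < w b1 := hδC
  have hd : w (b1 + (((2 : ℕ) : F) * b2 * δ ^ 1 + (((3 : ℕ) : F) * b3 * δ ^ 2 +
      ((4 : ℕ) : F) * b4 * δ ^ 3))) = w b1 := by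
    apply Valuation.map_add_eq_of_lt_left
    exact lt_of_le_of_lt (w.map_add _ _) (max_lt (t1 2 b2 0 h2C)
      (lt_of_le_of_lt (w.map_add _ _) (max_lt (t1 3 b3 1 h3C) (t1 4 b4 2 h4C))))
  have hc : w (b2 + (((3 : ℕ) : F) * b3 * δ ^ 1 + ((6 : ℕ) : F) * b4 * δ ^ 2)) ≤ C :=
    le_trans (w.map_add _ _) (max_le h2C (le_trans (w.map_add _ _)
      (max_le (t0 3 b3 1 h3C) (t0 6 b4 2 h4C))))
  have hb : w (b3 + ((4 : ℕ) : F) * b4 * δ ^ 1) ≤ C :=
    le_trans (w.map_add _ _) (max_le h3C (t0 4 b4 1 h4C))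
  -- the value of `q`
  have hq1 : q ^ 2 = δ * (b1 + (((1 : ℕ) : F) * b2 * δ ^ 1 + (((1 : ℕ) : F) * b3 * δ ^ 2 +
      ((1 : ℕ) : F) * b4 * δ ^ 3))) := by
    rw [hq]; push_cast; ring
  have hq2 : w (b1 + (((1 : ℕ) : F) * b2 * δ ^ 1 + (((1 : ℕ) : F) * b3 * δ ^ 2 +
      ((1 : ℕ) : F) * b4 * δ ^ 3))) = w b1 := by
    apply Valuation.map_add_eq_of_lt_left
    exact lt_of_le_of_lt (w.map_add _ _) (max_lt (t1 1 b2 0 h2C)
      (lt_of_le_of_lt (w.map_add _ _) (max_lt (t1 1 b3 1 h3C) (t1 1 b4 2 h4C))))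
  have hqv : w q ^ 2 = w δ * w b1 := by
    rw [← map_pow, hq1, map_mul, hq2]
  have hq0 : q ≠ 0 := by
    rintro rfl
    rw [map_zero, zero_pow two_ne_zero] at hqv
    exact (mul_pos hδ0 hb10).ne hqv
  have hqC : w q * C < w b1 := by
    have h1 : (w q * C) ^ 2 < w b1 ^ 2 := by
      calc (w q * C) ^ 2 = w δ * w b1 * C ^ 2 := by rw [mul_pow, hqv]
        _ ≤ w δ * C * C ^ 2 := by gcongr
        _ = w δ * C ^ 3 := by rw [mul_assoc, ← pow_succ']
        _ < w b1 ^ 2 := hsmall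
    exact lt_of_pow_lt_pow_left₀ 2 zero_le h1
  have hqle : w q ≤ C := by
    calc w q = w q * 1 := (mul_one _).symm
      _ ≤ w q * C := by gcongr
      _ ≤ w b1 := hqC.le
      _ ≤ C := h1C
  have key := D9.infinite_quartic_two w h2 hc2 hq0 C hC hqle (hd.le.trans h1C) hc hb h4C
    (by rw [hd]; exact hqC)
  refine key.mono fun s hs => ?_
  have e : b1 * (δ + s) + b2 * (δ + s) ^ 2 + b3 * (δ + s) ^ 3 + b4 * (δ + s) ^ 4 =
      q ^ 2 + (b1 + (((2 : ℕ) : F) * b2 * δ ^ 1 + (((3 : ℕ) : F) * b3 * δ ^ 2 +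
      ((4 : ℕ) : F) * b4 * δ ^ 3))) * s +
      (b2 + (((3 : ℕ) : F) * b3 * δ ^ 1 + ((6 : ℕ) : F) * b4 * δ ^ 2)) * s ^ 2 +
      (b3 + ((4 : ℕ) : F) * b4 * δ ^ 1) * s ^ 3 + b4 * s ^ 4 := by
    rw [hq]; push_cast; ring
  show IsSquare _
  rw [e]
  exact hs

end near

section field

variable {k : Type*} [Field k] [CharZero k] {Ω : Type*} [Field Ω] [Algebra k Ω] [IsAlgClosed Ω]
  [Algebra.IsAlgebraic k Ω]

/-- A finite extension with infinitely many points on `z ^ 2 = B(v)`, `deg B ≤ 4`, `B` with a simple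
root. -/
theorem exists_infinite_field (B : k[X]) (hdeg : B.natDegree ≤ 4) (v0 : Ω)
    (h4 : Polynomial.aeval v0 B = 0) (h4' : Polynomial.aeval v0 (Polynomial.derivative B) ≠ 0)
    (W : Finset Ω) :
    ∃ L : IntermediateField k Ω, FiniteDimensional k L ∧ (W : Set Ω) ⊆ L ∧
      (CPts (B.map (algebraMap k L))).Infinite := by
  classical
  have : CharZero Ω := charZero_of_injective_algebraMap (algebraMap k Ω).injective
  obtain ⟨V, hV⟩ := D9.exists_val_two Ω
  set v := V.valuation with hv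
  set T : Polynomial Ω := Polynomial.taylor v0 (B.map (algebraMap k Ω)) with hT
  have hTdeg : T.natDegree ≤ 4 := by
    rw [hT, Polynomial.natDegree_taylor]
    exact Polynomial.natDegree_map_le.trans hdeg
  have hT0 : T.coeff 0 = 0 := by
    rw [hT, Polynomial.taylor_coeff_zero, Polynomial.eval_map]
    exact h4
  have hT1 : T.coeff 1 ≠ 0 := by
    rw [hT, Polynomial.taylor_coeff_one, Polynomial.derivative_map, Polynomial.eval_map]
    exact h4'
  -- an element of maximal value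
  obtain ⟨c, hc0, hc⟩ : ∃ c : Ω, c ≠ 0 ∧ 1 ≤ v c ∧ v (T.coeff 1) ≤ v c ∧ v (T.coeff 2) ≤ v c ∧
      v (T.coeff 3) ≤ v c ∧ v (T.coeff 4) ≤ v c := by
    let Y : Finset Ω := {1, T.coeff 1, T.coeff 2, T.coeff 3, T.coeff 4}
    obtain ⟨c, hcY, hmax⟩ := Finset.exists_max_image Y (fun x => v x) ⟨1, by simp [Y]⟩
    refine ⟨c, ?_, ?_, hmax _ (by simp [Y]), hmax _ (by simp [Y]), hmax _ (by simp [Y]),
      hmax _ (by simp [Y])⟩
    · rintro rfl
      have := hmax 1 (by simp [Y])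
      simp only [map_one, map_zero] at this
      exact absurd this (not_le.mpr zero_lt_one)
    · have := hmax 1 (by simp [Y])
      simpa using this
  obtain ⟨hc1, hb1, hb2, hb3, hb4⟩ := hc
  set δ : Ω := 2 * T.coeff 1 ^ 2 / c ^ 3 with hδ
  have hδ0 : δ ≠ 0 := div_ne_zero (mul_ne_zero two_ne_zero (pow_ne_zero 2 hT1)) (pow_ne_zero 3 hc0)
  have hsmall : v δ * v c ^ 3 < v (T.coeff 1) ^ 2 := by
    rw [← map_pow, ← map_mul, hδ, div_mul_cancel₀ _ (pow_ne_zero 3 hc0), map_mul, map_pow]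
    have hpos : 0 < v (T.coeff 1) ^ 2 := pow_pos (zero_lt_iff.mpr
      ((Valuation.ne_zero_iff v).mpr hT1)) 2
    calc v 2 * v (T.coeff 1) ^ 2 < 1 * v (T.coeff 1) ^ 2 := mul_lt_mul_of_pos_right hV hpos
      _ = v (T.coeff 1) ^ 2 := one_mul _
  obtain ⟨q, hq⟩ : ∃ q : Ω, q ^ 2 = T.coeff 1 * δ + T.coeff 2 * δ ^ 2 + T.coeff 3 * δ ^ 3 +
      T.coeff 4 * δ ^ 4 := IsAlgClosed.exists_pow_nat_eq _ two_pos
  let W' : Set Ω := (W : Set Ω) ∪ {v0, δ, q}
  have hWfin : W'.Finite := W.finite_toSet.union (by simp)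
  let L : IntermediateField k Ω := IntermediateField.adjoin k W'
  have hWL : W' ⊆ L := IntermediateField.subset_adjoin k W'
  have hfd : FiniteDimensional k L := by
    have : Finite W' := hWfin
    exact IntermediateField.finiteDimensional_adjoin fun x _ => Algebra.IsIntegral.isIntegral x
  refine ⟨L, hfd, Set.subset_union_left.trans hWL, ?_⟩
  let ι : L →+* Ω := algebraMap L Ω
  have hιinj : Function.Injective ι := (algebraMap L Ω).injective
  obtain ⟨v0L, hv0L⟩ : ∃ y : L, ι y = v0 := ⟨⟨v0, hWL (Or.inr (by simp))⟩, rfl⟩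
  obtain ⟨δL, hδL⟩ : ∃ y : L, ι y = δ := ⟨⟨δ, hWL (Or.inr (by simp))⟩, rfl⟩
  obtain ⟨qL, hqL⟩ : ∃ y : L, ι y = q := ⟨⟨q, hWL (Or.inr (by simp))⟩, rfl⟩
  set TL : Polynomial L := Polynomial.taylor v0L (B.map (algebraMap k L)) with hTL
  have hTLT : TL.map ι = T := by
    rw [hTL, hT]
    rw [Polynomial.taylor_apply, Polynomial.taylor_apply, Polynomial.map_comp, Polynomial.map_map]
    simp only [Polynomial.map_add, Polynomial.map_X, Polynomial.map_C, hv0L]
    rfl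
  have hcoef : ∀ n, ι (TL.coeff n) = T.coeff n := fun n => by
    rw [← hTLT, Polynomial.coeff_map]
  have hTLdeg : TL.natDegree ≤ 4 := by
    rw [hTL, Polynomial.natDegree_taylor]
    exact Polynomial.natDegree_map_le.trans hdeg
  have hTL0 : TL.coeff 0 = 0 := hιinj (by rw [hcoef, hT0, map_zero])
  have heval : ∀ s : L, (B.map (algebraMap k L)).eval (s + v0L) =
      TL.coeff 1 * s + TL.coeff 2 * s ^ 2 + TL.coeff 3 * s ^ 3 + TL.coeff 4 * s ^ 4 := by
    intro s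
    rw [← Polynomial.taylor_eval, ← hTL, Polynomial.eval_eq_sum_range' (Nat.lt_succ_of_le hTLdeg)]
    simp [Finset.sum_range_succ, hTL0]
  have hinf := near_quartic (v.comap ι) (by show v (ι 2) < 1; rw [map_ofNat]; exact hV)
    (by
      intro h
      have : ι 2 = 0 := by rw [h, map_zero]
      rw [map_ofNat] at this
      exact two_ne_zero this)
    (b1 := TL.coeff 1) (b2 := TL.coeff 2) (b3 := TL.coeff 3) (b4 := TL.coeff 4) (δ := δL)
    (q := qL) (by
      intro h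
      apply hT1
      rw [← hcoef, h, map_zero])
    (by
      intro h
      apply hδ0
      rw [← hδL, h, map_zero])
    (v c) hc1 (by show v (ι _) ≤ _; rw [hcoef]; exact hb1)
    (by show v (ι _) ≤ _; rw [hcoef]; exact hb2) (by show v (ι _) ≤ _; rw [hcoef]; exact hb3)
    (by show v (ι _) ≤ _; rw [hcoef]; exact hb4)
    (by show v (ι _) * _ < v (ι _) ^ 2; rw [hcoef, hδL]; exact hsmall)
    (by
      apply hιinj
      simp only [map_pow, map_add, map_mul, hcoef, hδL, hqL]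
      exact hq)
  -- conclude
  intro hfin
  apply hinf
  have himg : ((fun p : L × L => p.1 - v0L - δL) '' CPts (B.map (algebraMap k L))).Finite :=
    hfin.image _
  refine himg.subset fun s hs => ?_
  obtain ⟨z, hz⟩ := hs
  refine ⟨(δL + s + v0L, z), ?_, by ring⟩
  show z ^ 2 = _
  rw [heval, hz, sq]

end field

end Pool.Agent.Work.D9odd
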