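import Mathlib
import Pool.Agent.Work.MP_b62148_ag.D9odd.AFin

/-!
Odd class: degree of the quartic; potential density of the members vanishing on a plane.
-/

namespace Pool.Agent.Work.D9odd

open Matrix Polynomial

section ring

variable {R : Type*} [CommRing R]

/-- the covector of the hyperplane -/
def hp (v : R) : Fin 5 → R := ![0, 0, 1, v, v ^ 2]

/-- the square matrix `(e_2, hyp)` -/
def hyp5 (v : R) : Matrix (Fin 5) (Fin 5) R :=
  Matrix.of fun l => Fin.cons (if l = 2 then 1 else 0) (fun m => hyp v l m)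

theorem hyp5_eq (v : R) : hyp5 v = !![0, 1, 0, 0, 0; 0, 0, 1, 0, 0; 1, 0, 0, v, 0; 0, 0, 0, -1, v;
    0, 0, 0, 0, -1] := by
  ext i j
  fin_cases i <;> fin_cases j <;> simp [hyp5, hyp, Fin.cons] <;> rfl

theorem det_hyp5 (v : R) : (hyp5 v).det = 1 := by
  rw [hyp5_eq]
  simp [Matrix.det_succ_row_zero, Fin.sum_univ_succ, Fin.succAbove, Matrix.submatrix]

theorem adj_hyp5 (v : R) (l : Fin 5) : (hyp5 v).adjugate 0 l = hp v l := by
  have h2 : hp v ᵥ* hyp5 v = Pi.single 0 1 := by
    rw [hyp5_eq]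
    funext m
    fin_cases m <;> simp [hp, Matrix.vecMul, dotProduct, Fin.sum_univ_succ]
    ring
  have h4 := congrArg (fun y => y ᵥ* (hyp5 v).adjugate) h2
  simp only [Matrix.vecMul_vecMul, Matrix.mul_adjugate, det_hyp5, one_smul,
    Matrix.vecMul_one, Matrix.single_one_vecMul] at h4
  rw [h4]
  rfl

/-- the determinant of the restriction to the hyperplane -/
theorem det_hyp (v : R) (S : Matrix (Fin 5) (Fin 5) R) :
    ((hyp v)ᵀ * S * hyp v).det = hp v ⬝ᵥ S.adjugate *ᵥ hp v := by
  have e1 : ((hyp v)ᵀ * S * hyp v).det = ((hyp5 v)ᵀ * S * hyp5 v).adjugate 0 0 := by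
    rw [Matrix.adjugate_fin_succ_eq_det_submatrix]
    simp only [Fin.val_zero, add_zero, pow_zero, one_mul]
    congr 1
  have e2 : ((hyp5 v)ᵀ * S * hyp5 v).adjugate 0 0 =
      ∑ l, ∑ m, (hyp5 v).adjugate 0 l * S.adjugate l m * (hyp5 v).adjugate 0 m := by
    rw [Matrix.adjugate_mul_distrib, Matrix.adjugate_mul_distrib, ← Matrix.adjugate_transpose,
      Matrix.mul_apply]
    refine Finset.sum_congr rfl fun l _ => ?_
    rw [Matrix.mul_apply, Finset.mul_sum]
    refine Finset.sum_congr rfl fun m _ => ?_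
    rw [Matrix.transpose_apply, mul_assoc]
  rw [e1, e2]
  simp only [adj_hyp5, dotProduct, Matrix.mulVec, Finset.mul_sum, mul_assoc]

variable {k : Type*} [CommRing k]

theorem coeff_zero_eq (S0 S1 S2 : Matrix (Fin 5) (Fin 5) k) :
    (penDet S0 S1 S2).coeff 0 = ∑ l, ∑ m, hp (X : k[X]) l * (C (S0.adjugate l m) *
      hp (X : k[X]) m) := by
  have h1 : (penDet S0 S1 S2).coeff 0 = (pen0 (S0.map C) (X : k[X])).det := by
    rw [penDet, add_comm]
    exact Polynomial.coeff_det_X_add_C_zero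
      (pen1 (S1.map Polynomial.C) (S2.map Polynomial.C) (Polynomial.X : Polynomial k))
      (pen0 (S0.map Polynomial.C) (Polynomial.X : Polynomial k))
  rw [h1, pen0, det_hyp]
  simp only [dotProduct, Matrix.mulVec, Finset.mul_sum]
  refine Finset.sum_congr rfl fun l _ => Finset.sum_congr rfl fun m _ => ?_
  have h2 : (S0.map C).adjugate = S0.adjugate.map (C : k →+* k[X]) :=
    ((C : k →+* k[X]).map_adjugate S0).symm
  rw [h2, Matrix.map_apply]

theorem coeff_zero_natDegree (S0 S1 S2 : Matrix (Fin 5) (Fin 5) k) :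
    ((penDet S0 S1 S2).coeff 0).natDegree ≤ 4 := by
  rw [coeff_zero_eq]
  have h : ∀ l, (hp (X : k[X]) l).natDegree ≤ 2 := by
    intro l
    fin_cases l
    · simp [hp]
    · simp [hp]
    · simp [hp]
    · show (X : k[X]).natDegree ≤ 2
      exact Polynomial.natDegree_X_le.trans (by norm_num)
    · show (X ^ 2 : k[X]).natDegree ≤ 2
      exact Polynomial.natDegree_X_pow_le 2
  refine Polynomial.natDegree_sum_le_of_forall_le _ _ fun l _ => ?_
  refine Polynomial.natDegree_sum_le_of_forall_le _ _ fun m _ => ?_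
  refine Polynomial.natDegree_mul_le.trans ?_
  have h1 : (C (S0.adjugate l m) * hp (X : k[X]) m).natDegree ≤ 2 :=
    (Polynomial.natDegree_C_mul_le _ _).trans (h m)
  have := h l
  omega

theorem penDet_base {K : Type*} [CommRing K] (S0 S1 S2 : Matrix (Fin 5) (Fin 5) k) (f : k →+* K) :
    penDet (S0.map f) (S1.map f) (S2.map f) = (penDet S0 S1 S2).map (Polynomial.mapRingHom f) := by
  rw [← penDet_mapA S0 S1 S2 (Polynomial.mapRingHom f)]
  have h1 : ∀ S : Matrix (Fin 5) (Fin 5) k,
      S.map ((Polynomial.mapRingHom f).comp C) = (S.map f).map (C : K →+* K[X]) := by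
    intro S
    ext i j : 2
    simp
  rw [h1, h1, h1]
  simp only [Polynomial.coe_mapRingHom, Polynomial.map_X]
  rfl

end ring

section field

universe u

variable {k : Type u} [Field k] [CharZero k] {Ω : Type*} [Field Ω] [Algebra k Ω] [IsAlgClosed Ω]
  [Algebra.IsAlgebraic k Ω]

/-- a finite extension over which the hypotheses of `dense_rv` hold -/
theorem exists_field (S0 S1 S2 : Matrix (Fin 5) (Fin 5) k)
    (hiso : IsoPlane (S0.map (algebraMap k Ω))) (v0 : Ω)
    (h4 : Polynomial.aeval v0 ((penDet S0 S1 S2).coeff 0) = 0)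
    (h4' : Polynomial.aeval v0 (Polynomial.derivative ((penDet S0 S1 S2).coeff 0)) ≠ 0)
    (W : Finset Ω) :
    ∃ L : IntermediateField k Ω, FiniteDimensional k L ∧ (W : Set Ω) ⊆ L ∧
      IsoPlane (S0.map (algebraMap k L)) ∧
      (CPts (((penDet S0 S1 S2).coeff 0).map (algebraMap k L))).Infinite := by
  classical
  obtain ⟨x, y, hxy, hxx, hxy', hyy⟩ := hiso
  obtain ⟨L, hL, hW, hinf⟩ := exists_infinite_field ((penDet S0 S1 S2).coeff 0)
    (coeff_zero_natDegree S0 S1 S2) v0 h4 h4' (W ∪ (Finset.univ.image x ∪ Finset.univ.image y))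
  refine ⟨L, hL, fun w hw => hW (by simp only [Finset.coe_union]; exact Or.inl hw), ?_, hinf⟩
  let ι : L →+* Ω := algebraMap L Ω
  have hιinj : Function.Injective ι := (algebraMap L Ω).injective
  choose x' hx' using fun l : Fin 5 => (⟨⟨x l, hW (by simp)⟩, rfl⟩ : ∃ a : L, ι a = x l)
  choose y' hy' using fun l : Fin 5 => (⟨⟨y l, hW (by simp)⟩, rfl⟩ : ∃ a : L, ι a = y l)
  have fx : ι ∘ x' = x := funext hx'
  have fy : ι ∘ y' = y := funext hy'
  have hm : (S0.map (algebraMap k L)).map ι = S0.map (algebraMap k Ω) := by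
    ext i j; rfl
  obtain ⟨i, j, hij⟩ := minor_of_indep x y hxy
  refine ⟨x', y', indep_of_minor _ _ i j ?_, ?_, ?_, ?_⟩
  · intro h0
    apply hij
    have := congrArg ι h0
    rw [map_sub, map_mul, map_mul, map_zero, hx', hx', hy', hy'] at this
    exact this
  · apply hιinj; rw [map_bf, hm, fx, map_zero, hxx]
  · apply hιinj; rw [map_bf, hm, fx, fy, map_zero, hxy']
  · apply hιinj; rw [map_bf, hm, fy, map_zero, hyy]

end field

section dense

universe u

/-- density over every extension over which the quartic has infinitely many points -/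
theorem dense_ext {k : Type*} {L : Type u} {Ω : Type*} [Field k] [Field L] [CharZero L] [Field Ω]
    [Algebra k L] [Algebra k Ω] [Algebra L Ω] [IsScalarTower k L Ω]
    (S0 S1 S2 : Matrix (Fin 5) (Fin 5) k) (h0 : S0ᵀ = S0) (h1 : S1ᵀ = S1) (h2 : S2ᵀ = S2)
    (v0 : Ω) (h4 : Polynomial.aeval v0 ((penDet S0 S1 S2).coeff 0) = 0)
    (h4' : Polynomial.aeval v0 (Polynomial.derivative ((penDet S0 S1 S2).coeff 0)) ≠ 0)
    (h5 : Polynomial.aeval v0 ((penDet S0 S1 S2).coeff 1) ≠ 0)
    (hiso : IsoPlane (S0.map (algebraMap k L)))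
    (hinf : (CPts (((penDet S0 S1 S2).coeff 0).map (algebraMap k L))).Infinite)
    (hD : ∀ (K : Type u) [Field K], (2 : K) ≠ 0 → Double K)
    (G : MvPolynomial (Fin 2) L)
    (hG : ∀ r v : L, IsoPlane (pen0 (S0.map (algebraMap k L)) v +
      r • pen1 (S1.map (algebraMap k L)) (S2.map (algebraMap k L)) v) →
      MvPolynomial.eval ![r, v] G = 0) : G = 0 := by
  have hs : ∀ S : Matrix (Fin 5) (Fin 5) k, Sᵀ = S →
      (S.map (algebraMap k L))ᵀ = S.map (algebraMap k L) := by
    intro S hS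
    rw [← Matrix.transpose_map, hS]
  have hc : ∀ n, (penDet (S0.map (algebraMap k L)) (S1.map (algebraMap k L))
      (S2.map (algebraMap k L))).coeff n = ((penDet S0 S1 S2).coeff n).map (algebraMap k L) := by
    intro n
    rw [penDet_base, Polynomial.coeff_map]
    rfl
  have ha : ∀ p : k[X], Polynomial.aeval v0 (p.map (algebraMap k L)) = Polynomial.aeval v0 p :=
    fun p => Polynomial.aeval_map_algebraMap L v0 p
  refine dense_rv (S0.map (algebraMap k L)) (S1.map (algebraMap k L)) (S2.map (algebraMap k L))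
    (hs S0 h0) (hs S1 h1) (hs S2 h2) hiso v0 ?_ ?_ ?_ ?_ hD G hG
  · rw [hc, ha]; exact h4
  · rw [hc, Polynomial.derivative_map, ha]; exact h4'
  · rw [hc, ha]; exact h5
  · rw [hc]; exact hinf

end dense

end Pool.Agent.Work.D9odd
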