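import Mathlib

/-!
A doubling step of a quartic takes each value finitely often.
-/

namespace Pool.Agent.Work.D9odd

open Polynomial

variable {k : Type*} [Field k]

theorem isSquare_of_mul (f U V : k[X]) (hU : U ≠ 0) (h : f * U ^ 2 = V ^ 2) : IsSquare f := by
  have h1 : U ^ 2 ∣ V ^ 2 := ⟨f, by rw [← h]; ring⟩
  have h2 : U ∣ V := (IsIntegrallyClosed.pow_dvd_pow_iff (n := 2) two_ne_zero).mp h1
  obtain ⟨W, rfl⟩ := h2
  refine ⟨W, ?_⟩
  have h3 : U ^ 2 * f = U ^ 2 * (W * W) := by linear_combination h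
  exact mul_left_cancel₀ (pow_ne_zero 2 hU) h3

theorem finite_rel (f U V : k[X]) (hf : ¬ IsSquare f) (hU : U ≠ 0) :
    {r : k | eval r f * eval r U ^ 2 = eval r V ^ 2}.Finite := by
  have hne : f * U ^ 2 - V ^ 2 ≠ 0 := by
    intro h
    exact hf (isSquare_of_mul f U V hU (sub_eq_zero.mp h))
  refine (finite_setOfPred_isRoot hne).subset ?_
  intro r hr
  simp only [Set.mem_ofPred_eq, IsRoot.def, eval_sub, eval_mul, eval_pow] at hr ⊢
  rw [hr, sub_self]

theorem finite_sq (c : k) : {x : k | x ^ 2 = c}.Finite := by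
  have hne : (X ^ 2 - C c : k[X]) ≠ 0 := X_pow_sub_C_ne_zero (by norm_num) c
  refine (finite_setOfPred_isRoot hne).subset ?_
  intro x hx
  simp only [Set.mem_ofPred_eq, IsRoot.def, eval_sub, eval_pow, eval_X, eval_C] at hx ⊢
  rw [hx, sub_self]

theorem finite_of_step (h2 : (2 : k) ≠ 0) (f : k[X]) (hf : ¬ IsSquare f) (hf0 : eval 0 f ≠ 0)
    (T : Set k) (hT : T.Finite) (R : Set k)
    (hR : ∀ r ∈ R, ∃ p0 p1 p2 l0 l1 : k, (l0 ≠ 0 ∨ l1 ≠ 0) ∧
      f = (C p0 + C p1 * X + C p2 * X ^ 2) ^ 2 - (X - C r) ^ 2 * X * (C l0 + C l1 * X) ∧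
      ∀ s : k, l0 + l1 * s = 0 → s ∈ T) : R.Finite := by
  -- the three kinds of exceptional sets
  set A : k → k → Set k := fun p0 p2 =>
    {r | eval r f * eval r (2 * (C p2 * X ^ 2 - C p0)) ^ 2 =
      eval r (X * derivative f - 2 * f) ^ 2} with hA
  set B : k → k → Set k := fun p0 p1 =>
    {r | eval r f * eval r (2 * (C p1 * X + 2 * C p0)) ^ 2 =
      eval r (4 * f - X * derivative f) ^ 2} with hB
  set D : k → k → k → Set k := fun s p0 q =>
    {r | eval r f * eval r (2 * (C q * X ^ 2 - C p0 * (X - C s) ^ 2)) ^ 2 =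
      eval r (C s * X * (4 * f - X * derivative f) + C s ^ 2 * (X * derivative f - 2 * f)) ^ 2}
    with hD
  set S0 : Set k := {x | x ^ 2 = eval 0 f} with hS0
  set S4 : Set k := {x | x ^ 2 = f.coeff 4} with hS4
  have hS0f : S0.Finite := finite_sq _
  have hS4f : S4.Finite := finite_sq _
  have hS00 : ∀ x ∈ S0, x ≠ 0 := by
    rintro x hx rfl
    apply hf0
    rw [← (hx : (0 : k) ^ 2 = eval 0 f)]
    simp
  have h2' : (2 : k[X]) ≠ 0 := by
    intro h
    apply h2
    have := congrArg (eval 0) h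
    simpa using this
  have fA : ∀ p0 ∈ S0, ∀ p2, (A p0 p2).Finite := by
    intro p0 hp0 p2
    refine finite_rel f _ _ hf (mul_ne_zero h2' ?_)
    intro h
    have := congrArg (eval 0) h
    simp at this
    exact hS00 p0 hp0 this
  have fB : ∀ p0 ∈ S0, ∀ p1, (B p0 p1).Finite := by
    intro p0 hp0 p1
    refine finite_rel f _ _ hf (mul_ne_zero h2' ?_)
    intro h
    have := congrArg (eval 0) h
    simp [h2] at this
    exact hS00 p0 hp0 this
  have fD : ∀ s, s ≠ 0 → ∀ p0 ∈ S0, ∀ q, (D s p0 q).Finite := by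
    intro s hs p0 hp0 q
    refine finite_rel f _ _ hf (mul_ne_zero h2' ?_)
    intro h
    have := congrArg (eval 0) h
    simp [hs] at this
    exact hS00 p0 hp0 this
  have hcover : R ⊆ (⋃ p0 ∈ S0, ⋃ p2 ∈ S4, A p0 p2) ∪
      (⋃ p0 ∈ S0, B p0 (f.coeff 1 / (2 * p0))) ∪
      (⋃ s ∈ T \ {0}, ⋃ p0 ∈ S0, ⋃ q ∈ {x : k | x ^ 2 = eval s f}, D s p0 q) := by
    intro r hr
    obtain ⟨p0, p1, p2, l0, l1, hl, hid, hs⟩ := hR r hr
    have hp0 : p0 ∈ S0 := by
      show p0 ^ 2 = eval 0 f
      rw [hid]; simp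
    have hp00 := hS00 p0 hp0
    set z : k := p0 + p1 * r + p2 * r ^ 2 with hz
    set w : k := p1 + 2 * p2 * r with hw
    have e1 : eval r f = z ^ 2 := by
      rw [hid]; simp [hz]
    have e2 : eval r (derivative f) = 2 * z * w := by
      rw [hid, hz, hw]
      simp only [derivative_sub, derivative_mul, derivative_pow, derivative_add, derivative_C,
        derivative_X, eval_sub, eval_mul, eval_pow, eval_add, eval_C, eval_X, eval_one,
        eval_zero, eval_natCast, map_natCast]
      push_cast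
      ring
    by_cases hl1 : l1 = 0
    · -- the new point is at infinity
      left; left
      have hl0 : l0 ≠ 0 := by
        rcases hl with h | h
        · exact h
        · exact absurd hl1 h
      have hp2 : p2 ∈ S4 := by
        show p2 ^ 2 = f.coeff 4
        have : f = C (p2 ^ 2) * X ^ 4 + C (2 * p1 * p2 - l0) * X ^ 3 +
            C (p1 ^ 2 + 2 * p0 * p2 + 2 * r * l0) * X ^ 2 + C (2 * p0 * p1 - r ^ 2 * l0) * X +
            C (p0 ^ 2) := by
          rw [hid, hl1]
          simp only [map_add, map_sub, map_mul, map_pow, map_ofNat, map_zero]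
          ring
        rw [this]
        simp only [coeff_add, coeff_C_mul, coeff_X_pow, coeff_X, coeff_C]
        norm_num
      refine Set.mem_biUnion hp0 (Set.mem_biUnion hp2 ?_)
      show eval r f * eval r (2 * (C p2 * X ^ 2 - C p0)) ^ 2 =
        eval r (X * derivative f - 2 * f) ^ 2
      simp only [eval_mul, eval_sub, eval_pow, eval_C, eval_X, eval_ofNat, e1, e2]
      rw [hz, hw]; ring
    · by_cases hl0 : l0 = 0
      · left; right
        refine Set.mem_biUnion hp0 ?_
        have hc1 : f.coeff 1 = 2 * p0 * p1 := by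
          have : f = C (p2 ^ 2 - l1) * X ^ 4 + C (2 * p1 * p2 + 2 * r * l1) * X ^ 3 +
              C (p1 ^ 2 + 2 * p0 * p2 - r ^ 2 * l1) * X ^ 2 + C (2 * p0 * p1) * X +
              C (p0 ^ 2) := by
            rw [hid, hl0]
            simp only [map_add, map_sub, map_mul, map_pow, map_ofNat, map_zero]
            ring
          rw [this]
          simp only [coeff_add, coeff_C_mul, coeff_X_pow, coeff_X, coeff_C]
          norm_num
        have hp1 : f.coeff 1 / (2 * p0) = p1 := by
          rw [hc1]; field_simp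
        rw [hp1]
        show eval r f * eval r (2 * (C p1 * X + 2 * C p0)) ^ 2 =
          eval r (4 * f - X * derivative f) ^ 2
        simp only [eval_mul, eval_sub, eval_add, eval_C, eval_X, eval_ofNat, e1, e2]
        rw [hz, hw]; ring
      · right
        set s : k := -l0 / l1 with hsdef
        have hs0 : s ≠ 0 := div_ne_zero (neg_ne_zero.mpr hl0) hl1
        have hls : l0 + l1 * s = 0 := by rw [hsdef]; field_simp; ring
        set q : k := p0 + p1 * s + p2 * s ^ 2 with hq
        have hqf : q ^ 2 = eval s f := by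
          rw [hid]
          simp only [eval_sub, eval_pow, eval_add, eval_mul, eval_C, eval_X, hls, mul_zero,
            sub_zero]
          rw [hq]
        refine Set.mem_biUnion ⟨hs s hls, hs0⟩ (Set.mem_biUnion hp0 (Set.mem_biUnion hqf ?_))
        show eval r f * eval r (2 * (C q * X ^ 2 - C p0 * (X - C s) ^ 2)) ^ 2 =
          eval r (C s * X * (4 * f - X * derivative f) +
            C s ^ 2 * (X * derivative f - 2 * f)) ^ 2
        simp only [eval_mul, eval_sub, eval_add, eval_pow, eval_C, eval_X, eval_ofNat, e1, e2]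
        rw [hz, hw, hq]; ring
  refine Set.Finite.subset ?_ hcover
  refine Set.Finite.union (Set.Finite.union ?_ ?_) ?_
  · exact hS0f.biUnion fun p0 hp0 => hS4f.biUnion fun p2 _ => fA p0 hp0 p2
  · exact hS0f.biUnion fun p0 hp0 => fB p0 hp0 _
  · exact (hT.subset Set.sdiff_subset).biUnion fun s hs => hS0f.biUnion fun p0 hp0 =>
      (finite_sq _).biUnion fun q _ => fD s hs.2 p0 hp0 q

end Pool.Agent.Work.D9odd
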