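import Mathlib
import Pool.Agent.Work.MP_b62148_ag.D9odd.Form

/-!
One doubling step on a pencil of quaternary quadratic forms, in normalised coordinates.
-/

namespace Pool.Agent.Work.D9odd

open Matrix

/-- the determinant identity behind the doubling step -/
theorem star {R : Type*} [CommRing R] (t0 t1 g00 g01 g10 g11 n00 n01 n11 δ μ σ : R) :
    4 * (!![-δ * μ * t1, 0, t0 * g00, t0 * g01;
        0, μ * t1, t0 * g10, t0 * g11;
        t0 * g00, t0 * g10, t0 * n00 - δ * σ * t1, t0 * n01;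
        t0 * g01, t0 * g11, t0 * n01, t0 * n11 + σ * t1] : Matrix (Fin 4) (Fin 4) R).det =
    (2 * (g00 * g11 - g01 * g10) * t0 ^ 2 - μ * (n00 - δ * n11) * (t0 * t1) +
        2 * (δ * μ * σ) * t1 ^ 2) ^ 2 -
      μ * t0 ^ 2 * t1 *
        (t0 * (4 * ((g00 + δ * g11) ^ 2 * n11 + 2 * (g00 + δ * g11) * (g01 + g10) * n01 +
            (g01 + g10) ^ 2 * n00) -
          4 * ((g00 + δ * g11) * (n00 + δ * n11) * g11 + (g00 + δ * g11) * (2 * n01) * g01 +
            (g01 + g10) * (n00 + δ * n11) * g10 + (g01 + g10) * (2 * n01) * g00)) +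
        t1 * (4 * σ * ((g00 + δ * g11) ^ 2 - δ * (g01 + g10) ^ 2) +
          μ * ((n00 + δ * n11) ^ 2 - δ * (2 * n01) ^ 2))) := by
  rw [Matrix.det_succ_row_zero]
  simp [Fin.sum_univ_four, Matrix.det_fin_three, Fin.succAbove, Matrix.submatrix]
  ring

end Pool.Agent.Work.D9odd
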