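import Mathlib
import Pool.Agent.Work.MP_b62148_ag.D9odd.Star

/-!
One doubling step on a pencil of quaternary quadratic forms.
-/

namespace Pool.Agent.Work.D9odd

open Matrix

section field

variable {k : Type*} [Field k]

/-- a vector orthogonal to `e_0`, `e_1` with given last coordinates -/
def lift2 (M : Matrix (Fin 4) (Fin 4) k) (b0 b1 : k) : Fin 4 → k :=
  ![-(M 0 2 * b0 + M 0 3 * b1) / M 0 0, -(M 1 2 * b0 + M 1 3 * b1) / M 1 1, b0, b1]

theorem bf_e0_lift2 (M : Matrix (Fin 4) (Fin 4) k) (h00 : M 0 0 ≠ 0) (h01 : M 0 1 = 0)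
    (b0 b1 : k) : bf M (Pi.single 0 1) (lift2 M b0 b1) = 0 := by
  rw [bf_four]
  simp [lift2, h01]
  field_simp
  ring

theorem bf_e1_lift2 (M : Matrix (Fin 4) (Fin 4) k) (hs : Mᵀ = M) (h11 : M 1 1 ≠ 0)
    (h01 : M 0 1 = 0) (b0 b1 : k) : bf M (Pi.single 1 1) (lift2 M b0 b1) = 0 := by
  have h10 : M 1 0 = 0 := by rw [← hs]; exact h01
  rw [bf_four]
  simp [lift2, h10]
  field_simp
  ring

theorem bf_lift2_lift2 (M : Matrix (Fin 4) (Fin 4) k) (hs : Mᵀ = M) (h00 : M 0 0 ≠ 0)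
    (h11 : M 1 1 ≠ 0) (h01 : M 0 1 = 0) (b0 b1 c0 c1 : k) :
    bf M (lift2 M b0 b1) (lift2 M c0 c1) =
      (M 2 2 - M 0 2 ^ 2 / M 0 0 - M 1 2 ^ 2 / M 1 1) * (b0 * c0) +
      (M 2 3 - M 0 2 * M 0 3 / M 0 0 - M 1 2 * M 1 3 / M 1 1) * (b0 * c1 + b1 * c0) +
      (M 3 3 - M 0 3 ^ 2 / M 0 0 - M 1 3 ^ 2 / M 1 1) * (b1 * c1) := by
  have h' : ∀ i j, M i j = M j i := fun i j => by
    conv_lhs => rw [← hs]
    rfl
  rw [bf_four]
  simp [lift2, h01, h' 1 0, h' 2 0, h' 3 0, h' 2 1, h' 3 1, h' 3 2]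
  field_simp
  ring

/-- a basis adapted to `M` -/
theorem exists_adapted (M : Matrix (Fin 4) (Fin 4) k) (hs : Mᵀ = M) (δ μ z : k) (hμ : μ ≠ 0)
    (hδ : ¬ IsSquare δ) (hz : z ≠ 0) (hdet : M.det = z ^ 2) (h00 : M 0 0 = -δ * μ)
    (h11 : M 1 1 = μ) (h01 : M 0 1 = 0) :
    ∃ (v0 v1 : Fin 4 → k) (σ : k) (V : Matrix (Fin 4) (Fin 4) k), V.det ≠ 0 ∧
      V *ᵥ Pi.single 0 1 = Pi.single 0 1 ∧ V *ᵥ Pi.single 1 1 = Pi.single 1 1 ∧
      V *ᵥ Pi.single 2 1 = v0 ∧ V *ᵥ Pi.single 3 1 = v1 ∧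
      bf M (Pi.single 0 1) v0 = 0 ∧ bf M (Pi.single 0 1) v1 = 0 ∧
      bf M (Pi.single 1 1) v0 = 0 ∧ bf M (Pi.single 1 1) v1 = 0 ∧
      bf M v0 v0 = -δ * σ ∧ bf M v0 v1 = 0 ∧ bf M v1 v1 = σ := by
  have hδ0 : δ ≠ 0 := by
    rintro rfl
    exact hδ ⟨0, by simp⟩
  have hM00 : M 0 0 ≠ 0 := by rw [h00]; exact mul_ne_zero (neg_ne_zero.mpr hδ0) hμ
  have hM11 : M 1 1 ≠ 0 := by rw [h11]; exact hμ
  have h' : ∀ i j, M i j = M j i := fun i j => by
    conv_lhs => rw [← hs]
    rfl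
  set s0 := M 2 2 - M 0 2 ^ 2 / M 0 0 - M 1 2 ^ 2 / M 1 1 with hs0
  set s1 := M 2 3 - M 0 2 * M 0 3 / M 0 0 - M 1 2 * M 1 3 / M 1 1 with hs1
  set s2 := M 3 3 - M 0 3 ^ 2 / M 0 0 - M 1 3 ^ 2 / M 1 1 with hs2
  have hS : M 0 0 * M 1 1 * (s0 * s2 - s1 ^ 2) = z ^ 2 := by
    rw [← hdet, det_four, h' 1 0, h' 2 0, h' 3 0, h' 2 1, h' 3 1, h' 3 2, h01, hs0, hs1, hs2]
    field_simp
    ring
  set ω := z / (δ * μ) with hω
  have hω0 : ω ≠ 0 := div_ne_zero hz (mul_ne_zero hδ0 hμ)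
  have hS' : s1 ^ 2 - s0 * s2 = δ * ω ^ 2 := by
    rw [h00, h11] at hS
    rw [hω]
    field_simp
    linear_combination hS
  have hs00 : s0 ≠ 0 := by
    intro h
    rw [h] at hS'
    apply hδ
    refine ⟨s1 / ω, ?_⟩
    field_simp
    linear_combination -hS'
  set V : Matrix (Fin 4) (Fin 4) k :=
    !![1, 0, lift2 M (-s1) s0 0, lift2 M ω 0 0;
       0, 1, lift2 M (-s1) s0 1, lift2 M ω 0 1;
       0, 0, -s1, ω;
       0, 0, s0, 0] with hV
  refine ⟨lift2 M (-s1) s0, lift2 M ω 0, ω ^ 2 * s0, V, ?_, ?_, ?_, ?_, ?_, ?_, ?_, ?_, ?_, ?_,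
    ?_, ?_⟩
  · rw [det_four, hV]
    simp [hω0, hs00]
  · ext i
    fin_cases i <;> simp [hV]
  · ext i
    fin_cases i <;> simp [hV]
  · ext i
    fin_cases i <;> simp [hV, lift2]
  · ext i
    fin_cases i <;> simp [hV, lift2]
  · exact bf_e0_lift2 M hM00 h01 _ _
  · exact bf_e0_lift2 M hM00 h01 _ _
  · exact bf_e1_lift2 M hs hM11 h01 _ _
  · exact bf_e1_lift2 M hs hM11 h01 _ _
  · rw [bf_lift2_lift2 M hs hM00 hM11 h01, ← hs0, ← hs1, ← hs2]
    linear_combination (-s0) * hS'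
  · rw [bf_lift2_lift2 M hs hM00 hM11 h01, ← hs0, ← hs1, ← hs2]
    ring
  · rw [bf_lift2_lift2 M hs hM00 hM11 h01, ← hs0, ← hs1, ← hs2]
    ring

/-- the determinant of a pencil -/
noncomputable def pdet (N0 N1 : Matrix (Fin 4) (Fin 4) k) : Polynomial k :=
  (N0.map Polynomial.C + (Polynomial.X : Polynomial k) • N1.map Polynomial.C).det

open Polynomial in
/-- one doubling step -/
theorem step (h2 : (2 : k) ≠ 0) (N0 N1 : Matrix (Fin 4) (Fin 4) k) (hs0 : N0ᵀ = N0)
    (hs1 : N1ᵀ = N1) (δ : k) (hδ : ¬ IsSquare δ) (h00 : N0 0 0 = 0) (h01 : N0 0 1 = 0)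
    (h11 : N0 1 1 = 0) (hA : N1 0 1 = 0) (hA1 : N1 1 1 ≠ 0) (hA0 : N1 0 0 = -δ * N1 1 1)
    (hns : ¬ IsSquare (pdet N0 N1)) (r z : k) (hr : r ≠ 0) (hz : z ≠ 0)
    (hdet : (N0 + r • N1).det = z ^ 2) :
    ∃ p0 p1 p2 l0 l1 : k, (l0 ≠ 0 ∨ l1 ≠ 0) ∧
      pdet N0 N1 = (C p0 + C p1 * X + C p2 * X ^ 2) ^ 2 -
        (X - C r) ^ 2 * X * (C l0 + C l1 * X) ∧
      ∀ s : k, l0 + l1 * s = 0 → IsoPlane (N0 + s • N1) := by
  set M := N0 + r • N1 with hM
  have hsM : Mᵀ = M := by
    rw [hM, Matrix.transpose_add, Matrix.transpose_smul, hs0, hs1]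
  set μ := r * N1 1 1 with hμ
  have hμ0 : μ ≠ 0 := mul_ne_zero hr hA1
  obtain ⟨v0, v1, σ, V, hV, e0, e1, e2, e3, a1, a2, a3, a4, a5, a6, a7⟩ :=
    exists_adapted M hsM δ μ z hμ0 hδ hz hdet
      (by rw [hM, Matrix.add_apply, Matrix.smul_apply, h00, hA0, smul_eq_mul, hμ]; ring)
      (by rw [hM, Matrix.add_apply, Matrix.smul_apply, h11, smul_eq_mul, hμ]; ring)
      (by rw [hM, Matrix.add_apply, Matrix.smul_apply, h01, hA, smul_eq_mul]; ring)
  set E0 : Fin 4 → k := Pi.single 0 1 with hE0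
  set E1 : Fin 4 → k := Pi.single 1 1 with hE1
  have c00 : bf N0 E0 E0 = 0 := by rw [hE0, bf_single, h00]
  have c01 : bf N0 E0 E1 = 0 := by rw [hE0, hE1, bf_single, h01]
  have c10 : bf N0 E1 E0 = 0 := by rw [bf_comm hs0]; exact c01
  have c11 : bf N0 E1 E1 = 0 := by rw [hE1, bf_single, h11]
  have m00 : bf M E0 E0 = -δ * μ := by
    rw [hE0, bf_single, hM, Matrix.add_apply, Matrix.smul_apply, h00, hA0, smul_eq_mul, hμ]; ring
  have m01 : bf M E0 E1 = 0 := by
    rw [hE0, hE1, bf_single, hM, Matrix.add_apply, Matrix.smul_apply, h01, hA, smul_eq_mul]; ring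
  have m10 : bf M E1 E0 = 0 := by rw [bf_comm hsM]; exact m01
  have m11 : bf M E1 E1 = μ := by
    rw [hE1, bf_single, hM, Matrix.add_apply, Matrix.smul_apply, h11, smul_eq_mul, hμ]; ring
  have a1' : bf M v0 E0 = 0 := by rw [bf_comm hsM]; exact a1
  have a2' : bf M v1 E0 = 0 := by rw [bf_comm hsM]; exact a2
  have a3' : bf M v0 E1 = 0 := by rw [bf_comm hsM]; exact a3
  have a4' : bf M v1 E1 = 0 := by rw [bf_comm hsM]; exact a4
  have a6' : bf M v1 v0 = 0 := by rw [bf_comm hsM]; exact a6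
  set g00 := bf N0 E0 v0 with hg00
  set g01 := bf N0 E0 v1 with hg01
  set g10 := bf N0 E1 v0 with hg10
  set g11 := bf N0 E1 v1 with hg11
  set n00 := bf N0 v0 v0 with hn00
  set n01 := bf N0 v0 v1 with hn01
  set n11 := bf N0 v1 v1 with hn11
  have g00' : bf N0 v0 E0 = g00 := bf_comm hs0 _ _
  have g01' : bf N0 v1 E0 = g01 := bf_comm hs0 _ _
  have g10' : bf N0 v0 E1 = g10 := bf_comm hs0 _ _
  have g11' : bf N0 v1 E1 = g11 := bf_comm hs0 _ _
  have n01' : bf N0 v1 v0 = n01 := bf_comm hs0 _ _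
  -- the Gram matrices
  have hw : ∀ i, V *ᵥ Pi.single i 1 = (![E0, E1, v0, v1] : Fin 4 → (Fin 4 → k)) i := by
    intro i
    fin_cases i
    · exact e0
    · exact e1
    · exact e2
    · exact e3
  have hG0 : Vᵀ * N0 * V = !![0, 0, g00, g01; 0, 0, g10, g11; g00, g10, n00, n01;
      g01, g11, n01, n11] := by
    ext i j
    rw [← bf_single (Vᵀ * N0 * V) i j, bf_congr, hw, hw]
    fin_cases i <;> fin_cases j
    · exact c00
    · exact c01
    · rfl
    · rfl
    · exact c10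
    · exact c11
    · rfl
    · rfl
    · exact g00'
    · exact g10'
    · rfl
    · rfl
    · exact g01'
    · exact g11'
    · exact n01'
    · rfl
  have hGM : Vᵀ * M * V = !![-δ * μ, 0, 0, 0; 0, μ, 0, 0; 0, 0, -δ * σ, 0; 0, 0, 0, σ] := by
    ext i j
    rw [← bf_single (Vᵀ * M * V) i j, bf_congr, hw, hw]
    fin_cases i <;> fin_cases j
    · exact m00
    · exact m01
    · exact a1
    · exact a2
    · exact m10
    · exact m11
    · exact a3
    · exact a4
    · exact a1'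
    · exact a3'
    · exact a5
    · exact a6
    · exact a2'
    · exact a4'
    · exact a6'
    · exact a7
  set N0y : k := 4 * ((g00 + δ * g11) ^ 2 * n11 + 2 * (g00 + δ * g11) * (g01 + g10) * n01 +
            (g01 + g10) ^ 2 * n00) -
          4 * ((g00 + δ * g11) * (n00 + δ * n11) * g11 + (g00 + δ * g11) * (2 * n01) * g01 +
            (g01 + g10) * (n00 + δ * n11) * g10 + (g01 + g10) * (2 * n01) * g00) with hN0y
  set My : k := 4 * σ * ((g00 + δ * g11) ^ 2 - δ * (g01 + g10) ^ 2) +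
          μ * ((n00 + δ * n11) ^ 2 - δ * (2 * n01) ^ 2) with hMy
  -- the polynomial identity
  have hpoly : 4 * (C V.det ^ 2 * (C r ^ 4 * pdet N0 N1)) =
      (2 * (C g00 * C g11 - C g01 * C g10) * (C r - X) ^ 2 -
        C μ * (C n00 - C δ * C n11) * ((C r - X) * X) + 2 * (C δ * C μ * C σ) * X ^ 2) ^ 2 -
      C μ * (C r - X) ^ 2 * X * ((C r - X) * C N0y + X * C My) := by
    have h1 : C r • (N0.map C + (X : k[X]) • N1.map C) =
        (C r - X) • N0.map C + (X : k[X]) • M.map C := by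
      rw [hM]
      ext i j : 2
      simp only [Matrix.smul_apply, Matrix.add_apply, Matrix.map_apply, smul_eq_mul, map_add,
        map_mul]
      ring_nf
    have h2' : C r ^ 4 * pdet N0 N1 = ((C r - X) • N0.map C + (X : k[X]) • M.map C).det := by
      rw [← h1, Matrix.det_smul, Fintype.card_fin, pdet]
    have h3 : C V.det ^ 2 * ((C r - X) • N0.map C + (X : k[X]) • M.map C).det =
        ((C r - X) • (Vᵀ * N0 * V).map C + (X : k[X]) • (Vᵀ * M * V).map C).det := by
      have h4 : (C r - X) • (Vᵀ * N0 * V).map C + (X : k[X]) • (Vᵀ * M * V).map C =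
          (V.map C)ᵀ * ((C r - X) • N0.map C + (X : k[X]) • M.map C) * (V.map C) := by
        rw [Matrix.map_mul, Matrix.map_mul, Matrix.map_mul, Matrix.map_mul, Matrix.mul_add,
          Matrix.add_mul, Matrix.mul_smul, Matrix.mul_smul, Matrix.smul_mul, Matrix.smul_mul,
          Matrix.transpose_map]
      rw [h4, Matrix.det_mul, Matrix.det_mul, Matrix.det_transpose]
      have h5 : (V.map C).det = C V.det := (RingHom.map_det C V).symm
      rw [h5]
      ring
    rw [h2', h3, hG0, hGM]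
    have h6 : (C r - X) • (!![0, 0, g00, g01; 0, 0, g10, g11; g00, g10, n00, n01;
        g01, g11, n01, n11] : Matrix (Fin 4) (Fin 4) k).map C +
        (X : k[X]) • (!![-δ * μ, 0, 0, 0; 0, μ, 0, 0; 0, 0, -δ * σ, 0; 0, 0, 0, σ] :
          Matrix (Fin 4) (Fin 4) k).map C =
        !![-C δ * C μ * X, 0, (C r - X) * C g00, (C r - X) * C g01;
        0, C μ * X, (C r - X) * C g10, (C r - X) * C g11;
        (C r - X) * C g00, (C r - X) * C g10, (C r - X) * C n00 - C δ * C σ * X,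
          (C r - X) * C n01;
        (C r - X) * C g01, (C r - X) * C g11, (C r - X) * C n01, (C r - X) * C n11 + C σ * X] := by
      ext i j : 2
      fin_cases i <;> fin_cases j <;> simp <;> ring_nf
    rw [h6, star]
    simp only [hN0y, hMy, map_add, map_sub, map_mul, map_pow, map_ofNat]
  have hD : V.det ≠ 0 := hV
  have h4 : (4 : k) ≠ 0 := by
    have : (4 : k) = 2 * 2 := by norm_num
    rw [this]; exact mul_ne_zero h2 h2
  set D := V.det with hDdef
  set dg := g00 * g11 - g01 * g10 with hdg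
  set m := μ * (n00 - δ * n11) with hm
  set c0 : k := dg / D with hc0
  set c1 : k := -(4 * dg * r + m * r) / (2 * D * r ^ 2) with hc1
  set c2 : k := (2 * dg + m + 2 * (δ * μ * σ)) / (2 * D * r ^ 2) with hc2
  set l0 : k := μ * (r * N0y) / (4 * D ^ 2 * r ^ 4) with hl0
  set l1 : k := μ * (My - N0y) / (4 * D ^ 2 * r ^ 4) with hl1
  have k0 : 2 * D * r ^ 2 * c0 = 2 * dg * r ^ 2 := by rw [hc0]; field_simp
  have k1 : 2 * D * r ^ 2 * c1 = -(4 * dg * r + m * r) := by rw [hc1]; field_simp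
  have k2 : 2 * D * r ^ 2 * c2 = 2 * dg + m + 2 * (δ * μ * σ) := by rw [hc2]; field_simp
  have k3 : 4 * D ^ 2 * r ^ 4 * l0 = μ * (r * N0y) := by rw [hl0]; field_simp
  have k4 : 4 * D ^ 2 * r ^ 4 * l1 = μ * (My - N0y) := by rw [hl1]; field_simp
  have hc4 : 4 * D ^ 2 * r ^ 4 ≠ 0 :=
    mul_ne_zero (mul_ne_zero h4 (pow_ne_zero 2 hD)) (pow_ne_zero 4 hr)
  have hid : pdet N0 N1 = (C c0 + C c1 * X + C c2 * X ^ 2) ^ 2 -
      (X - C r) ^ 2 * X * (C l0 + C l1 * X) := by
    have e0 : C (2 * D * r ^ 2) * (C c0 + C c1 * X + C c2 * X ^ 2) =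
        C (2 * dg * r ^ 2) + C (-(4 * dg * r + m * r)) * X +
          C (2 * dg + m + 2 * (δ * μ * σ)) * X ^ 2 := by
      rw [← k0, ← k1, ← k2]
      simp only [map_mul, map_pow, map_ofNat]
      ring
    have e1 : C (4 * D ^ 2 * r ^ 4) * (C l0 + C l1 * X) =
        C (μ * (r * N0y)) + C (μ * (My - N0y)) * X := by
      rw [← k3, ← k4]
      simp only [map_mul, map_pow, map_ofNat]
      ring
    have hne : (C (4 * D ^ 2 * r ^ 4) : k[X]) ≠ 0 := by
      rw [Ne, C_eq_zero]; exact hc4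
    apply mul_left_cancel₀ hne
    have e2 : C (4 * D ^ 2 * r ^ 4) * ((C c0 + C c1 * X + C c2 * X ^ 2) ^ 2 -
        (X - C r) ^ 2 * X * (C l0 + C l1 * X)) =
        (C (2 * D * r ^ 2) * (C c0 + C c1 * X + C c2 * X ^ 2)) ^ 2 -
        (X - C r) ^ 2 * X * (C (4 * D ^ 2 * r ^ 4) * (C l0 + C l1 * X)) := by
      have : (C (4 * D ^ 2 * r ^ 4) : k[X]) = C (2 * D * r ^ 2) ^ 2 := by
        rw [← map_pow]; congr 1; ring
      rw [this]; ring
    rw [e2, e0, e1]
    have e3 : C (4 * D ^ 2 * r ^ 4) * pdet N0 N1 = 4 * (C D ^ 2 * (C r ^ 4 * pdet N0 N1)) := by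
      simp only [map_mul, map_pow, map_ofNat]; ring
    rw [e3, hpoly]
    simp only [hdg, hm, map_add, map_sub, map_mul, map_neg, map_pow, map_ofNat]
    ring
  refine ⟨c0, c1, c2, l0, l1, ?_, hid, ?_⟩
  · by_contra hcon
    push Not at hcon
    apply hns
    rw [hid, hcon.1, hcon.2]
    refine ⟨C c0 + C c1 * X + C c2 * X ^ 2, ?_⟩
    simp only [map_zero]
    ring
  · intro s hs'
    -- the new plane
    set y : Fin 4 → k := (2 * (g00 + δ * g11)) • v1 + (2 * (g01 + g10)) • v0 -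
      ((n00 + δ * n11) • E1 + (2 * n01) • E0) with hy
    set x : Fin 4 → k := (2 * (g00 + δ * g11)) • v0 + (2 * (δ * (g01 + g10))) • v1 -
      ((n00 + δ * n11) • E0 + (δ * (2 * n01)) • E1) with hx
    have q1 : bf N0 y y = N0y := by
      simp only [hy, bf_sub_left, bf_sub_right, bf_add_left, bf_add_right, bf_smul_left,
        bf_smul_right, c00, c01, c10, c11, g00', g01', g10', g11', n01', ← hg00, ← hg01, ← hg10,
        ← hg11, ← hn00, ← hn01, ← hn11]
      rw [hN0y]; ring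
    have q2 : bf M y y = My := by
      simp only [hy, bf_sub_left, bf_sub_right, bf_add_left, bf_add_right, bf_smul_left,
        bf_smul_right, m00, m01, m10, m11, a1, a2, a3, a4, a5, a6, a7, a1', a2', a3', a4', a6']
      rw [hMy]; ring
    have q3 : bf N0 x x = -δ * N0y := by
      simp only [hx, bf_sub_left, bf_sub_right, bf_add_left, bf_add_right, bf_smul_left,
        bf_smul_right, c00, c01, c10, c11, g00', g01', g10', g11', n01', ← hg00, ← hg01, ← hg10,
        ← hg11, ← hn00, ← hn01, ← hn11]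
      rw [hN0y]; ring
    have q4 : bf M x x = -δ * My := by
      simp only [hx, bf_sub_left, bf_sub_right, bf_add_left, bf_add_right, bf_smul_left,
        bf_smul_right, m00, m01, m10, m11, a1, a2, a3, a4, a5, a6, a7, a1', a2', a3', a4', a6']
      rw [hMy]; ring
    have q5 : bf N0 x y = 0 := by
      simp only [hx, hy, bf_sub_left, bf_sub_right, bf_add_left, bf_add_right, bf_smul_left,
        bf_smul_right, c00, c01, c10, c11, g00', g01', g10', g11', n01', ← hg00, ← hg01, ← hg10,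
        ← hg11, ← hn00, ← hn01, ← hn11]
      ring
    have q6 : bf M x y = 0 := by
      simp only [hx, hy, bf_sub_left, bf_sub_right, bf_add_left, bf_add_right, bf_smul_left,
        bf_smul_right, m00, m01, m10, m11, a1, a2, a3, a4, a5, a6, a7, a1', a2', a3', a4', a6']
      ring
    have hls : (r - s) * N0y + s * My = 0 := by
      have : μ * ((r - s) * N0y + s * My) = 0 := by
        linear_combination (4 * D ^ 2 * r ^ 4) * hs' - k3 - s * k4
      rcases mul_eq_zero.mp this with h | h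
      · exact absurd h hμ0
      · exact h
    -- forms
    have hNs : ∀ u v, r * bf (N0 + s • N1) u v = (r - s) * bf N0 u v + s * bf M u v := by
      intro u v
      rw [hM, bf_add_mat, bf_add_mat, bf_smul_mat, bf_smul_mat]
      ring
    -- independence
    have hor : N0y ≠ 0 ∨ My ≠ 0 := by
      by_contra hcon
      push Not at hcon
      apply hns
      rw [hid]
      refine ⟨C c0 + C c1 * X + C c2 * X ^ 2, ?_⟩
      have z0 : l0 = 0 := by rw [hl0, hcon.1]; simp
      have z1 : l1 = 0 := by rw [hl1, hcon.1, hcon.2]; simp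
      rw [z0, z1]
      simp only [map_zero]
      ring
    have key : ∀ (B : Matrix (Fin 4) (Fin 4) k) (β : k), Bᵀ = B → β ≠ 0 → bf B y y = β →
        bf B x x = -δ * β → bf B x y = 0 → LinearIndependent k ![x, y] := by
      intro B β hB hβ h1 h3 h5
      have h5' : bf B y x = 0 := by rw [bf_comm hB]; exact h5
      rw [LinearIndependent.pair_iff]
      intro a b hab
      have h6 : bf B (a • x + b • y) (a • x + b • y) = 0 := by rw [hab]; simp [bf]
      rw [bf_add_left, bf_add_right, bf_add_right, bf_smul_left, bf_smul_left, bf_smul_left,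
        bf_smul_left, bf_smul_right, bf_smul_right, bf_smul_right, bf_smul_right, h1, h3, h5,
        h5'] at h6
      have h7 : b ^ 2 = δ * a ^ 2 := by
        have : β * (b ^ 2 - δ * a ^ 2) = 0 := by linear_combination h6
        rcases mul_eq_zero.mp this with h | h
        · exact absurd h hβ
        · exact sub_eq_zero.mp h
      have ha : a = 0 := by
        by_contra ha
        apply hδ
        refine ⟨b / a, ?_⟩
        field_simp
        linear_combination -h7
      subst ha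
      refine ⟨rfl, ?_⟩
      simpa using h7
    have hind : LinearIndependent k ![x, y] := by
      rcases hor with h | h
      · exact key N0 N0y hs0 h q1 q3 q5
      · exact key M My hsM h q2 q4 q6
    refine ⟨x, y, hind, ?_, ?_, ?_⟩
    · have := hNs x x
      rw [q3, q4] at this
      have h5 : r * bf (N0 + s • N1) x x = 0 := by rw [this]; linear_combination (-δ) * hls
      rcases mul_eq_zero.mp h5 with h | h
      · exact absurd h hr
      · exact h
    · have := hNs x y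
      rw [q5, q6] at this
      have h5 : r * bf (N0 + s • N1) x y = 0 := by rw [this]; ring
      rcases mul_eq_zero.mp h5 with h | h
      · exact absurd h hr
      · exact h
    · have := hNs y y
      rw [q1, q2] at this
      have h5 : r * bf (N0 + s • N1) y y = 0 := by rw [this]; exact hls
      rcases mul_eq_zero.mp h5 with h | h
      · exact absurd h hr
      · exact h

end field

end Pool.Agent.Work.D9odd
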