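import Mathlib
import Pool.Agent.Work.MP_b62148_ag.D9odd.Form
import Pool.Agent.Work.MP_b62148_ag.D9odd.Step
import Pool.Agent.Work.MP_b62148_ag.D9odd.Fin

/-!
A pencil of quaternary quadratic forms with one member vanishing on a plane and infinitely many
members of square discriminant has infinitely many members vanishing on a plane.
-/

namespace Pool.Agent.Work.D9odd

open Matrix

variable {k : Type*} [Field k]

theorem eval_pdet (N0 N1 : Matrix (Fin 4) (Fin 4) k) (r : k) :
    (pdet N0 N1).eval r = (N0 + r • N1).det := by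
  rw [pdet, ← Polynomial.coe_evalRingHom, RingHom.map_det]
  congr 1
  ext i j
  simp
  ring

theorem pdet_congr (N0 N1 P : Matrix (Fin 4) (Fin 4) k) :
    pdet (Pᵀ * N0 * P) (Pᵀ * N1 * P) = Polynomial.C (P.det) ^ 2 * pdet N0 N1 := by
  have h1 : (Pᵀ * N0 * P).map Polynomial.C + (Polynomial.X : Polynomial k) •
      (Pᵀ * N1 * P).map Polynomial.C =
      (P.map Polynomial.C)ᵀ * (N0.map Polynomial.C + (Polynomial.X : Polynomial k) •
        N1.map Polynomial.C) * P.map Polynomial.C := by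
    rw [Matrix.map_mul, Matrix.map_mul, Matrix.map_mul, Matrix.map_mul, Matrix.mul_add,
      Matrix.add_mul, Matrix.mul_smul, Matrix.smul_mul, Matrix.transpose_map]
  have h2 : (P.map Polynomial.C).det = Polynomial.C P.det := by
    rw [← RingHom.mapMatrix_apply, ← RingHom.map_det]
  rw [pdet, h1, Matrix.det_mul, Matrix.det_mul, Matrix.det_transpose, h2, pdet]
  ring

theorem isSquare_pdet_congr (N0 N1 P : Matrix (Fin 4) (Fin 4) k) (hP : P.det ≠ 0)
    (h : IsSquare (pdet (Pᵀ * N0 * P) (Pᵀ * N1 * P))) : IsSquare (pdet N0 N1) := by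
  obtain ⟨g, hg⟩ := h
  rw [pdet_congr] at hg
  refine ⟨Polynomial.C (P.det)⁻¹ * g, ?_⟩
  have h1 : Polynomial.C (P.det)⁻¹ * Polynomial.C (P.det) = 1 := by
    rw [← Polynomial.C_mul, inv_mul_cancel₀ hP, Polynomial.C_1]
  calc pdet N0 N1 = (Polynomial.C (P.det)⁻¹ * Polynomial.C (P.det)) ^ 2 * pdet N0 N1 := by
        rw [h1]; ring
    _ = Polynomial.C (P.det)⁻¹ ^ 2 * (Polynomial.C (P.det) ^ 2 * pdet N0 N1) := by ring
    _ = Polynomial.C (P.det)⁻¹ ^ 2 * (g * g) := by rw [hg]
    _ = _ := by ring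

/-- the members of the pencil with zero determinant -/
theorem finite_det_zero (N0 N1 : Matrix (Fin 4) (Fin 4) k) (hd : pdet N0 N1 ≠ 0) :
    {r : k | (N0 + r • N1).det = 0}.Finite := by
  refine (Polynomial.finite_setOfPred_isRoot hd).subset ?_
  intro r hr
  show (pdet N0 N1).eval r = 0
  rw [eval_pdet]; exact hr

theorem transpose_pencil (N0 N1 : Matrix (Fin 4) (Fin 4) k) (hs0 : N0ᵀ = N0) (hs1 : N1ᵀ = N1)
    (r : k) : (N0 + r • N1)ᵀ = N0 + r • N1 := by
  rw [Matrix.transpose_add, Matrix.transpose_smul, hs0, hs1]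

theorem double_of_common (N0 N1 : Matrix (Fin 4) (Fin 4) k) (hs0 : N0ᵀ = N0) (hs1 : N1ᵀ = N1)
    (hd : pdet N0 N1 ≠ 0) (hinf : {r : k | IsSquare (N0 + r • N1).det}.Infinite)
    (c : Fin 4 → k) (hc : c ≠ 0) (h0 : bf N0 c c = 0) (h1 : bf N1 c c = 0) :
    {r : k | IsoPlane (N0 + r • N1)}.Infinite := by
  refine (hinf.sdiff (finite_det_zero N0 N1 hd)).mono ?_
  rintro r ⟨⟨z, hz⟩, hr⟩
  refine isoPlane_of_isotropic (N0 + r • N1) (transpose_pencil N0 N1 hs0 hs1 r) z ?_ ?_ c hc ?_
  · rintro rfl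
    apply hr
    show (N0 + r • N1).det = 0
    rw [hz]; ring
  · rw [hz]; ring
  · rw [bf_add_mat, bf_smul_mat, h0, h1]; ring

/-- **Doubling.** -/
theorem double (h2 : (2 : k) ≠ 0) (N0 N1 : Matrix (Fin 4) (Fin 4) k)
    (hs0 : N0ᵀ = N0) (hs1 : N1ᵀ = N1) (hp : IsoPlane N0) (hd : N0.det ≠ 0)
    (hf : ¬ IsSquare (pdet N0 N1))
    (hinf : {r : k | IsSquare (N0 + r • N1).det}.Infinite) :
    {r : k | IsoPlane (N0 + r • N1)}.Infinite := by
  have hpd : pdet N0 N1 ≠ 0 := by
    intro h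
    apply hf
    rw [h]
    exact ⟨0, by ring⟩
  obtain ⟨x, y, hxy, hxx, hxy0, hyy⟩ := hp
  have hx0 : x ≠ 0 := hxy.ne_zero 0
  by_cases hA : bf N1 x x = 0
  · exact double_of_common N0 N1 hs0 hs1 hpd hinf x hx0 hxx hA
  -- orthogonalise
  set t : k := bf N1 x y / bf N1 x x with ht
  set y' : Fin 4 → k := y - t • x with hy'
  have hxy' : LinearIndependent k ![x, y'] := by
    rw [LinearIndependent.pair_iff] at hxy ⊢
    intro a b hab
    have : (a - b * t) • x + b • y = 0 := by
      rw [← hab, hy']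
      module
    obtain ⟨h3, h4⟩ := hxy _ _ this
    subst h4
    simpa using h3
  have hyx0 : bf N0 y x = 0 := by rw [bf_comm hs0]; exact hxy0
  have hx' : bf N0 x y' = 0 := by
    rw [hy', bf_sub_right, bf_smul_right, hxy0, hxx]; ring
  have hyy' : bf N0 y' y' = 0 := by
    rw [hy', bf_sub_right, bf_smul_right, bf_sub_left, bf_sub_left, bf_smul_left, bf_smul_left,
      hyy, hxy0, hyx0, hxx]; ring
  have h1' : bf N1 x y' = 0 := by
    rw [hy', bf_sub_right, bf_smul_right, ht]
    field_simp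
    ring
  have h1'' : bf N1 y' x = 0 := by rw [bf_comm hs1]; exact h1'
  have hyx' : bf N0 y' x = 0 := by rw [bf_comm hs0]; exact hx'
  have hy0 : y' ≠ 0 := hxy'.ne_zero 1
  by_cases hB : bf N1 y' y' = 0
  · exact double_of_common N0 N1 hs0 hs1 hpd hinf y' hy0 hyy' hB
  set δ : k := -(bf N1 x x / bf N1 y' y') with hδ
  by_cases hsq : IsSquare δ
  · obtain ⟨u, hu⟩ := hsq
    refine double_of_common N0 N1 hs0 hs1 hpd hinf (x + u • y') ?_ ?_ ?_
    · intro h
      have := (LinearIndependent.pair_iff.mp hxy') 1 u (by rw [one_smul]; exact h)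
      exact one_ne_zero this.1
    · rw [bf_add_right, bf_smul_right, bf_add_left, bf_add_left, bf_smul_left, bf_smul_left,
        hxx, hyx', hx', hyy']; ring
    · rw [bf_add_right, bf_smul_right, bf_add_left, bf_add_left, bf_smul_left, bf_smul_left,
        h1', h1'']
      have : δ * bf N1 y' y' = - bf N1 x x := by rw [hδ]; field_simp
      linear_combination bf N1 y' y' * (-hu) + this
  -- anisotropic case
  obtain ⟨P, hP, hP0, hP1⟩ := exists_cols x y' hxy'
  have e0 := mulVec_single_zero P x hP0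
  have e1 := mulVec_single_one' P y' hP1
  intro hfin
  have key : {r : k | r ≠ 0 ∧ IsSquare (N0 + r • N1).det ∧ (N0 + r • N1).det ≠ 0}.Finite := by
    refine finite_of_step h2 (pdet (Pᵀ * N0 * P) (Pᵀ * N1 * P))
      (fun h => hf (isSquare_pdet_congr N0 N1 P hP h)) ?_ _ hfin _ ?_
    · rw [pdet_congr, Polynomial.eval_mul, Polynomial.eval_pow, Polynomial.eval_C, eval_pdet,
        zero_smul, add_zero]
      exact mul_ne_zero (pow_ne_zero 2 hP) hd
    · rintro r ⟨hr, ⟨z, hz⟩, hz0⟩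
      have hz' : z ≠ 0 := by
        rintro rfl
        exact hz0 (by rw [hz]; ring)
      have hcomb : ∀ s : k, Pᵀ * N0 * P + s • (Pᵀ * N1 * P) = Pᵀ * (N0 + s • N1) * P := by
        intro s
        rw [Matrix.mul_add, Matrix.add_mul, Matrix.mul_smul, Matrix.smul_mul]
      obtain ⟨p0, p1, p2, l0, l1, hl, hid, hs⟩ := step h2 (Pᵀ * N0 * P) (Pᵀ * N1 * P)
        (by rw [Matrix.transpose_mul, Matrix.transpose_mul, Matrix.transpose_transpose, hs0,
              Matrix.mul_assoc])
        (by rw [Matrix.transpose_mul, Matrix.transpose_mul, Matrix.transpose_transpose, hs1,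
              Matrix.mul_assoc]) δ hsq
        (by rw [← bf_single (Pᵀ * N0 * P) 0 0, bf_congr, e0, hxx])
        (by rw [← bf_single (Pᵀ * N0 * P) 0 1, bf_congr, e0, e1, hx'])
        (by rw [← bf_single (Pᵀ * N0 * P) 1 1, bf_congr, e1, hyy'])
        (by rw [← bf_single (Pᵀ * N1 * P) 0 1, bf_congr, e0, e1, h1'])
        (by rw [← bf_single (Pᵀ * N1 * P) 1 1, bf_congr, e1]; exact hB)
        (by
          rw [← bf_single (Pᵀ * N1 * P) 1 1, ← bf_single (Pᵀ * N1 * P) 0 0, bf_congr, bf_congr,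
            e1, e0, hδ]
          field_simp)
        (fun h => hf (isSquare_pdet_congr N0 N1 P hP h)) r (P.det * z) hr (mul_ne_zero hP hz')
        (by
          rw [hcomb, Matrix.det_mul, Matrix.det_mul, Matrix.det_transpose, hz]; ring)
      refine ⟨p0, p1, p2, l0, l1, hl, hid, fun s hs' => ?_⟩
      have := hs s hs'
      rw [hcomb] at this
      exact IsoPlane.congr _ P (inj_of_det P hP) this
  have hfz : ({0} ∪ {r : k | (N0 + r • N1).det = 0}).Finite :=
    (Set.finite_singleton 0).union (finite_det_zero N0 N1 hpd)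
  refine (hinf.sdiff hfz) (key.subset ?_)
  rintro r ⟨h3, h4⟩
  refine ⟨fun h => h4 (Or.inl h), h3, fun h => h4 (Or.inr h)⟩

end Pool.Agent.Work.D9odd
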