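import Mathlib
import Pool.Agent.Work.MP_b62148_ag.D9odd.Pen
import Pool.Agent.Work.MP_b62148_ag.D9.GenRes

/-!
General nets of quinary forms: a simple zero `v₀` of the leading coefficient of the discriminant of
the pencils at which the next coefficient does not vanish.
-/

namespace Pool.Agent.Work.D9odd

open Matrix

section nat

variable {S T : Type*} [CommRing S] [CommRing T] (φ : S →+* T)

theorem hyp_map (v : S) : (hyp v).map φ = hyp (φ v) := by
  ext i j
  fin_cases i <;> fin_cases j <;> simp [hyp]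

theorem pen0_map (S0 : Matrix (Fin 5) (Fin 5) S) (v : S) :
    (pen0 S0 v).map φ = pen0 (S0.map φ) (φ v) := by
  unfold pen0
  rw [Matrix.map_mul, Matrix.map_mul, ← hyp_map, Matrix.transpose_map]

theorem pen1_map (S1 S2 : Matrix (Fin 5) (Fin 5) S) (v : S) :
    (pen1 S1 S2 v).map φ = pen1 (S1.map φ) (S2.map φ) (φ v) := by
  unfold pen1
  rw [Matrix.map_mul, Matrix.map_mul, ← hyp_map, Matrix.transpose_map]
  congr 2
  ext i j
  simp

/-- the determinant of the pencil at a value of `v` -/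
theorem penDet_map (S0 S1 S2 : Matrix (Fin 5) (Fin 5) S) (ψ : Polynomial S →+* T) :
    (penDet S0 S1 S2).map ψ = ((pen0 (S0.map (ψ.comp Polynomial.C)) (ψ Polynomial.X)).map
      Polynomial.C + (Polynomial.X : Polynomial T) • (pen1 (S1.map (ψ.comp Polynomial.C))
        (S2.map (ψ.comp Polynomial.C)) (ψ Polynomial.X)).map Polynomial.C).det := by
  unfold penDet
  have h := RingHom.map_det (Polynomial.mapRingHom ψ)
    ((pen0 (S0.map Polynomial.C) (Polynomial.X : Polynomial S)).map Polynomial.C +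
    (Polynomial.X : Polynomial (Polynomial S)) •
      (pen1 (S1.map Polynomial.C) (S2.map Polynomial.C) (Polynomial.X : Polynomial S)).map
        Polynomial.C)
  rw [Polynomial.coe_mapRingHom] at h
  rw [h, RingHom.mapMatrix_apply]
  congr 1
  have e0 := pen0_map ψ (S0.map Polynomial.C) (Polynomial.X : Polynomial S)
  have e1 := pen1_map ψ (S1.map Polynomial.C) (S2.map Polynomial.C) (Polynomial.X : Polynomial S)
  rw [Matrix.map_map] at e0
  rw [Matrix.map_map, Matrix.map_map] at e1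
  have c0 : (S0.map (ψ.comp Polynomial.C)) = S0.map (ψ ∘ Polynomial.C) := rfl
  have c1 : (S1.map (ψ.comp Polynomial.C)) = S1.map (ψ ∘ Polynomial.C) := rfl
  have c2 : (S2.map (ψ.comp Polynomial.C)) = S2.map (ψ ∘ Polynomial.C) := rfl
  rw [c0, c1, c2, ← e0, ← e1]
  ext1 i j
  simp

/-- naturality -/
theorem penDet_nat (S0 S1 S2 : Matrix (Fin 5) (Fin 5) S) :
    (penDet S0 S1 S2).map (Polynomial.mapRingHom φ) = penDet (S0.map φ) (S1.map φ) (S2.map φ) := by
  rw [penDet_map]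
  unfold penDet
  have h : ∀ M : Matrix (Fin 5) (Fin 5) S, M.map ((Polynomial.mapRingHom φ).comp Polynomial.C)
      = (M.map φ).map Polynomial.C := by
    intro M
    ext1 i j
    simp
  rw [h, h, h, Polynomial.coe_mapRingHom, Polynomial.map_X]

end nat

section witness

/-- the matrices of the witness -/
def wS0 : Matrix (Fin 5) (Fin 5) ℚ :=
  !![0, 1, 0, 0, 0; 1, 0, 0, 0, 0; 0, 0, 4, 0, 0; 0, 0, 0, 4, 0; 0, 0, 0, 0, -2]

/-- the matrices of the witness -/
def wS1 : Matrix (Fin 5) (Fin 5) ℚ :=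
  !![0, 0, 0, 0, 0; 0, 0, 0, 0, 0; 0, 0, 2, 0, 0; 0, 0, 0, 0, 0; 0, 0, 0, 0, 0]

theorem penDet_witness : penDet wS0 wS1 0 =
    Polynomial.C (Polynomial.C (-16) * Polynomial.X ^ 4 + Polynomial.C 8 * Polynomial.X ^ 2 +
      Polynomial.C 8) +
      Polynomial.X * Polynomial.C (Polynomial.C (-8) * Polynomial.X ^ 4 +
        Polynomial.C 4 * Polynomial.X ^ 2) := by
  have h0 : pen0 (wS0.map Polynomial.C) (Polynomial.X : Polynomial ℚ) =
      !![0, 1, 0, 0; 1, 0, 0, 0;
        0, 0, Polynomial.C 4 * Polynomial.X ^ 2 + Polynomial.C 4, -Polynomial.C 4 * Polynomial.X;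
        0, 0, -Polynomial.C 4 * Polynomial.X, Polynomial.C 4 * Polynomial.X ^ 2 -
          Polynomial.C 2] := by
    unfold pen0
    ext1 i j
    fin_cases i <;> fin_cases j <;>
      simp [hyp, wS0, Matrix.mul_apply, Fin.sum_univ_five, Matrix.transpose_apply] <;> ring
  have h1 : pen1 (wS1.map Polynomial.C) ((0 : Matrix (Fin 5) (Fin 5) ℚ).map Polynomial.C)
      (Polynomial.X : Polynomial ℚ) =
      !![0, 0, 0, 0; 0, 0, 0, 0; 0, 0, Polynomial.C 2 * Polynomial.X ^ 2, 0; 0, 0, 0, 0] := by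
    unfold pen1
    ext1 i j
    fin_cases i <;> fin_cases j <;>
      simp [hyp, wS1, Matrix.mul_apply, Fin.sum_univ_five, Matrix.transpose_apply] <;> ring
  unfold penDet
  rw [h0, h1]
  have c16 : (Polynomial.C (-16 : ℚ)) = -16 := by rw [map_neg, map_ofNat]
  have c8 : (Polynomial.C (8 : ℚ)) = 8 := map_ofNat _ _
  have c8' : (Polynomial.C (-8 : ℚ)) = -8 := by rw [map_neg, map_ofNat]
  have c4 : (Polynomial.C (4 : ℚ)) = 4 := map_ofNat _ _
  have c2 : (Polynomial.C (2 : ℚ)) = 2 := map_ofNat _ _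
  rw [c16, c8, c8', c4, c2]
  have d4 : (Polynomial.C (4 : Polynomial ℚ)) = 4 := map_ofNat _ _
  have d8 : (Polynomial.C (8 : Polynomial ℚ)) = 8 := map_ofNat _ _
  have d16 : (Polynomial.C (16 : Polynomial ℚ)) = 16 := map_ofNat _ _
  have d2 : (Polynomial.C (2 : Polynomial ℚ)) = 2 := map_ofNat _ _
  rw [Matrix.det_succ_row_zero]
  simp [Fin.sum_univ_succ, Matrix.det_fin_three, Fin.succAbove, Matrix.submatrix]
  rw [d2, d4, d8, d16]
  ring

end witness

section generic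

/-- the index set of the coefficients of three quinary quadratic forms -/
abbrev Par5 := Fin 3 × Fin 5 × Fin 5

/-- the coefficients -/
def par5 {S : Type*} (T0 T1 T2 : Matrix (Fin 5) (Fin 5) S) : Par5 → S :=
  fun t => ![T0, T1, T2] t.1 t.2.1 t.2.2

/-- the generic matrices -/
noncomputable def gT (i : Fin 3) : Matrix (Fin 5) (Fin 5) (MvPolynomial Par5 ℚ) :=
  Matrix.of fun r c => MvPolynomial.X (i, r, c)

theorem gT_map {F : Type*} [Field F] [Algebra ℚ F] (T0 T1 T2 : Matrix (Fin 5) (Fin 5) F)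
    (i : Fin 3) : (gT i + (gT i)ᵀ).map
      ((MvPolynomial.aeval (par5 T0 T1 T2) : MvPolynomial Par5 ℚ →ₐ[ℚ] F) :
        MvPolynomial Par5 ℚ →+* F) = ![T0, T1, T2] i + (![T0, T1, T2] i)ᵀ := by
  ext r c
  rw [Matrix.map_apply, RingHom.coe_coe, Matrix.add_apply, Matrix.transpose_apply, map_add]
  simp only [gT, Matrix.of_apply, MvPolynomial.aeval_X, par5, Matrix.add_apply,
    Matrix.transpose_apply]

theorem spec (F : Type*) [Field F] [Algebra ℚ F] (T0 T1 T2 : Matrix (Fin 5) (Fin 5) F)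
    (i : ℕ) : ((penDet (gT 0 + (gT 0)ᵀ) (gT 1 + (gT 1)ᵀ) (gT 2 + (gT 2)ᵀ)).coeff i).map
      ((MvPolynomial.aeval (par5 T0 T1 T2) : MvPolynomial Par5 ℚ →ₐ[ℚ] F) :
        MvPolynomial Par5 ℚ →+* F)
      = (penDet (T0 + T0ᵀ) (T1 + T1ᵀ) (T2 + T2ᵀ)).coeff i := by
  have h := penDet_nat ((MvPolynomial.aeval (par5 T0 T1 T2) : MvPolynomial Par5 ℚ →ₐ[ℚ] F) :
      MvPolynomial Par5 ℚ →+* F) (gT 0 + (gT 0)ᵀ) (gT 1 + (gT 1)ᵀ) (gT 2 + (gT 2)ᵀ)
  have h0 := gT_map T0 T1 T2 0
  have h1 := gT_map T0 T1 T2 1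
  have h2 := gT_map T0 T1 T2 2
  simp only [Matrix.cons_val_zero, Matrix.cons_val_one, Matrix.cons_val] at h0 h1 h2
  rw [h0, h1, h2] at h
  rw [← h, Polynomial.coeff_map]
  rfl

/-- **(G)** -/
theorem odd_generic : ∃ Φ : MvPolynomial Par5 ℚ, Φ ≠ 0 ∧
    ∀ (Ω : Type*) [Field Ω] [IsAlgClosed Ω] [Algebra ℚ Ω] (T0 T1 T2 : Matrix (Fin 5) (Fin 5) Ω),
      MvPolynomial.aeval (par5 T0 T1 T2) Φ ≠ 0 →
      ∃ v0 : Ω, ((penDet (T0 + T0ᵀ) (T1 + T1ᵀ) (T2 + T2ᵀ)).coeff 0).eval v0 = 0 ∧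
        (Polynomial.derivative ((penDet (T0 + T0ᵀ) (T1 + T1ᵀ) (T2 + T2ᵀ)).coeff 0)).eval v0 ≠ 0 ∧
        ((penDet (T0 + T0ᵀ) (T1 + T1ᵀ) (T2 + T2ᵀ)).coeff 1).eval v0 ≠ 0 := by
  set PD := penDet (gT 0 + (gT 0)ᵀ) (gT 1 + (gT 1)ᵀ) (gT 2 + (gT 2)ᵀ) with hPD
  -- the witness
  set W0 : Matrix (Fin 5) (Fin 5) ℚ := (1 / 2 : ℚ) • wS0 with hW0
  set W1 : Matrix (Fin 5) (Fin 5) ℚ := (1 / 2 : ℚ) • wS1 with hW1
  have eW0 : W0 + W0ᵀ = wS0 := by
    ext i j
    fin_cases i <;> fin_cases j <;> simp [hW0, wS0] <;> norm_num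
  have eW1 : W1 + W1ᵀ = wS1 := by
    ext i j
    fin_cases i <;> fin_cases j <;> simp [hW1, wS1] <;> norm_num
  have eW2 : (0 : Matrix (Fin 5) (Fin 5) ℚ) + (0 : Matrix (Fin 5) (Fin 5) ℚ)ᵀ = 0 := by simp
  set ψ : MvPolynomial Par5 ℚ →+* ℚ :=
    ((MvPolynomial.aeval (par5 W0 W1 0) : MvPolynomial Par5 ℚ →ₐ[ℚ] ℚ) :
      MvPolynomial Par5 ℚ →+* ℚ) with hψ
  have s0 : (PD.coeff 0).map ψ = Polynomial.C (-16) * Polynomial.X ^ 4 +
      Polynomial.C 8 * Polynomial.X ^ 2 + Polynomial.C 8 := by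
    have h := spec ℚ W0 W1 0 0
    rw [eW0, eW1, eW2, penDet_witness] at h
    rw [hPD, hψ, h]
    rw [Polynomial.coeff_add, Polynomial.coeff_C_zero, Polynomial.coeff_X_mul_zero, add_zero]
  have s1 : (PD.coeff 1).map ψ = Polynomial.C (-8) * Polynomial.X ^ 4 +
      Polynomial.C 4 * Polynomial.X ^ 2 := by
    have h := spec ℚ W0 W1 0 1
    rw [eW0, eW1, eW2, penDet_witness] at h
    rw [hPD, hψ, h]
    rw [Polynomial.coeff_add, Polynomial.coeff_C_succ, zero_add, Polynomial.coeff_X_mul,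
      Polynomial.coeff_C_zero]
  obtain ⟨Φ, hΦ, H⟩ := D9.generic_root ψ (PD.coeff 0)
    (Polynomial.derivative (PD.coeff 0) * PD.coeff 1) (by
      rw [s0]
      intro h
      have := congrArg (Polynomial.eval 0) h
      simp at this) 1 (by
      rw [← Polynomial.eval_map, s0]
      simp
      norm_num) (by
      rw [← Polynomial.eval_map, Polynomial.map_mul, ← Polynomial.derivative_map, s0, s1]
      simp
      norm_num)
  refine ⟨Φ, hΦ, fun Ω _ _ _ T0 T1 T2 hT => ?_⟩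
  obtain ⟨-, x, hx, hx'⟩ := H Ω ((MvPolynomial.aeval (par5 T0 T1 T2) : MvPolynomial Par5 ℚ →ₐ[ℚ] Ω) :
        MvPolynomial Par5 ℚ →+* Ω) hT
  have e0 := spec Ω T0 T1 T2 0
  have e1 := spec Ω T0 T1 T2 1
  rw [← Polynomial.eval_map, hPD, e0] at hx
  rw [← Polynomial.eval_map, Polynomial.map_mul, ← Polynomial.derivative_map, hPD, e0, e1,
    Polynomial.eval_mul] at hx'
  exact ⟨x, hx, left_ne_zero_of_mul hx', right_ne_zero_of_mul hx'⟩

end generic

section closed

variable {Ω : Type*} [Field Ω] [IsAlgClosed Ω]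

/-- a plane contains an isotropic vector -/
theorem exists_iso_span {n : Type*} [Fintype n] (N : Matrix n n Ω)
    (hN : Nᵀ = N) (u w : n → Ω) :
    ∃ a b : Ω, (a ≠ 0 ∨ b ≠ 0) ∧ bf N (a • u + b • w) (a • u + b • w) = 0 := by
  by_cases hw : bf N w w = 0
  · exact ⟨0, 1, Or.inr one_ne_zero, by simpa using hw⟩
  · obtain ⟨δ, hδ⟩ := IsAlgClosed.exists_pow_nat_eq (bf N u w ^ 2 - bf N w w * bf N u u)
      (n := 2) (by norm_num)
    refine ⟨bf N w w, -bf N u w + δ, Or.inl hw, ?_⟩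
    simp only [bf_add_left, bf_add_right, bf_smul_left, bf_smul_right]
    rw [bf_comm hN w u]
    linear_combination (bf N w w) * hδ

/-- every quinary form over an algebraically closed field vanishes on a plane -/
theorem isoPlane_closed (N : Matrix (Fin 5) (Fin 5) Ω) (hN : Nᵀ = N) :
    IsoPlane N := by
  -- an isotropic vector
  obtain ⟨x, hx0, hx⟩ : ∃ x : Fin 5 → Ω, x ≠ 0 ∧ bf N x x = 0 := by
    have hind : LinearIndependent Ω ![(Pi.single 0 1 : Fin 5 → Ω), Pi.single 1 1] := by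
      rw [LinearIndependent.pair_iff]
      intro s t hst
      have a0 := congrFun hst 0
      have a1 := congrFun hst 1
      simp at a0 a1
      exact ⟨a0, a1⟩
    obtain ⟨a, b, hab, h⟩ := exists_iso_span N hN (Pi.single 0 1 : Fin 5 → Ω) (Pi.single 1 1)
    refine ⟨_, ?_, h⟩
    intro h0
    rw [LinearIndependent.pair_iff] at hind
    obtain ⟨ha, hb⟩ := hind a b h0
    rcases hab with h | h
    · exact h ha
    · exact h hb
  -- the orthogonal space
  let f : (Fin 5 → Ω) →ₗ[Ω] Ω :=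
    { toFun := fun y => bf N x y
      map_add' := fun y z => bf_add_right N x y z
      map_smul' := fun c y => bf_smul_right N c x y }
  have hker : 4 ≤ Module.finrank Ω (LinearMap.ker f) := by
    have h1 := LinearMap.finrank_range_add_finrank_ker f
    have h3 : Module.finrank Ω (LinearMap.range f) ≤ 1 := by
      have := Submodule.finrank_le (LinearMap.range f)
      rwa [Module.finrank_self] at this
    rw [Module.finrank_fin_fun] at h1
    omega
  let x' : LinearMap.ker f := ⟨x, hx⟩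
  have hx' : LinearIndependent Ω ![x'] := by
    rw [linearIndependent_unique_iff]
    intro h
    exact hx0 (congrArg Subtype.val h)
  obtain ⟨u, hu⟩ := exists_linearIndependent_snoc_of_lt_finrank hx' (by omega)
  obtain ⟨w, hw⟩ := exists_linearIndependent_snoc_of_lt_finrank hu (by omega)
  have hw' : LinearIndependent Ω ![x', u, w] := by
    have e : (Fin.snoc (Fin.snoc ![x'] u : Fin 2 → LinearMap.ker f) w : Fin 3 → LinearMap.ker f)
        = ![x', u, w] := by
      funext i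
      fin_cases i <;> rfl
    rw [← e]
    exact hw
  have key : ∀ α β γ : Ω, α • x + β • u.1 + γ • w.1 = 0 → α = 0 ∧ β = 0 ∧ γ = 0 := by
    intro α β γ h
    rw [Fintype.linearIndependent_iff] at hw'
    have h1 := hw' ![α, β, γ] (by
      rw [Fin.sum_univ_three]
      apply Subtype.ext
      exact h)
    exact ⟨h1 0, h1 1, h1 2⟩
  have huw : LinearIndependent Ω ![u.1, w.1] := by
    rw [LinearIndependent.pair_iff]
    intro s t hst
    obtain ⟨-, h1, h3⟩ := key 0 s t (by rw [zero_smul, zero_add]; exact hst)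
    exact ⟨h1, h3⟩
  obtain ⟨a, b, hab, h⟩ := exists_iso_span N hN u.1 w.1
  refine ⟨x, a • u.1 + b • w.1, ?_, hx, ?_, h⟩
  · rw [LinearIndependent.pair_iff]
    intro s t hst
    obtain ⟨h1, h3, h4⟩ := key s (t * a) (t * b) (by
      rw [← hst, smul_add, smul_smul, smul_smul, add_assoc])
    refine ⟨h1, ?_⟩
    rcases hab with h5 | h5
    · exact (mul_eq_zero.mp h3).resolve_right h5
    · exact (mul_eq_zero.mp h4).resolve_right h5
  · have h1 : bf N x u.1 = 0 := u.2
    have h3 : bf N x w.1 = 0 := w.2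
    rw [bf_add_right, bf_smul_right, bf_smul_right, h1, h3, mul_zero, mul_zero, add_zero]

end closed

end Pool.Agent.Work.D9odd
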