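import Mathlib
import Pool.Agent.Work.MP_b62148_ag.D9odd.Form
import Pool.Agent.Work.MP_b62148_ag.D9.ConicDense

/-!
From lines on the quadric threefolds of the net to points on the conics.
-/

namespace Pool.Agent.Work.D9odd

open Matrix

section strip

variable {k E : Type*} [Field k] [AddCommGroup E] [Module k E] [FiniteDimensional k E]

/-- Removing a hyperbolic plane `s t` lowers the dimension of a totally isotropic subspace by at
most one. -/
theorem strip (q : E → k) (V : Submodule k (E × k × k))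
    (hV : ∀ v ∈ V, q v.1 + v.2.1 * v.2.2 = 0) (m : ℕ) (hm : m + 1 ≤ Module.finrank k V) :
    ∃ W : Submodule k E, (∀ w ∈ W, q w = 0) ∧ m ≤ Module.finrank k W := by
  let t : (E × k × k) →ₗ[k] k := (LinearMap.snd k k k).comp (LinearMap.snd k E (k × k))
  -- the part with `t = 0`
  let V₁ : Submodule k V := LinearMap.ker (t.comp V.subtype)
  let f : V₁ →ₗ[k] E := (LinearMap.fst k E (k × k)).comp (V.subtype.comp V₁.subtype)
  have hf : ∀ w ∈ LinearMap.range f, q w = 0 := by
    rintro _ ⟨v, rfl⟩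
    have h1 := hV v.1.1 v.1.2
    have h2 : v.1.1.2.2 = 0 := v.2
    rw [h2, mul_zero, add_zero] at h1
    exact h1
  refine ⟨LinearMap.range f, hf, ?_⟩
  have hr := LinearMap.finrank_range_add_finrank_ker (K := k) (V := V₁) (V₂ := E) f
  have hr1 := LinearMap.finrank_range_add_finrank_ker (t.comp V.subtype)
  have hV1 : Module.finrank k V₁ = Module.finrank k (LinearMap.ker (t.comp V.subtype)) := rfl
  have hr2 : Module.finrank k (LinearMap.range (t.comp V.subtype)) ≤ 1 := by
    have := Submodule.finrank_le (LinearMap.range (t.comp V.subtype))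
    rwa [Module.finrank_self] at this
  by_cases he : ((0, 1, 0) : E × k × k) ∈ V
  · have ht : ∀ v ∈ V, v.2.2 = 0 := by
      intro v hv
      have h1 := hV v hv
      have h2 := hV _ (V.add_mem hv he)
      have e1 : (v + (0, 1, 0)).1 = v.1 := by simp
      have e2 : (v + (0, 1, 0)).2.1 = v.2.1 + 1 := by simp
      have e3 : (v + (0, 1, 0)).2.2 = v.2.2 := by simp
      rw [e1, e2, e3] at h2
      linear_combination h2 - h1
    have h0 : t.comp V.subtype = 0 := by
      apply LinearMap.ext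
      intro v
      exact ht v.1 v.2
    have hr3 : Module.finrank k (LinearMap.range (t.comp V.subtype)) = 0 := by
      rw [h0, LinearMap.range_zero]
      exact finrank_bot k k
    -- the kernel of `f` has dimension at most one
    have hk : Module.finrank k (LinearMap.ker f) ≤ 1 := by
      apply finrank_le_one (⟨⟨⟨(0, 1, 0), he⟩, by
        show t (0, 1, 0) = 0
        rfl⟩, rfl⟩ : LinearMap.ker f)
      rintro ⟨⟨⟨⟨e, s, u⟩, hv⟩, hv1⟩, hv2⟩
      have h1 : e = 0 := hv2
      have h2 : u = 0 := hv1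
      subst h1
      subst h2
      refine ⟨s, ?_⟩
      apply Subtype.ext
      apply Subtype.ext
      apply Subtype.ext
      show s • ((0, 1, 0) : E × k × k) = (0, s, 0)
      simp
    omega
  · have hk : LinearMap.ker f = ⊥ := by
      rw [LinearMap.ker_eq_bot']
      rintro ⟨⟨⟨e, s, u⟩, hv⟩, hv1⟩ hv2
      have h1 : e = 0 := hv2
      have h2 : u = 0 := hv1
      subst h1
      subst h2
      have hs : s = 0 := by
        by_contra hs
        apply he
        have h3 := V.smul_mem s⁻¹ hv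
        have h4 : s⁻¹ • ((0, s, 0) : E × k × k) = (0, 1, 0) := by
          simp [inv_mul_cancel₀ hs]
        rwa [h4] at h3
      subst hs
      rfl
    have hk' : Module.finrank k (LinearMap.ker f) = 0 := by
      rw [hk]
      exact finrank_bot k _
    omega

end strip

section forms

variable {S : Type*} [CommRing S]

/-- the quadratic form `A ↦ Aᵀ (x_0 T_1 + x_1 T_2 + x_2 T_0) A` of the net -/
def netForm {n : Type*} [Fintype n] (T0 T1 T2 : Matrix n n S) (x : Fin 3 → S) (A : n → S) : S :=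
  x 0 * bf T1 A A + x 1 * bf T2 A A + x 2 * bf T0 A A

/-- the linear form `x_0^2 A_2 + x_0 x_1 A_3 + x_1^2 A_4 + x_2^2 A_5` -/
def hForm (x : Fin 3 → S) (A : Fin 6 → S) : S :=
  x 0 ^ 2 * A 2 + x 0 * x 1 * A 3 + x 1 ^ 2 * A 4 + x 2 ^ 2 * A 5

/-- the form `net(A) + h_x(A) s` in the seven variables `A_0, .., A_5, s` -/
def form7 (T0 T1 T2 : Matrix (Fin 6) (Fin 6) S) (x : Fin 3 → S) (y : Fin 7 → S) : S :=
  netForm T0 T1 T2 x (fun i => y i.castSucc) + hForm x (fun i => y i.castSucc) * y 6

/-- the form `Q(y_0, y_1, y_2) + y_3 y_4 + y_5 y_6` -/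
def form3 (Q : Matrix (Fin 3) (Fin 3) S) (y : Fin 7 → S) : S :=
  bf Q ![y 0, y 1, y 2] ![y 0, y 1, y 2] + y 3 * y 4 + y 5 * y 6

end forms

section split

variable {k : Type*} [Field k]

theorem netForm_pair {n : Type*} [Fintype n] (T0 T1 T2 : Matrix n n k) (x : Fin 3 → k)
    (a b : n → k) (ha : netForm T0 T1 T2 x a = 0) (hb : netForm T0 T1 T2 x b = 0)
    (hab : netForm T0 T1 T2 x (a + b) = 0) (s t : k) :
    netForm T0 T1 T2 x (s • a + t • b) = 0 := by
  unfold netForm at *
  simp only [bf_add_left, bf_add_right, bf_smul_left, bf_smul_right] at *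
  linear_combination (s ^ 2 - s * t) * ha + (t ^ 2 - s * t) * hb + s * t * hab

/-- A line on the quadric threefold gives a point on the conic. -/
theorem split_of_plane (T0 T1 T2 : Matrix (Fin 6) (Fin 6) k) (x : Fin 3 → k)
    (Q : Matrix (Fin 3) (Fin 3) k) (P : Matrix (Fin 7) (Fin 7) k) (hP : P.det ≠ 0) (c : k)
    (hc : c ≠ 0) (hiso : ∀ y, form7 T0 T1 T2 x (P *ᵥ y) = c * form3 Q y) (a b : Fin 6 → k)
    (hind : LinearIndependent k ![a, b]) (hha : hForm x a = 0) (hhb : hForm x b = 0)
    (ha : netForm T0 T1 T2 x a = 0) (hb : netForm T0 T1 T2 x b = 0)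
    (hab : netForm T0 T1 T2 x (a + b) = 0) :
    ∃ u : Fin 3 → k, u ≠ 0 ∧ bf Q u u = 0 := by
  classical
  -- the totally isotropic space of dimension 3
  let g : (Fin 3 → k) →ₗ[k] (Fin 7 → k) :=
    { toFun := fun r => Fin.snoc (r 0 • a + r 1 • b) (r 2)
      map_add' := by
        intro r r'
        funext i
        refine Fin.lastCases ?_ (fun i => ?_) i
        · show Fin.snoc (α := fun _ => k) _ _ (Fin.last 6) =
            Fin.snoc (α := fun _ => k) _ _ (Fin.last 6) +
              Fin.snoc (α := fun _ => k) _ _ (Fin.last 6)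
          rw [Fin.snoc_last, Fin.snoc_last, Fin.snoc_last]
          rfl
        · simp only [Fin.snoc_castSucc, Pi.add_apply, Pi.smul_apply, smul_eq_mul]
          ring
      map_smul' := by
        intro s r
        funext i
        refine Fin.lastCases ?_ (fun i => ?_) i
        · show Fin.snoc (α := fun _ => k) _ _ (Fin.last 6) =
            s * Fin.snoc (α := fun _ => k) _ _ (Fin.last 6)
          rw [Fin.snoc_last, Fin.snoc_last]
          rfl
        · simp only [Fin.snoc_castSucc, Pi.add_apply, Pi.smul_apply, smul_eq_mul,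
            RingHom.id_apply]
          ring }
  have hg : Function.Injective g := by
    rw [← LinearMap.ker_eq_bot, LinearMap.ker_eq_bot']
    intro r hr
    have h6 := congrFun hr (Fin.last 6)
    have h6' : r 2 = 0 := by
      have : g r (Fin.last 6) = r 2 :=
        Fin.snoc_last (n := 6) (α := fun _ => k) (r 2) (r 0 • a + r 1 • b)
      rw [← this, h6]
      rfl
    have h0 : r 0 • a + r 1 • b = 0 := by
      funext i
      have := congrFun hr i.castSucc
      have e : g r i.castSucc = (r 0 • a + r 1 • b) i :=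
        Fin.snoc_castSucc (n := 6) (α := fun _ => k) (r 2) (r 0 • a + r 1 • b) i
      rw [← e, this]
      rfl
    rw [LinearIndependent.pair_iff] at hind
    obtain ⟨h1, h2⟩ := hind _ _ h0
    funext i
    fin_cases i
    · exact h1
    · exact h2
    · exact h6'
  have hq : ∀ r, form7 T0 T1 T2 x (g r) = 0 := by
    intro r
    have e1 : (fun i : Fin 6 => g r i.castSucc) = r 0 • a + r 1 • b := by
      funext i
      exact Fin.snoc_castSucc (n := 6) (α := fun _ => k) (r 2) (r 0 • a + r 1 • b) i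
    unfold form7
    rw [e1, netForm_pair T0 T1 T2 x a b ha hb hab]
    have e2 : hForm x (r 0 • a + r 1 • b) = r 0 * hForm x a + r 1 * hForm x b := by
      unfold hForm
      simp only [Pi.add_apply, Pi.smul_apply, smul_eq_mul]
      ring
    rw [e2, hha, hhb]
    ring
  -- pull back by `P`
  have hu : IsUnit P := (Matrix.isUnit_iff_isUnit_det P).mpr (isUnit_iff_ne_zero.mpr hP)
  have hPP : P * P⁻¹ = 1 := Matrix.mul_nonsing_inv P ((Matrix.isUnit_iff_isUnit_det P).mp hu)
  let F : (Fin 7 → k) →ₗ[k] (((Fin 3 → k) × k × k) × k × k) :=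
    { toFun := fun y => ((![y 0, y 1, y 2], y 3, y 4), y 5, y 6)
      map_add' := by
        intro y y'
        simp
      map_smul' := by
        intro s y
        simp }
  have hF : Function.Injective F := by
    intro y y' h
    have h1 := congrArg Prod.fst h
    have h2 := congrArg Prod.snd h
    have h11 := congrArg Prod.fst h1
    have h12 := congrArg Prod.snd h1
    have a0 := congrFun h11 0
    have a1 := congrFun h11 1
    have a2 := congrFun h11 2
    have a3 := congrArg Prod.fst h12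
    have a4 := congrArg Prod.snd h12
    have a5 := congrArg Prod.fst h2
    have a6 := congrArg Prod.snd h2
    funext i
    fin_cases i
    · exact a0
    · exact a1
    · exact a2
    · exact a3
    · exact a4
    · exact a5
    · exact a6
  let H : (Fin 3 → k) →ₗ[k] (((Fin 3 → k) × k × k) × k × k) := F.comp ((P⁻¹).mulVecLin.comp g)
  have hPinj : Function.Injective (P⁻¹).mulVecLin := by
    intro y y' h
    have h1 : P *ᵥ (P⁻¹ *ᵥ y) = P *ᵥ (P⁻¹ *ᵥ y') := by
      have : P⁻¹ *ᵥ y = P⁻¹ *ᵥ y' := h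
      rw [this]
    rwa [Matrix.mulVec_mulVec, Matrix.mulVec_mulVec, hPP, Matrix.one_mulVec,
      Matrix.one_mulVec] at h1
  have hH : Function.Injective H := hF.comp (hPinj.comp hg)
  have hV : ∀ v ∈ LinearMap.range H,
      (bf Q v.1.1 v.1.1 + v.1.2.1 * v.1.2.2) + v.2.1 * v.2.2 = 0 := by
    rintro _ ⟨r, rfl⟩
    have h1 := hiso (P⁻¹ *ᵥ g r)
    rw [Matrix.mulVec_mulVec, hPP, Matrix.one_mulVec, hq r] at h1
    have h2 := (mul_eq_zero.mp h1.symm).resolve_left hc
    exact h2
  have hdim : 2 + 1 ≤ Module.finrank k (LinearMap.range H) := by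
    rw [LinearMap.finrank_range_of_inj hH, Module.finrank_fin_fun]
  obtain ⟨W, hW, hWd⟩ := strip (fun e : (Fin 3 → k) × k × k => bf Q e.1 e.1 + e.2.1 * e.2.2)
    (LinearMap.range H) hV 2 hdim
  obtain ⟨W', hW', hWd'⟩ := strip (fun e : Fin 3 → k => bf Q e e) W hW 1 hWd
  have : Nontrivial W' := by
    have : 0 < Module.finrank k W' := by omega
    exact Module.nontrivial_of_finrank_pos this
  obtain ⟨⟨u, hu⟩, hu0⟩ := exists_ne (0 : W')
  exact ⟨u, fun h => hu0 (Subtype.ext h), hW' u hu⟩

/-- the symmetric matrix of the restriction of the form `T` to the hyperplane `A_5 = 0` -/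
def sub5 {S : Type*} [CommRing S] (T : Matrix (Fin 6) (Fin 6) S) : Matrix (Fin 5) (Fin 5) S :=
  (T + Tᵀ).submatrix Fin.castSucc Fin.castSucc

theorem bf_sub5 {S : Type*} [CommRing S] (T : Matrix (Fin 6) (Fin 6) S) (a b : Fin 5 → S) :
    bf (sub5 T) a b = bf T (Fin.snoc (α := fun _ => S) a 0) (Fin.snoc (α := fun _ => S) b 0)
      + bf T (Fin.snoc (α := fun _ => S) b 0) (Fin.snoc (α := fun _ => S) a 0) := by
  have h : ∀ (a b : Fin 5 → S), bf T (Fin.snoc (α := fun _ => S) a 0)
      (Fin.snoc (α := fun _ => S) b 0)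
      = ∑ i : Fin 5, ∑ j : Fin 5, a i * T i.castSucc j.castSucc * b j := by
    intro a b
    simp only [bf, dotProduct, mulVec]
    rw [Fin.sum_univ_castSucc]
    simp only [Fin.snoc_castSucc, Fin.snoc_last, zero_mul, add_zero]
    refine Finset.sum_congr rfl fun i _ => ?_
    rw [Fin.sum_univ_castSucc]
    simp only [Fin.snoc_castSucc, Fin.snoc_last, mul_zero, add_zero, Finset.mul_sum]
    refine Finset.sum_congr rfl fun j _ => ?_
    ring
  rw [h, h]
  have h2 : ∑ i : Fin 5, ∑ j : Fin 5, b i * T i.castSucc j.castSucc * a j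
      = ∑ i : Fin 5, ∑ j : Fin 5, b j * T j.castSucc i.castSucc * a i := Finset.sum_comm
  rw [h2, ← Finset.sum_add_distrib]
  simp only [bf, dotProduct, mulVec, sub5, Matrix.submatrix_apply, Matrix.add_apply,
    Matrix.transpose_apply, Finset.mul_sum]
  refine Finset.sum_congr rfl fun i _ => ?_
  rw [← Finset.sum_add_distrib]
  refine Finset.sum_congr rfl fun j _ => ?_
  ring

/-- From planes in `k^5` to planes in `k^6`. -/
theorem lines_lift (h2 : (2 : k) ≠ 0) (T0 T1 T2 : Matrix (Fin 6) (Fin 6) k) (x : Fin 3 → k)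
    (a b : Fin 5 → k) (hind : LinearIndependent k ![a, b])
    (ha : x 0 ^ 2 * a 2 + x 0 * x 1 * a 3 + x 1 ^ 2 * a 4 = 0)
    (hb : x 0 ^ 2 * b 2 + x 0 * x 1 * b 3 + x 1 ^ 2 * b 4 = 0)
    (haa : bf (x 2 • sub5 T0 + x 0 • sub5 T1 + x 1 • sub5 T2) a a = 0)
    (hab : bf (x 2 • sub5 T0 + x 0 • sub5 T1 + x 1 • sub5 T2) a b = 0)
    (hbb : bf (x 2 • sub5 T0 + x 0 • sub5 T1 + x 1 • sub5 T2) b b = 0) :
    ∃ a b : Fin 6 → k, LinearIndependent k ![a, b] ∧ hForm x a = 0 ∧ hForm x b = 0 ∧
      netForm T0 T1 T2 x a = 0 ∧ netForm T0 T1 T2 x b = 0 ∧ netForm T0 T1 T2 x (a + b) = 0 := by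
  simp only [bf_add_mat, bf_smul_mat, bf_sub5] at haa hab hbb
  have hcs : ∀ (c : Fin 5 → k) (i : Fin 5), (Fin.snoc (α := fun _ => k) c 0 : Fin 6 → k)
      i.castSucc = c i := fun c i => Fin.snoc_castSucc (α := fun _ => k) _ _ _
  refine ⟨Fin.snoc (α := fun _ => k) a 0, Fin.snoc (α := fun _ => k) b 0, ?_, ?_, ?_, ?_, ?_, ?_⟩
  · rw [LinearIndependent.pair_iff] at hind ⊢
    intro s t hst
    apply hind s t
    funext i
    have := congrFun hst i.castSucc
    rw [Pi.add_apply, Pi.smul_apply, Pi.smul_apply, hcs, hcs] at this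
    exact this
  · show x 0 ^ 2 * (Fin.snoc (α := fun _ => k) a 0 : Fin 6 → k) (2 : Fin 5).castSucc +
      x 0 * x 1 * (Fin.snoc (α := fun _ => k) a 0 : Fin 6 → k) (3 : Fin 5).castSucc +
      x 1 ^ 2 * (Fin.snoc (α := fun _ => k) a 0 : Fin 6 → k) (4 : Fin 5).castSucc +
      x 2 ^ 2 * (Fin.snoc (α := fun _ => k) a 0 : Fin 6 → k) (Fin.last 5) = 0
    rw [hcs, hcs, hcs, Fin.snoc_last, mul_zero, add_zero, ha]
  · show x 0 ^ 2 * (Fin.snoc (α := fun _ => k) b 0 : Fin 6 → k) (2 : Fin 5).castSucc +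
      x 0 * x 1 * (Fin.snoc (α := fun _ => k) b 0 : Fin 6 → k) (3 : Fin 5).castSucc +
      x 1 ^ 2 * (Fin.snoc (α := fun _ => k) b 0 : Fin 6 → k) (4 : Fin 5).castSucc +
      x 2 ^ 2 * (Fin.snoc (α := fun _ => k) b 0 : Fin 6 → k) (Fin.last 5) = 0
    rw [hcs, hcs, hcs, Fin.snoc_last, mul_zero, add_zero, hb]
  · unfold netForm
    apply mul_left_cancel₀ h2
    linear_combination haa
  · unfold netForm
    apply mul_left_cancel₀ h2
    linear_combination hbb
  · unfold netForm
    simp only [bf_add_left, bf_add_right]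
    apply mul_left_cancel₀ h2
    linear_combination haa + hbb + 2 * hab

end split

section final

variable {k : Type*} [Field k] [CharZero k] {Ω : Type*} [Field Ω] [Algebra k Ω]

open MvPolynomial in
/-- **(W)** If the points `x` over which the quadric threefold `{net_x = 0, h_x = 0}` contains a line
are dense, then so are the points of every conic bundle `Q` for which the form
`net_x(A) + h_x(A) s` is isometric over the function field to `c (Q + y_3 y_4 + y_5 y_6)`. -/
theorem conic_of_lines (T0 T1 T2 : Matrix (Fin 6) (Fin 6) k)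
    (hT : ∀ G : MvPolynomial (Fin 3) k, (∀ x : Fin 3 → k, (∃ a b : Fin 6 → k,
      LinearIndependent k ![a, b] ∧ hForm x a = 0 ∧ hForm x b = 0 ∧ netForm T0 T1 T2 x a = 0 ∧
      netForm T0 T1 T2 x b = 0 ∧ netForm T0 T1 T2 x (a + b) = 0) → eval x G = 0) → G = 0)
    (Q : Matrix (Fin 3) (Fin 3) (MvPolynomial (Fin 3) k)) (hdet : (Q + Qᵀ).det ≠ 0)
    (P : Matrix (Fin 7) (Fin 7) (MvPolynomial (Fin 3) k)) (hP : P.det ≠ 0)
    (c : MvPolynomial (Fin 3) k) (hc : c ≠ 0)
    (hiso : ∀ y : Fin 7 → MvPolynomial (Fin 3) k,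
      form7 (T0.map C) (T1.map C) (T2.map C) X (P *ᵥ y) = c * form3 Q y)
    (G : MvPolynomial (Fin 3 ⊕ Fin 3) k)
    (hG : ∀ (x u : Fin 3 → k), u ≠ 0 → bf (Q.map (eval x)) u u = 0 → eval (Sum.elim x u) G = 0)
    (x u : Fin 3 → Ω) (hu : bf (Q.map (aeval x)) u u = 0)
    (hQ : ∃ u' : Fin 3 → Ω, bf (Q.map (aeval x)) u' u' ≠ 0) :
    aeval (Sum.elim x u) G = 0 := by
  classical
  -- the identity at a point
  have hbf : ∀ (x : Fin 3 → k) {n : Type} [Fintype n] (M : Matrix n n (MvPolynomial (Fin 3) k))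
      (a b : n → MvPolynomial (Fin 3) k), eval x (bf M a b)
        = bf (M.map (eval x)) (fun i => eval x (a i)) (fun i => eval x (b i)) := by
    intro x n _ M a b
    simp only [bf, dotProduct, mulVec, map_sum, map_mul, Matrix.map_apply]
  have hmapC : ∀ (x : Fin 3 → k) (T : Matrix (Fin 6) (Fin 6) k), (T.map C).map (eval x) = T := by
    intro x T
    ext i j
    simp
  have hpt : ∀ (x : Fin 3 → k) (y : Fin 7 → k),
      form7 T0 T1 T2 x (P.map (eval x) *ᵥ y) = eval x c * form3 (Q.map (eval x)) y := by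
    intro x y
    have h := congrArg (eval x) (hiso fun i => C (y i))
    have e1 : (fun i : Fin 7 => eval x ((P *ᵥ fun i => C (y i)) i)) = P.map (eval x) *ᵥ y := by
      funext i
      simp only [mulVec, dotProduct, map_sum, map_mul, Matrix.map_apply, eval_C]
    have e1' : ∀ i : Fin 7, eval x ((P *ᵥ fun i => C (y i)) i) = (P.map (eval x) *ᵥ y) i :=
      fun i => congrFun e1 i
    have e2 : ∀ i j l : Fin 7, (fun t => eval x ((![C (y i), C (y j), C (y l)] :
        Fin 3 → MvPolynomial (Fin 3) k) t)) = ![y i, y j, y l] := by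
      intro i j l
      funext t
      fin_cases t <;> simp
    simp only [form7, form3, netForm, hForm, map_add, map_mul, map_pow, eval_X, eval_C, hbf,
      hmapC, e1', e2] at h
    simp only [form7, form3, netForm, hForm]
    exact h
  -- the good set
  let S : Set (Fin 3 → k) := {x | (∃ a b : Fin 6 → k,
      LinearIndependent k ![a, b] ∧ hForm x a = 0 ∧ hForm x b = 0 ∧ netForm T0 T1 T2 x a = 0 ∧
      netForm T0 T1 T2 x b = 0 ∧ netForm T0 T1 T2 x (a + b) = 0) ∧
      eval x P.det ≠ 0 ∧ eval x c ≠ 0}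
  refine D9.CD.dense_conic Q hdet S ?_ ?_ G ?_ x u hu hQ
  · intro G' hG'
    have h1 : G' * (P.det * c) = 0 := by
      apply hT
      intro x' hx'
      rw [map_mul, map_mul]
      by_contra hcon
      obtain ⟨h2, h3⟩ := mul_ne_zero_iff.mp hcon
      obtain ⟨h4, h5⟩ := mul_ne_zero_iff.mp h3
      exact h2 (hG' x' ⟨hx', h4, h5⟩)
    exact (mul_eq_zero.mp h1).resolve_right (mul_ne_zero hP hc)
  · rintro x' ⟨⟨a, b, hind, h1, h2, h3, h4, h5⟩, hx1, hx2⟩
    refine split_of_plane T0 T1 T2 x' (Q.map (eval x')) (P.map (eval x')) ?_ (eval x' c) hx2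
      (hpt x') a b hind h1 h2 h3 h4 h5
    have h6 := RingHom.map_det (eval x') P
    rw [RingHom.mapMatrix_apply] at h6
    rw [← h6]
    exact hx1
  · intro x' _ u' hu' hqu
    exact hG x' u' hu' hqu

end final

end Pool.Agent.Work.D9odd
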