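import Mathlib
import Pool.Agent.Work.MP_b62148_ag.D9odd.APot
import Pool.Agent.Work.MP_b62148_ag.D9odd.Dbl
import Pool.Agent.Work.MP_b62148_ag.D9odd.Witt
import Pool.Agent.Work.MP_b62148_ag.D9odd.GenOdd

/-!
Odd class: the assembly.
-/

namespace Pool.Agent.Work.D9odd

open Matrix MvPolynomial

universe u

section defs

variable {k : Type*} [Field k]

/-- `Q + y_3 y_4 + y_5 y_6` is, up to a factor, isometric to the form `net_x(A) + h_x(A) s` over the
field of rational functions -/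
def HasIso (T0 T1 T2 : Matrix (Fin 6) (Fin 6) k)
    (Q : Matrix (Fin 3) (Fin 3) (MvPolynomial (Fin 3) k)) : Prop :=
  ∃ (P : Matrix (Fin 7) (Fin 7) (MvPolynomial (Fin 3) k)) (c : MvPolynomial (Fin 3) k),
    P.det ≠ 0 ∧ c ≠ 0 ∧ ∀ y : Fin 7 → MvPolynomial (Fin 3) k,
      form7 (T0.map C) (T1.map C) (T2.map C) X (P *ᵥ y) = c * form3 Q y

/-- the points over `k` of the conic bundle `Q` are Zariski dense -/
def DensePts (k : Type*) [Field k] (Ω : Type*) [Field Ω] [Algebra k Ω]
    (Q : Matrix (Fin 3) (Fin 3) (MvPolynomial (Fin 3) k)) : Prop :=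
  ∀ G : MvPolynomial (Fin 3 ⊕ Fin 3) k,
    (∀ x u : Fin 3 → k, x ≠ 0 → u ≠ 0 → bf (Q.map (eval x)) u u = 0 →
      eval (Sum.elim x u) G = 0) →
    ∀ x u : Fin 3 → Ω, x ≠ 0 → bf (Q.map (aeval x)) u u = 0 →
      (∃ u' : Fin 3 → Ω, bf (Q.map (aeval x)) u' u' ≠ 0) → aeval (Sum.elim x u) G = 0

/-- the double cover of the line branched over the quartic has infinitely many points over `k` -/
def InfE (T0 T1 T2 : Matrix (Fin 6) (Fin 6) k) : Prop :=
  (CPts ((penDet (sub5 T0) (sub5 T1) (sub5 T2)).coeff 0)).Infinite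

end defs

theorem sub5_symm {S : Type*} [CommRing S] (T : Matrix (Fin 6) (Fin 6) S) : (sub5 T)ᵀ = sub5 T := by
  unfold sub5
  rw [Matrix.transpose_submatrix, Matrix.transpose_add, Matrix.transpose_transpose, add_comm]

theorem sub5_map {S S' : Type*} [CommRing S] [CommRing S'] (f : S →+* S')
    (T : Matrix (Fin 6) (Fin 6) S) : sub5 (T.map f) = (sub5 T).map f := by
  ext i j
  simp [sub5]

section same

variable {k : Type u} [Field k] [CharZero k] {Ω : Type*} [Field Ω] [Algebra k Ω]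

/-- from the pencils to the lines on the quadric threefolds -/
theorem lines_dense (T0 T1 T2 : Matrix (Fin 6) (Fin 6) k) (v0 : Ω)
    (h4 : Polynomial.aeval v0 ((penDet (sub5 T0) (sub5 T1) (sub5 T2)).coeff 0) = 0)
    (h4' : Polynomial.aeval v0
      (Polynomial.derivative ((penDet (sub5 T0) (sub5 T1) (sub5 T2)).coeff 0)) ≠ 0)
    (h5 : Polynomial.aeval v0 ((penDet (sub5 T0) (sub5 T1) (sub5 T2)).coeff 1) ≠ 0)
    (hiso : IsoPlane (sub5 T0)) (hinf : InfE T0 T1 T2)
    (G : MvPolynomial (Fin 3) k) (hG : ∀ x : Fin 3 → k, (∃ a b : Fin 6 → k,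
      LinearIndependent k ![a, b] ∧ hForm x a = 0 ∧ hForm x b = 0 ∧ netForm T0 T1 T2 x a = 0 ∧
      netForm T0 T1 T2 x b = 0 ∧ netForm T0 T1 T2 x (a + b) = 0) → eval x G = 0) : G = 0 := by
  have hD : ∀ (K : Type u) [Field K], (2 : K) ≠ 0 → Double K := by
    intro K _ h2 N0 N1 s0 s1 hp hd hf hi
    exact double h2 N0 N1 s0 s1 hp hd hf hi
  have key : ∀ r v : k, IsoPlane (pen0 (sub5 T0) v + r • pen1 (sub5 T1) (sub5 T2) v) →
      ∀ t : k, eval (t • ![r, r * v, 1]) G = 0 := by
    intro r v h t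
    apply hG
    obtain ⟨a, b, hab, haa, hab', hbb⟩ := h
    have e : pen0 (sub5 T0) v + r • pen1 (sub5 T1) (sub5 T2) v =
        (hyp v)ᵀ * (sub5 T0 + r • (sub5 T1 + v • sub5 T2)) * hyp v := by
      unfold pen0 pen1
      simp only [Matrix.mul_add, Matrix.add_mul, Matrix.mul_smul, Matrix.smul_mul]
    rw [e, bf_congr] at haa hab' hbb
    have hin : Function.Injective (hyp v).mulVec := by
      intro c d hcd
      have h0 := congrFun hcd 0
      have h1 := congrFun hcd 1
      have h3 := congrFun hcd 3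
      have h4 := congrFun hcd 4
      simp [hyp, Matrix.mulVec, dotProduct, Fin.sum_univ_four] at h0 h1 h3 h4
      funext i
      fin_cases i
      · exact h0
      · exact h1
      · show c 2 = d 2
        rw [h4] at h3
        linear_combination -h3
      · exact h4
    have hxe : ((t • ![r, r * v, 1] : Fin 3 → k) 2) • sub5 T0 +
        ((t • ![r, r * v, 1] : Fin 3 → k) 0) • sub5 T1 +
        ((t • ![r, r * v, 1] : Fin 3 → k) 1) • sub5 T2 =
        t • (sub5 T0 + r • (sub5 T1 + v • sub5 T2)) := by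
      ext i j
      simp
      ring
    have hh : ∀ c : Fin 4 → k, (t • ![r, r * v, 1] : Fin 3 → k) 0 ^ 2 * (hyp v *ᵥ c) 2 +
        (t • ![r, r * v, 1] : Fin 3 → k) 0 * (t • ![r, r * v, 1] : Fin 3 → k) 1 *
          (hyp v *ᵥ c) 3 + (t • ![r, r * v, 1] : Fin 3 → k) 1 ^ 2 * (hyp v *ᵥ c) 4 = 0 := by
      intro c
      simp [hyp, Matrix.mulVec, dotProduct, Fin.sum_univ_four]
      ring
    refine lines_lift two_ne_zero T0 T1 T2 (t • ![r, r * v, 1]) (hyp v *ᵥ a) (hyp v *ᵥ b)
      (lin_indep_map (hyp v) hin a b hab) (hh a) (hh b) ?_ ?_ ?_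
    · rw [hxe, bf_smul_mat, haa, mul_zero]
    · rw [hxe, bf_smul_mat, hab', mul_zero]
    · rw [hxe, bf_smul_mat, hbb, mul_zero]
  -- `G (t r, t r v, t) = 0` for all `r, v, t`
  have key2 : ∀ r v t : k, eval (t • ![r, r * v, 1]) G = 0 := by
    intro r v t
    let H : MvPolynomial (Fin 2) k := aeval ![C t * X 0, C t * (X 0 * X 1), C t] G
    have hH : ∀ r v : k, eval ![r, v] H = eval (t • ![r, r * v, 1]) G := by
      intro r v
      have h := MvPolynomial.comp_aeval_apply (f := (![C t * X 0, C t * (X 0 * X 1), C t] :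
        Fin 3 → MvPolynomial (Fin 2) k)) (aeval (![r, v] : Fin 2 → k)) G
      rw [aeval_eq_eval, aeval_eq_eval] at h
      have h' : eval ![r, v] H = _ := h
      rw [h']
      congr 2
      funext i
      fin_cases i <;> simp
    have hH0 : H = 0 := by
      refine dense_rv (sub5 T0) (sub5 T1) (sub5 T2) (sub5_symm T0) (sub5_symm T1) (sub5_symm T2)
        hiso v0 h4 h4' h5 hinf hD H fun r v hrv => ?_
      rw [hH]
      exact key r v hrv t
    rw [← hH, hH0, map_zero]
  -- conclude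
  have h1 : G * (X 0 * X 2) = 0 := by
    apply MvPolynomial.funext
    intro x
    rw [map_zero, map_mul, map_mul, eval_X, eval_X]
    by_cases hx2 : x 2 = 0
    · rw [hx2, mul_zero, mul_zero]
    by_cases hx0 : x 0 = 0
    · rw [hx0, zero_mul, mul_zero]
    have h := key2 (x 0 / x 2) (x 1 / x 0) (x 2)
    have e : (x 2 • ![x 0 / x 2, x 0 / x 2 * (x 1 / x 0), 1] : Fin 3 → k) = x := by
      funext i
      fin_cases i
      · show x 2 * (x 0 / x 2) = x 0
        field_simp
      · show x 2 * (x 0 / x 2 * (x 1 / x 0)) = x 1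
        field_simp
      · show x 2 * 1 = x 2
        rw [mul_one]
    rw [e] at h
    rw [h, zero_mul]
  exact (mul_eq_zero.mp h1).resolve_right (mul_ne_zero (X_ne_zero 0) (X_ne_zero 2))

/-- same-field density -/
theorem same_odd (T0 T1 T2 : Matrix (Fin 6) (Fin 6) k) (v0 : Ω)
    (h4 : Polynomial.aeval v0 ((penDet (sub5 T0) (sub5 T1) (sub5 T2)).coeff 0) = 0)
    (h4' : Polynomial.aeval v0
      (Polynomial.derivative ((penDet (sub5 T0) (sub5 T1) (sub5 T2)).coeff 0)) ≠ 0)
    (h5 : Polynomial.aeval v0 ((penDet (sub5 T0) (sub5 T1) (sub5 T2)).coeff 1) ≠ 0)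
    (hiso : IsoPlane (sub5 T0)) (hinf : InfE T0 T1 T2)
    (Q : Matrix (Fin 3) (Fin 3) (MvPolynomial (Fin 3) k)) (hdet : (Q + Qᵀ).det ≠ 0)
    (hQ : HasIso T0 T1 T2 Q) : DensePts k Ω Q := by
  obtain ⟨P, c, hP, hc, hi⟩ := hQ
  intro G hG x u hx hu hu'
  obtain ⟨i, hxi⟩ : ∃ i, x i ≠ 0 := by
    by_contra hcon
    push Not at hcon
    exact hx (funext hcon)
  have h := conic_of_lines (Ω := Ω) T0 T1 T2
    (fun G' hG' => lines_dense T0 T1 T2 v0 h4 h4' h5 hiso hinf G' hG') Q hdet P hP c hc hi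
    (G * X (Sum.inl i)) (by
      intro x' u' hu0 hq
      rw [map_mul, eval_X]
      by_cases hx' : x' = 0
      · rw [hx']; simp
      · rw [hG x' u' hx' hu0 hq, zero_mul]) x u hu hu'
  rw [map_mul, aeval_X] at h
  exact (mul_eq_zero.mp h).resolve_right hxi

end same

section base

/-- the matrix of `net_x(A) + h_x(A) s` -/
def mat7 {S : Type*} [CommRing S] (T0 T1 T2 : Matrix (Fin 6) (Fin 6) S) (x : Fin 3 → S) :
    Matrix (Fin 7) (Fin 7) S :=
  Matrix.of (Fin.snoc (α := fun _ => Fin 7 → S)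
    (fun i => Fin.snoc (α := fun _ => S) (fun j => x 0 * T1 i j + x 1 * T2 i j + x 2 * T0 i j)
      ((![0, 0, x 0 ^ 2, x 0 * x 1, x 1 ^ 2, x 2 ^ 2] : Fin 6 → S) i)) 0)

theorem bf_mat7 {S : Type*} [CommRing S] (T0 T1 T2 : Matrix (Fin 6) (Fin 6) S) (x : Fin 3 → S)
    (y : Fin 7 → S) : form7 T0 T1 T2 x y = bf (mat7 T0 T1 T2 x) y y := by
  have hb : ∀ T : Matrix (Fin 6) (Fin 6) S, bf T (fun i => y i.castSucc) (fun i => y i.castSucc) =
      ∑ i : Fin 6, ∑ j : Fin 6, y i.castSucc * T i j * y j.castSucc := by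
    intro T
    simp only [bf, dotProduct, mulVec, Finset.mul_sum, mul_assoc]
  have h6 : (6 : Fin 7) = Fin.last 6 := rfl
  have hlast : ∀ j, mat7 T0 T1 T2 x (Fin.last 6) j = 0 := by
    intro j
    simp only [mat7, Matrix.of_apply, Fin.snoc_last, Pi.zero_apply]
  have e1 : ∀ i j : Fin 6, mat7 T0 T1 T2 x i.castSucc j.castSucc =
      x 0 * T1 i j + x 1 * T2 i j + x 2 * T0 i j := by
    intro i j
    simp only [mat7, Matrix.of_apply, Fin.snoc_castSucc]
  have e2 : ∀ i : Fin 6, mat7 T0 T1 T2 x i.castSucc (Fin.last 6) =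
      (![0, 0, x 0 ^ 2, x 0 * x 1, x 1 ^ 2, x 2 ^ 2] : Fin 6 → S) i := by
    intro i
    simp only [mat7, Matrix.of_apply, Fin.snoc_castSucc, Fin.snoc_last]
  have e3 : bf (mat7 T0 T1 T2 x) y y = ∑ i : Fin 6, y i.castSucc *
      (∑ j : Fin 6, (x 0 * T1 i j + x 1 * T2 i j + x 2 * T0 i j) * y j.castSucc +
        (![0, 0, x 0 ^ 2, x 0 * x 1, x 1 ^ 2, x 2 ^ 2] : Fin 6 → S) i * y (Fin.last 6)) := by
    simp only [bf, dotProduct, mulVec]
    rw [Fin.sum_univ_castSucc]
    simp only [hlast, zero_mul, Finset.sum_const_zero, mul_zero, add_zero]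
    refine Finset.sum_congr rfl fun i _ => ?_
    rw [Fin.sum_univ_castSucc]
    simp only [e1, e2]
  rw [e3]
  simp only [mul_add, Finset.sum_add_distrib]
  unfold form7 netForm
  rw [hb, hb, hb, h6]
  congr 1
  · simp only [Finset.mul_sum, ← Finset.sum_add_distrib]
    refine Finset.sum_congr rfl fun i _ => Finset.sum_congr rfl fun j _ => ?_
    ring
  · simp only [hForm, Fin.sum_univ_six, Matrix.cons_val_zero, Matrix.cons_val_one,
      Matrix.cons_val]
    simp only [zero_mul, mul_zero, zero_add]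
    show _ = y 2 * _ + y 3 * _ + y 4 * _ + y 5 * _
    show (x 0 ^ 2 * y 2 + x 0 * x 1 * y 3 + x 1 ^ 2 * y 4 + x 2 ^ 2 * y 5) * y (Fin.last 6) = _
    ring

/-- the matrix of `Q + y_3 y_4 + y_5 y_6` -/
def mat3 {S : Type*} [CommRing S] (Q : Matrix (Fin 3) (Fin 3) S) : Matrix (Fin 7) (Fin 7) S :=
  !![Q 0 0, Q 0 1, Q 0 2, 0, 0, 0, 0; Q 1 0, Q 1 1, Q 1 2, 0, 0, 0, 0;
    Q 2 0, Q 2 1, Q 2 2, 0, 0, 0, 0; 0, 0, 0, 0, 1, 0, 0; 0, 0, 0, 0, 0, 0, 0;
    0, 0, 0, 0, 0, 0, 1; 0, 0, 0, 0, 0, 0, 0]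

theorem bf_mat3 {S : Type*} [CommRing S] (Q : Matrix (Fin 3) (Fin 3) S) (y : Fin 7 → S) :
    form3 Q y = bf (mat3 Q) y y := by
  simp [form3, bf, mat3, dotProduct, mulVec, Fin.sum_univ_succ]
  ring

theorem map_mat7 {S S' : Type*} [CommRing S] [CommRing S'] (f : S →+* S')
    (T0 T1 T2 : Matrix (Fin 6) (Fin 6) S) (x : Fin 3 → S) :
    (mat7 T0 T1 T2 x).map f = mat7 (T0.map f) (T1.map f) (T2.map f) (f ∘ x) := by
  ext i j
  rw [Matrix.map_apply]
  refine Fin.lastCases ?_ (fun i => ?_) i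
  · simp only [mat7, Matrix.of_apply, Fin.snoc_last, Pi.zero_apply, map_zero]
  · refine Fin.lastCases ?_ (fun j => ?_) j
    · simp only [mat7, Matrix.of_apply, Fin.snoc_castSucc, Fin.snoc_last]
      fin_cases i <;> simp
    · simp [mat7]

theorem map_mat3 {S S' : Type*} [CommRing S] [CommRing S'] (f : S →+* S')
    (Q : Matrix (Fin 3) (Fin 3) S) : (mat3 Q).map f = mat3 (Q.map f) := by
  ext i j
  fin_cases i <;> fin_cases j <;> simp [mat3]

/-- a matrix whose quadratic form vanishes is alternating -/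
theorem add_transpose_zero {S : Type*} [CommRing S] {n : Type*} [Fintype n]
    (N : Matrix n n S) (h : ∀ y, bf N y y = 0) : N + Nᵀ = 0 := by
  classical
  have hs : ∀ i j, bf N (Pi.single i 1) (Pi.single j 1) = N i j := by
    intro i j
    simp [bf]
  ext i j
  have h1 := h (Pi.single i 1 + Pi.single j 1)
  rw [bf_add_left, bf_add_right, bf_add_right, h, h, zero_add, add_zero, hs, hs] at h1
  simpa using h1

variable {k : Type*} [Field k] [CharZero k] {L : Type*} [Field L] [CharZero L]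

theorem HasIso.map (f : k →+* L) {T0 T1 T2 : Matrix (Fin 6) (Fin 6) k}
    {Q : Matrix (Fin 3) (Fin 3) (MvPolynomial (Fin 3) k)} (h : HasIso T0 T1 T2 Q) :
    HasIso (T0.map f) (T1.map f) (T2.map f) (Q.map (MvPolynomial.map f)) := by
  obtain ⟨P, c, hP, hc, hi⟩ := h
  set g : MvPolynomial (Fin 3) k →+* MvPolynomial (Fin 3) L := MvPolynomial.map f with hg
  have hginj : Function.Injective g := MvPolynomial.map_injective f f.injective
  refine ⟨P.map g, g c, ?_, ?_, ?_⟩
  · intro h0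
    apply hP
    apply hginj
    rw [RingHom.map_det, map_zero]
    exact h0
  · intro h0
    apply hc
    apply hginj
    rw [map_zero, h0]
  · set N := Pᵀ * mat7 (T0.map C) (T1.map C) (T2.map C) (X : Fin 3 → MvPolynomial (Fin 3) k) * P -
      c • mat3 Q with hN
    have h1 : N + Nᵀ = 0 := by
      apply add_transpose_zero
      intro y
      have := hi y
      rw [bf_mat7, bf_mat3] at this
      have e : bf N y y = bf (Pᵀ * mat7 (T0.map C) (T1.map C) (T2.map C)
          (X : Fin 3 → MvPolynomial (Fin 3) k) * P) y y - c * bf (mat3 Q) y y := by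
        rw [hN]
        simp only [bf, Matrix.sub_mulVec, dotProduct_sub, Matrix.smul_mulVec, dotProduct_smul,
          smul_eq_mul]
      rw [e, bf_congr, this, sub_self]
    have h2 : N.map g + (N.map g)ᵀ = 0 := by
      have := congrArg (fun M : Matrix (Fin 7) (Fin 7) (MvPolynomial (Fin 3) k) => M.map g) h1
      refine Matrix.ext fun i j => ?_
      have h3 := congrFun (congrFun this i) j
      simpa using h3
    have h3 : N.map g = (P.map g)ᵀ * mat7 ((T0.map f).map C) ((T1.map f).map C)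
        ((T2.map f).map C) (X : Fin 3 → MvPolynomial (Fin 3) L) * P.map g -
          g c • mat3 (Q.map g) := by
      have e1 : ∀ T : Matrix (Fin 6) (Fin 6) k, (T.map (C : k →+* MvPolynomial (Fin 3) k)).map g =
          (T.map f).map (C : L →+* MvPolynomial (Fin 3) L) := by
        intro T
        ext i j : 2
        simp [hg]
      have e2 : (g ∘ (X : Fin 3 → MvPolynomial (Fin 3) k)) = X := by
        funext i
        simp [hg]
      have e3 : N.map g = (Pᵀ * mat7 (T0.map C) (T1.map C) (T2.map C)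
          (X : Fin 3 → MvPolynomial (Fin 3) k) * P).map g - g c • (mat3 Q).map g := by
        ext i j : 2
        rw [hN]
        simp only [Matrix.map_apply, Matrix.sub_apply, Matrix.smul_apply, smul_eq_mul, map_sub,
          map_mul]
      rw [e3, Matrix.map_mul, Matrix.map_mul, Matrix.transpose_map, map_mat7, map_mat3, e1, e1,
        e1, e2]
    intro y
    have h4 : bf (N.map g) y y = 0 := by
      have h5 : bf (N.map g + (N.map g)ᵀ) y y = 0 := by rw [h2]; simp [bf]
      rw [bf_add_mat] at h5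
      have h6 : bf (N.map g)ᵀ y y = bf (N.map g) y y := by
        unfold bf
        rw [Matrix.mulVec_transpose, dotProduct_comm, Matrix.dotProduct_mulVec]
      rw [h6, ← two_mul] at h5
      exact (mul_eq_zero.mp h5).resolve_left two_ne_zero
    rw [h3] at h4
    have e : bf ((P.map g)ᵀ * mat7 ((T0.map f).map C) ((T1.map f).map C)
        ((T2.map f).map C) (X : Fin 3 → MvPolynomial (Fin 3) L) * P.map g -
          g c • mat3 (Q.map g)) y y = bf ((P.map g)ᵀ * mat7 ((T0.map f).map C) ((T1.map f).map C)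
        ((T2.map f).map C) (X : Fin 3 → MvPolynomial (Fin 3) L) * P.map g) y y -
          g c * bf (mat3 (Q.map g)) y y := by
      simp only [bf, Matrix.sub_mulVec, dotProduct_sub, Matrix.smul_mulVec, dotProduct_smul,
        smul_eq_mul]
    rw [e, bf_congr, ← bf_mat7, ← bf_mat3] at h4
    exact sub_eq_zero.mp h4

end base

section main

/-- the coefficients -/
def par6 {S : Type*} (T0 T1 T2 : Matrix (Fin 6) (Fin 6) S) : Fin 3 × Fin 6 × Fin 6 → S :=
  fun t => ![T0, T1, T2] t.1 t.2.1 t.2.2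

theorem sub5_eq {S : Type*} [CommRing S] (T : Matrix (Fin 6) (Fin 6) S) :
    sub5 T = T.submatrix Fin.castSucc Fin.castSucc +
      (T.submatrix Fin.castSucc Fin.castSucc)ᵀ := rfl

universe v

/-- **General member of the odd class.** -/
theorem general_odd : ∃ Φ : MvPolynomial (Fin 3 × Fin 6 × Fin 6) ℚ, Φ ≠ 0 ∧
    ∀ (k : Type u) (Ω : Type v) [Field k] [CharZero k] [Field Ω] [IsAlgClosed Ω] [Algebra k Ω]
      (T0 T1 T2 : Matrix (Fin 6) (Fin 6) k), aeval (par6 T0 T1 T2) Φ ≠ 0 →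
      (IsoPlane (sub5 T0) → InfE T0 T1 T2 →
        ∀ Q : Matrix (Fin 3) (Fin 3) (MvPolynomial (Fin 3) k), (Q + Qᵀ).det ≠ 0 →
          HasIso T0 T1 T2 Q → DensePts k Ω Q) ∧
      (Algebra.IsAlgebraic k Ω → ∀ W : Finset Ω, ∃ L : IntermediateField k Ω,
        FiniteDimensional k L ∧ (W : Set Ω) ⊆ L ∧
        IsoPlane (sub5 (T0.map (algebraMap k L))) ∧
        InfE (T0.map (algebraMap k L)) (T1.map (algebraMap k L)) (T2.map (algebraMap k L)) ∧
        ∀ Q : Matrix (Fin 3) (Fin 3) (MvPolynomial (Fin 3) L), (Q + Qᵀ).det ≠ 0 →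
          HasIso (T0.map (algebraMap k L)) (T1.map (algebraMap k L)) (T2.map (algebraMap k L)) Q →
            DensePts L Ω Q) := by
  obtain ⟨Φ, hΦ, H⟩ := odd_generic.{v}
  let ρ : Fin 3 × Fin 5 × Fin 5 → Fin 3 × Fin 6 × Fin 6 :=
    fun t => (t.1, t.2.1.castSucc, t.2.2.castSucc)
  have hρ : Function.Injective ρ := by
    rintro ⟨a, b, c⟩ ⟨a', b', c'⟩ h
    simp only [ρ, Prod.mk.injEq, Fin.castSucc_inj] at h
    obtain ⟨rfl, rfl, rfl⟩ := h
    rfl
  refine ⟨rename ρ Φ, fun h => hΦ (rename_injective ρ hρ (by rw [h, map_zero])), ?_⟩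
  intro k Ω _ _ _ _ _ T0 T1 T2 hT
  have : CharZero Ω := charZero_of_injective_algebraMap (algebraMap k Ω).injective
  -- the point `v0`
  obtain ⟨v0, h4, h4', h5⟩ : ∃ v0 : Ω,
      Polynomial.aeval v0 ((penDet (sub5 T0) (sub5 T1) (sub5 T2)).coeff 0) = 0 ∧
      Polynomial.aeval v0
        (Polynomial.derivative ((penDet (sub5 T0) (sub5 T1) (sub5 T2)).coeff 0)) ≠ 0 ∧
      Polynomial.aeval v0 ((penDet (sub5 T0) (sub5 T1) (sub5 T2)).coeff 1) ≠ 0 := by
    have e : ∀ T : Matrix (Fin 6) (Fin 6) k,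
        ((T.map (algebraMap k Ω)).submatrix Fin.castSucc Fin.castSucc : Matrix (Fin 5) (Fin 5) Ω) +
        ((T.map (algebraMap k Ω)).submatrix Fin.castSucc Fin.castSucc)ᵀ =
        (sub5 T).map (algebraMap k Ω) := by
      intro T
      rw [← sub5_eq, sub5_map]
    obtain ⟨v0, g4, g4', g5⟩ := H Ω ((T0.map (algebraMap k Ω)).submatrix Fin.castSucc Fin.castSucc)
      ((T1.map (algebraMap k Ω)).submatrix Fin.castSucc Fin.castSucc)
      ((T2.map (algebraMap k Ω)).submatrix Fin.castSucc Fin.castSucc) (by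
        intro h0
        apply hT
        apply (algebraMap k Ω).injective
        rw [map_zero, ← h0, aeval_rename]
        have := MvPolynomial.map_aeval (par6 T0 T1 T2 ∘ ρ) (algebraMap k Ω) Φ
        rw [this, MvPolynomial.aeval_def, MvPolynomial.coe_eval₂Hom]
        congr 1
        · exact Subsingleton.elim _ _
        · funext t
          obtain ⟨a, b, c⟩ := t
          fin_cases a <;> rfl)
    rw [e, e, e, penDet_base] at g4 g4' g5
    refine ⟨v0, ?_, ?_, ?_⟩
    · rw [Polynomial.coeff_map] at g4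
      rw [← g4, Polynomial.coe_mapRingHom, Polynomial.eval_map]
      rfl
    · rw [Polynomial.coeff_map, Polynomial.coe_mapRingHom, Polynomial.derivative_map,
        Polynomial.eval_map] at g4'
      exact g4'
    · rw [Polynomial.coeff_map, Polynomial.coe_mapRingHom, Polynomial.eval_map] at g5
      exact g5
  refine ⟨fun hiso hinf Q hdet hQ => same_odd T0 T1 T2 v0 h4 h4' h5 hiso hinf Q hdet hQ, ?_⟩
  intro halg W
  obtain ⟨L, hL, hWL, hLiso, hLinf⟩ := exists_field (sub5 T0) (sub5 T1) (sub5 T2)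
    (isoPlane_closed _ (by rw [← Matrix.transpose_map, sub5_symm])) v0 h4 h4' W
  have hiso : IsoPlane (sub5 (T0.map (algebraMap k L))) := by
    rw [sub5_map]; exact hLiso
  have hc : ∀ n, (penDet (sub5 (T0.map (algebraMap k L))) (sub5 (T1.map (algebraMap k L)))
      (sub5 (T2.map (algebraMap k L)))).coeff n =
        ((penDet (sub5 T0) (sub5 T1) (sub5 T2)).coeff n).map (algebraMap k L) := by
    intro n
    rw [sub5_map, sub5_map, sub5_map, penDet_base, Polynomial.coeff_map]
    rfl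
  have ha : ∀ p : Polynomial k, Polynomial.aeval v0 (p.map (algebraMap k L)) =
      Polynomial.aeval v0 p := fun p => Polynomial.aeval_map_algebraMap L v0 p
  have hinf : InfE (T0.map (algebraMap k L)) (T1.map (algebraMap k L))
      (T2.map (algebraMap k L)) := by
    unfold InfE
    rw [hc]; exact hLinf
  refine ⟨L, hL, hWL, hiso, hinf, fun Q hdet hQ => ?_⟩
  refine same_odd (T0.map (algebraMap k L)) (T1.map (algebraMap k L)) (T2.map (algebraMap k L)) v0
    ?_ ?_ ?_ hiso hinf Q hdet hQ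
  · rw [hc, ha]; exact h4
  · rw [hc, Polynomial.derivative_map, ha]; exact h4'
  · rw [hc, ha]; exact h5

/-- base change of the non degeneracy of the conic bundle -/
theorem det_base {k L : Type*} [Field k] [Field L] (f : k →+* L)
    (Q : Matrix (Fin 3) (Fin 3) (MvPolynomial (Fin 3) k)) (hdet : (Q + Qᵀ).det ≠ 0) :
    (Q.map (MvPolynomial.map f) + (Q.map (MvPolynomial.map f))ᵀ).det ≠ 0 := by
  intro h0
  apply hdet
  apply MvPolynomial.map_injective f f.injective
  rw [RingHom.map_det, map_zero, ← h0]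
  congr 1
  ext i j : 2
  simp

end main

end Pool.Agent.Work.D9odd
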