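import Mathlib
import Pool.Agent.Work.MP_b62148_ag.D9odd.Odd9

/-!
Odd class: one finite extension, containing given elements, works for all conic bundles of the class
over it.
-/

namespace Pool.Agent.Work.D9odd

open Matrix MvPolynomial

universe u v

section field

variable {k : Type u} [Field k] [CharZero k] {Ω : Type*} [Field Ω] [Algebra k Ω] [IsAlgClosed Ω]
  [Algebra.IsAlgebraic k Ω]

/-- a finite extension containing given elements over which the hypotheses of `dense_rv` hold -/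
theorem exists_field_W (S0 S1 S2 : Matrix (Fin 5) (Fin 5) k)
    (hiso : IsoPlane (S0.map (algebraMap k Ω))) (v0 : Ω)
    (h4 : Polynomial.aeval v0 ((penDet S0 S1 S2).coeff 0) = 0)
    (h4' : Polynomial.aeval v0 (Polynomial.derivative ((penDet S0 S1 S2).coeff 0)) ≠ 0)
    (W : Finset Ω) :
    ∃ L : IntermediateField k Ω, FiniteDimensional k L ∧ (W : Set Ω) ⊆ L ∧
      IsoPlane (S0.map (algebraMap k L)) ∧
      (CPts (((penDet S0 S1 S2).coeff 0).map (algebraMap k L))).Infinite := by
  classical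
  obtain ⟨x, y, hxy, hxx, hxy', hyy⟩ := hiso
  obtain ⟨L, hL, hW, hinf⟩ := exists_infinite_field ((penDet S0 S1 S2).coeff 0)
    (coeff_zero_natDegree S0 S1 S2) v0 h4 h4' (Finset.univ.image x ∪ Finset.univ.image y ∪ W)
  refine ⟨L, hL, fun z hz => hW (by simp [Finset.mem_coe.mp hz]), ?_, hinf⟩
  let ι : L →+* Ω := algebraMap L Ω
  have hιinj : Function.Injective ι := (algebraMap L Ω).injective
  choose x' hx' using fun l : Fin 5 => (⟨⟨x l, hW (by simp)⟩, rfl⟩ : ∃ a : L, ι a = x l)
  choose y' hy' using fun l : Fin 5 => (⟨⟨y l, hW (by simp)⟩, rfl⟩ : ∃ a : L, ι a = y l)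
  have fx : ι ∘ x' = x := funext hx'
  have fy : ι ∘ y' = y := funext hy'
  have hm : (S0.map (algebraMap k L)).map ι = S0.map (algebraMap k Ω) := by
    ext i j; rfl
  obtain ⟨i, j, hij⟩ := minor_of_indep x y hxy
  refine ⟨x', y', indep_of_minor _ _ i j ?_, ?_, ?_, ?_⟩
  · intro h0
    apply hij
    have := congrArg ι h0
    rw [map_sub, map_mul, map_mul, map_zero, hx', hx', hy', hy'] at this
    exact this
  · apply hιinj; rw [map_bf, hm, fx, map_zero, hxx]
  · apply hιinj; rw [map_bf, hm, fx, fy, map_zero, hxy']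
  · apply hιinj; rw [map_bf, hm, fy, map_zero, hyy]

end field

/-- **General member of the odd class**, with one finite extension for all conic bundles of the class
over that extension. -/
theorem general_odd_L : ∃ Φ : MvPolynomial (Fin 3 × Fin 6 × Fin 6) ℚ, Φ ≠ 0 ∧
    ∀ (k : Type u) (Ω : Type v) [Field k] [CharZero k] [Field Ω] [IsAlgClosed Ω] [Algebra k Ω]
      (T0 T1 T2 : Matrix (Fin 6) (Fin 6) k), aeval (par6 T0 T1 T2) Φ ≠ 0 →
      (IsoPlane (sub5 T0) → InfE T0 T1 T2 →
        ∀ Q : Matrix (Fin 3) (Fin 3) (MvPolynomial (Fin 3) k), (Q + Qᵀ).det ≠ 0 →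
          HasIso T0 T1 T2 Q → DensePts k Ω Q) ∧
      (Algebra.IsAlgebraic k Ω → ∀ W : Finset Ω, ∃ L : IntermediateField k Ω,
        FiniteDimensional k L ∧ (W : Set Ω) ⊆ L ∧
        IsoPlane (sub5 (T0.map (algebraMap k L))) ∧
        InfE (T0.map (algebraMap k L)) (T1.map (algebraMap k L)) (T2.map (algebraMap k L)) ∧
        ∀ Q : Matrix (Fin 3) (Fin 3) (MvPolynomial (Fin 3) L), (Q + Qᵀ).det ≠ 0 →
          HasIso (T0.map (algebraMap k L)) (T1.map (algebraMap k L)) (T2.map (algebraMap k L)) Q →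
          DensePts L Ω Q) := by
  obtain ⟨Φ, hΦ, H⟩ := odd_generic.{v}
  let ρ : Fin 3 × Fin 5 × Fin 5 → Fin 3 × Fin 6 × Fin 6 :=
    fun t => (t.1, t.2.1.castSucc, t.2.2.castSucc)
  have hρ : Function.Injective ρ := by
    rintro ⟨a, b, c⟩ ⟨a', b', c'⟩ h
    simp only [ρ, Prod.mk.injEq, Fin.castSucc_inj] at h
    obtain ⟨rfl, rfl, rfl⟩ := h
    rfl
  refine ⟨rename ρ Φ, fun h => hΦ (rename_injective ρ hρ (by rw [h, map_zero])), ?_⟩
  intro k Ω _ _ _ _ _ T0 T1 T2 hT
  have : CharZero Ω := charZero_of_injective_algebraMap (algebraMap k Ω).injective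
  -- the point `v0`
  obtain ⟨v0, h4, h4', h5⟩ : ∃ v0 : Ω,
      Polynomial.aeval v0 ((penDet (sub5 T0) (sub5 T1) (sub5 T2)).coeff 0) = 0 ∧
      Polynomial.aeval v0
        (Polynomial.derivative ((penDet (sub5 T0) (sub5 T1) (sub5 T2)).coeff 0)) ≠ 0 ∧
      Polynomial.aeval v0 ((penDet (sub5 T0) (sub5 T1) (sub5 T2)).coeff 1) ≠ 0 := by
    have e : ∀ T : Matrix (Fin 6) (Fin 6) k,
        ((T.map (algebraMap k Ω)).submatrix Fin.castSucc Fin.castSucc : Matrix (Fin 5) (Fin 5) Ω) +
        ((T.map (algebraMap k Ω)).submatrix Fin.castSucc Fin.castSucc)ᵀ =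
        (sub5 T).map (algebraMap k Ω) := by
      intro T
      rw [← sub5_eq, sub5_map]
    obtain ⟨v0, g4, g4', g5⟩ := H Ω ((T0.map (algebraMap k Ω)).submatrix Fin.castSucc Fin.castSucc)
      ((T1.map (algebraMap k Ω)).submatrix Fin.castSucc Fin.castSucc)
      ((T2.map (algebraMap k Ω)).submatrix Fin.castSucc Fin.castSucc) (by
        intro h0
        apply hT
        apply (algebraMap k Ω).injective
        rw [map_zero, ← h0, aeval_rename]
        have := MvPolynomial.map_aeval (par6 T0 T1 T2 ∘ ρ) (algebraMap k Ω) Φ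
        rw [this, MvPolynomial.aeval_def, MvPolynomial.coe_eval₂Hom]
        congr 1
        · exact Subsingleton.elim _ _
        · funext t
          obtain ⟨a, b, c⟩ := t
          fin_cases a <;> rfl)
    rw [e, e, e, penDet_base] at g4 g4' g5
    refine ⟨v0, ?_, ?_, ?_⟩
    · rw [Polynomial.coeff_map] at g4
      rw [← g4, Polynomial.coe_mapRingHom, Polynomial.eval_map]
      rfl
    · rw [Polynomial.coeff_map, Polynomial.coe_mapRingHom, Polynomial.derivative_map,
        Polynomial.eval_map] at g4'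
      exact g4'
    · rw [Polynomial.coeff_map, Polynomial.coe_mapRingHom, Polynomial.eval_map] at g5
      exact g5
  refine ⟨fun hiso hinf Q hdet hQ => same_odd T0 T1 T2 v0 h4 h4' h5 hiso hinf Q hdet hQ, ?_⟩
  intro halg W
  obtain ⟨L, hL, hLW, hLiso, hLinf⟩ := exists_field_W (sub5 T0) (sub5 T1) (sub5 T2)
    (isoPlane_closed _ (by rw [← Matrix.transpose_map, sub5_symm])) v0 h4 h4' W
  have hiso : IsoPlane (sub5 (T0.map (algebraMap k L))) := by
    rw [sub5_map]; exact hLiso
  have hc : ∀ n, (penDet (sub5 (T0.map (algebraMap k L))) (sub5 (T1.map (algebraMap k L)))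
      (sub5 (T2.map (algebraMap k L)))).coeff n =
        ((penDet (sub5 T0) (sub5 T1) (sub5 T2)).coeff n).map (algebraMap k L) := by
    intro n
    rw [sub5_map, sub5_map, sub5_map, penDet_base, Polynomial.coeff_map]
    rfl
  have ha : ∀ p : Polynomial k, Polynomial.aeval v0 (p.map (algebraMap k L)) =
      Polynomial.aeval v0 p := fun p => Polynomial.aeval_map_algebraMap L v0 p
  have hinf : InfE (T0.map (algebraMap k L)) (T1.map (algebraMap k L))
      (T2.map (algebraMap k L)) := by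
    unfold InfE
    rw [hc]; exact hLinf
  refine ⟨L, hL, hLW, hiso, hinf, fun Q hdet hQ => ?_⟩
  refine same_odd (T0.map (algebraMap k L)) (T1.map (algebraMap k L)) (T2.map (algebraMap k L)) v0
    ?_ ?_ ?_ hiso hinf Q hdet hQ
  · rw [hc, ha]; exact h4
  · rw [hc, Polynomial.derivative_map, ha]; exact h4'
  · rw [hc, ha]; exact h5

end Pool.Agent.Work.D9odd
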