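import Mathlib
import Pool.Agent.Work.MP_b62148_ag.D9odd.OddL

namespace Pool.Agent.Work.D9odd

open Matrix MvPolynomial

/-- a finite extension is generated by finitely many elements -/
theorem exists_gens {k Ω : Type*} [Field k] [Field Ω] [Algebra k Ω] (L₁ : IntermediateField k Ω)
    [FiniteDimensional k L₁] :
    ∃ W : Finset Ω, ∀ L : IntermediateField k Ω, (W : Set Ω) ⊆ L → L₁ ≤ L := by
  classical
  let b := Module.finBasis k L₁
  refine ⟨Finset.univ.image fun i => ((b i : L₁) : Ω), fun L hW x hx => ?_⟩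
  have h1 := b.sum_repr ⟨x, hx⟩
  have h2 : x = ∑ i, b.repr ⟨x, hx⟩ i • ((b i : L₁) : Ω) := by
    have := congrArg (fun y : L₁ => (y : Ω)) h1
    simp only [AddSubmonoidClass.coe_finsetSum] at this
    exact this.symm
  rw [h2]
  refine sum_mem fun i _ => ?_
  exact L.smul_mem (hW (by simp))

/-- base change of a conic bundle of the class -/
theorem HasIso.extend {k Ω : Type*} [Field k] [CharZero k] [Field Ω] [Algebra k Ω]
    {T0 T1 T2 : Matrix (Fin 6) (Fin 6) k} {L₁ L : IntermediateField k Ω} (hle : L₁ ≤ L)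
    (Q : Matrix (Fin 3) (Fin 3) (MvPolynomial (Fin 3) L₁)) (hdet : (Q + Qᵀ).det ≠ 0)
    (h : HasIso (T0.map (algebraMap k L₁)) (T1.map (algebraMap k L₁)) (T2.map (algebraMap k L₁)) Q) :
    ∃ Q' : Matrix (Fin 3) (Fin 3) (MvPolynomial (Fin 3) L), (Q' + Q'ᵀ).det ≠ 0 ∧
      HasIso (T0.map (algebraMap k L)) (T1.map (algebraMap k L)) (T2.map (algebraMap k L)) Q' := by
  let f : L₁ →+* L := (IntermediateField.inclusion hle : L₁ →ₐ[k] L)
  have hm : ∀ T : Matrix (Fin 6) (Fin 6) k, (T.map (algebraMap k L₁)).map f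
      = T.map (algebraMap k L) := by
    intro T
    ext i j : 2
    rfl
  have h1 := h.map f
  rw [hm, hm, hm] at h1
  refine ⟨Q.map (MvPolynomial.map f), ?_, h1⟩
  intro h0
  apply hdet
  apply MvPolynomial.map_injective f f.injective
  rw [RingHom.map_det, map_zero, ← h0]
  congr 1
  ext i j : 2
  simp

end Pool.Agent.Work.D9odd
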