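import Mathlib

/-!
A smooth plane curve of degree nine.
-/

namespace Pool.Agent.Work.D9odd

section algebra

variable {F : Type*} [Field F] [CharZero F]

theorem core7_aff (Y W : F) (hY : Y ≠ 0)
    (E : 4 * W ^ 3 + 4 * W * Y ^ 5 - W * Y ^ 3 + Y ^ 4 = 0)
    (F1 : 20 * W ^ 2 * Y ^ 4 - 3 * W ^ 2 * Y ^ 2 + 8 * W * Y ^ 3 - 16 * Y ^ 7 - 1 = 0)
    (F2 : W ^ 4 - W ^ 2 * Y ^ 3 + 3 * W * Y ^ 4 - Y ^ 8 - 4 * Y = 0) : False := by
  have hG : 16 + 4 * Y ^ 7 - 11 * W * Y ^ 3 + 3 * W ^ 2 * Y ^ 2 + 4 * W ^ 2 * Y ^ 4 = 0 := by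
    have h : Y * (16 + 4 * Y ^ 7 - 11 * W * Y ^ 3 + 3 * W ^ 2 * Y ^ 2 + 4 * W ^ 2 * Y ^ 4) = 0 := by
      linear_combination W * E - 4 * F2
    exact (mul_eq_zero.1 h).resolve_left hY
  have hS : 8 * W ^ 2 * Y ^ 4 - W * Y ^ 3 - 4 * Y ^ 7 + 5 = 0 := by
    linear_combination (1 / 3 : F) * F1 + (1 / 3 : F) * hG
  have hR : 2 * W ^ 2 * Y ^ 2 - 7 * W * Y ^ 3 + 4 * Y ^ 7 + 9 = 0 := by
    linear_combination (5 / 9 : F) * hG - (1 / 9 : F) * F1
  have hL : (28 * Y ^ 5 - Y ^ 3) * W - 16 * Y ^ 9 - 4 * Y ^ 7 - 36 * Y ^ 2 + 5 = 0 := by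
    linear_combination hS - 4 * Y ^ 2 * hR
  have hI : (28 * Y ^ 5 - Y ^ 3) * W ^ 2 + (7 * Y ^ 4 - 36 * Y ^ 2 - 5) * W - 9 * Y = 0 := by
    linear_combination W * hL - Y * hR - 2 * (W * hS - 2 * Y ^ 4 * E)
  have h5 : (7 * Y ^ 4 - 36 * Y ^ 2 - 5) * W - (22 * Y - 16 * Y ^ 8) = 0 := by
    linear_combination hI - (1 / 2 : F) * Y * (28 * Y ^ 2 - 1) * hR - (7 / 2 : F) * Y * hL
  have h6 : (143 * Y ^ 3 + 20 * Y) * W - (80 * Y ^ 9 + 4 * Y ^ 7 - 52 * Y ^ 2 - 5) = 0 := by
    linear_combination hL - 4 * Y * h5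
  have hU : 25 + (-1309) * Y ^ 4 + (-364) * Y ^ 6 + (-20) * Y ^ 7 + (-224) * Y ^ 9 + (-564) * Y
      ^ 11 + 560 * Y ^ 13
      = 0 := by
    linear_combination (143 * Y ^ 3 + 20 * Y) * h5 - (7 * Y ^ 4 - 36 * Y ^ 2 - 5) * h6
  have hV : (-450) + (-6655) * Y ^ 2 + (-25220) * Y ^ 4 + (-1925) * Y ^ 6 + (-200) * Y ^ 7 +
      1274 * Y ^ 8 + (-2632) * Y ^ 9 + (-5520) * Y ^ 11 + 11984 * Y ^ 13 + (-1960) * Y ^ 15 +
      (-64) * Y ^ 16 + (-1280) * Y ^ 18
      = 0 := by
    have h7 : 2 * Y * (80 * Y ^ 9 + 4 * Y ^ 7 - 52 * Y ^ 2 - 5) * W -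
        (7 * Y ^ 2 * (80 * Y ^ 9 + 4 * Y ^ 7 - 52 * Y ^ 2 - 5) -
          (143 * Y ^ 2 + 20) * (9 + 4 * Y ^ 7)) = 0 := by
      linear_combination (143 * Y ^ 2 + 20) * hR + (7 * Y ^ 2 - 2 * Y * W) * h6
    linear_combination (-1 / 2 : F) * (2 * Y * (80 * Y ^ 9 + 4 * Y ^ 7 - 52 * Y ^ 2 - 5)) * h5 +
      (1 / 2 : F) * (7 * Y ^ 4 - 36 * Y ^ 2 - 5) * h7
  have h0 : (931369975119707618652897564639730877963107146265018563937370840000 : F) = 0 := by
    linear_combination ((-1166512314181274832437541361771021238438827889021772524100383966260)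
        + 12813824812673074485905080998309980218802415722783644551177422100 * Y +
        (-9335425080069935765027229978196540359547622401475469014369301274590) * Y ^ 2 +
        94508190002298293900732986508704696372541059044283118581422213000 * Y ^ 3 +
        (-828918445816889197115561329234565654080713773177414771495358737120) * Y ^ 4 +
        (-3789474668087991907877983974117070233780212194439035030168024965) * Y ^ 5 +
        502200525373717349178480411444733528538498062607774260703650009688 * Y ^ 6 +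
        (-570109727654186806136621423318560246512416150426646909382121379614) * Y ^ 7 +
        (-5586774325401530462525136006077864380102742947179247455799802760) * Y ^ 8 +
        (-2763672575914515962673759996015781393615399434326585690704855794560) * Y ^ 9 +
        29266789821104502293652579722345320473415865502176696301135773800 * Y ^ 10 +
        4620721344480372096603103145150587714802212540769068581405671206608 * Y ^ 11 +
        (-51161872558804605437832243422016048089358603319371336130232808160) * Y ^ 12 +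
        (-737266777768796343898294419206097930208990994479359505781461010720) * Y ^ 13 +
        54049662481257231007076844763885042416447576239150650500690691832 * Y ^ 14 +
        (-443358532082373856938067961057883002957162671091930490855859520) * Y ^ 15 +
        (-482030008531592343019014631966438319187887078434587527943489295360) * Y ^ 16 +
        4416531009251294054453761631426281104534757001545314134717689600 * Y ^ 17) * hU +
      ((-66875950732559063176869848019811692975408454159576292592104377770) +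
          711879156259615249216948944350554456600134206821313586176523450 * Y +
          470386278052071491814195753593185128361450449766874448536049115988 * Y ^ 2 +
          (-5277446744111738080045490137634049998578592600641697669931573855) * Y ^ 3 +
          138738789236600713400083191609792283019458518013398908723298186368 * Y ^ 4 +
          666182699344146750454630807317618850729514611671561681727236540 * Y ^ 5 +
          (-1056543055048189908277735366928160310182176760112158429690724200) * Y ^ 6 +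
          47490297645609226003354219919325882296309881197784513370122194968 * Y ^ 7 +
          (-97475478040003660248674119060144158119299695778518940061363480) * Y ^ 8 +
          243626875546698227952754370775749275519766592967480526525321899568 * Y ^ 9 +
          (-2236614949564762062595269487497478824641083781817427377056369980) * Y ^ 10 +
          (-210888128732571650070818901485316764644700596815132043475276566720) * Y ^ 11 +
          1932232316547441148823520713748997983233956188176074933938989200 * Y ^ 12) * hV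
  exact (by norm_num : (931369975119707618652897564639730877963107146265018563937370840000 : F)
      ≠ 0) h0

theorem core7 (x y t : F)
    (h0 : 16 * x ^ 7 * t + 16 * x ^ 3 * y ^ 5 - 4 * x ^ 3 * y ^ 3 * t ^ 2 +
      4 * x * y ^ 4 * t ^ 3 = 0)
    (h1 : 20 * x ^ 4 * y ^ 4 - 3 * x ^ 4 * y ^ 2 * t ^ 2 + 8 * x ^ 2 * y ^ 3 * t ^ 3 -
      16 * y ^ 7 * t - t ^ 8 = 0)
    (h2 : 2 * x ^ 8 - 2 * x ^ 4 * y ^ 3 * t + 6 * x ^ 2 * y ^ 4 * t ^ 2 - 2 * y ^ 8 -
      8 * y * t ^ 7 = 0) : x = 0 ∧ y = 0 ∧ t = 0 := by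
  have z8 : ∀ s : F, s ^ 8 = 0 → s = 0 := fun s hs => pow_eq_zero_iff (n := 8) (by norm_num) |>.1 hs
  by_cases hx : x = 0
  · rw [hx] at h1 h2
    by_cases hy : y = 0
    · refine ⟨hx, hy, z8 t ?_⟩
      rw [hy] at h1
      linear_combination -h1
    · exfalso
      have e2 : y ^ 7 + 4 * t ^ 7 = 0 := by
        have h : y * (y ^ 7 + 4 * t ^ 7) = 0 := by linear_combination (-1 / 2 : F) * h2
        exact (mul_eq_zero.1 h).resolve_left hy
      have e1 : t * y ^ 7 = 0 := by
        linear_combination (-4 / 63 : F) * h1 - (1 / 63 : F) * t * e2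
      have ht : t = 0 := (mul_eq_zero.1 e1).resolve_right (pow_ne_zero 7 hy)
      rw [ht] at e2
      exact (pow_ne_zero 7 hy) (by linear_combination e2)
  · exfalso
    have hE : 4 * x ^ 6 * t + 4 * x ^ 2 * y ^ 5 - x ^ 2 * y ^ 3 * t ^ 2 + y ^ 4 * t ^ 3 = 0 := by
      have h : x * (4 * x ^ 6 * t + 4 * x ^ 2 * y ^ 5 - x ^ 2 * y ^ 3 * t ^ 2 +
          y ^ 4 * t ^ 3) = 0 := by linear_combination (1 / 4 : F) * h0
      exact (mul_eq_zero.1 h).resolve_left hx
    by_cases ht : t = 0
    · rw [ht] at hE h2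
      have h3 : x ^ 2 * y ^ 5 = 0 := by linear_combination (1 / 4 : F) * hE
      have hy : y = 0 := by
        have := (mul_eq_zero.1 h3).resolve_left (pow_ne_zero 2 hx)
        exact pow_eq_zero_iff (n := 5) (by norm_num) |>.1 this
      rw [hy] at h2
      exact hx (z8 x (by linear_combination (1 / 2 : F) * h2))
    by_cases hy : y = 0
    · rw [hy] at hE
      have h3 : x ^ 6 * t = 0 := by linear_combination (1 / 4 : F) * hE
      exact (mul_ne_zero (pow_ne_zero 6 hx) ht) h3
    · obtain ⟨Y, hY⟩ : ∃ Y, Y * t = y := ⟨y / t, div_mul_cancel₀ _ ht⟩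
      obtain ⟨W, hW⟩ : ∃ W, W * t ^ 2 = x ^ 2 :=
        ⟨x ^ 2 / t ^ 2, div_mul_cancel₀ _ (pow_ne_zero 2 ht)⟩
      have hY0 : Y ≠ 0 := fun h => hy (by rw [← hY, h, zero_mul])
      have a6 : x ^ 6 = W ^ 3 * t ^ 6 := by
        have : x ^ 6 = (x ^ 2) ^ 3 := by ring
        rw [this, ← hW]; ring
      have a4 : x ^ 4 = W ^ 2 * t ^ 4 := by
        have : x ^ 4 = (x ^ 2) ^ 2 := by ring
        rw [this, ← hW]; ring
      have a8 : x ^ 8 = W ^ 4 * t ^ 8 := by
        have : x ^ 8 = (x ^ 2) ^ 4 := by ring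
        rw [this, ← hW]; ring
      rw [a6, ← hW, ← hY] at hE
      rw [a4, ← hW, ← hY] at h1
      rw [a8, a4, ← hW, ← hY] at h2
      refine core7_aff Y W hY0 ?_ ?_ ?_
      · have h : t ^ 7 * (4 * W ^ 3 + 4 * W * Y ^ 5 - W * Y ^ 3 + Y ^ 4) = 0 := by
          linear_combination hE
        exact (mul_eq_zero.1 h).resolve_left (pow_ne_zero 7 ht)
      · have h : t ^ 8 * (20 * W ^ 2 * Y ^ 4 - 3 * W ^ 2 * Y ^ 2 + 8 * W * Y ^ 3 -
            16 * Y ^ 7 - 1) = 0 := by
          linear_combination h1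
        exact (mul_eq_zero.1 h).resolve_left (pow_ne_zero 8 ht)
      · have h : t ^ 8 * (W ^ 4 - W ^ 2 * Y ^ 3 + 3 * W * Y ^ 4 - Y ^ 8 - 4 * Y) = 0 := by
          linear_combination (1 / 2 : F) * h2
        exact (mul_eq_zero.1 h).resolve_left (pow_ne_zero 8 ht)

end algebra

end Pool.Agent.Work.D9odd
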