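import Mathlib
import Pool.Agent.Work.MP_b62148_ag.D9.Disc
import Pool.Agent.Work.MP_b62148_ag.D9.Elim
import Pool.Agent.Work.MP_b62148_ag.D9odd.Odd9
import Pool.Agent.Work.MP_b62148_ag.D9odd.DiscAlg

/-!
The odd class: for general parameters the discriminant curve is smooth of degree nine.
-/

namespace Pool.Agent.Work.D9odd

open MvPolynomial Matrix

section basic

variable {S S' : Type*} [CommRing S] [CommRing S']

/-- the discriminant form of the family of quadratic forms in seven variables -/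
noncomputable def disc7 (T0 T1 T2 : Matrix (Fin 6) (Fin 6) S) : MvPolynomial (Fin 3) S :=
  (mat7 (T0.map C) (T1.map C) (T2.map C) X + (mat7 (T0.map C) (T1.map C) (T2.map C) X)ᵀ).det

theorem hom_disc7 (f : MvPolynomial (Fin 3) S →+* S') (T0 T1 T2 : Matrix (Fin 6) (Fin 6) S) :
    f (disc7 T0 T1 T2) = (mat7 (T0.map (f.comp C)) (T1.map (f.comp C)) (T2.map (f.comp C))
      (f ∘ X) + (mat7 (T0.map (f.comp C)) (T1.map (f.comp C)) (T2.map (f.comp C)) (f ∘ X))ᵀ).det := by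
  have h : ∀ T : Matrix (Fin 6) (Fin 6) S, (T.map (C : S →+* MvPolynomial (Fin 3) S)).map f =
      T.map (f.comp C) := fun T => by
    ext i j
    rfl
  unfold disc7
  rw [RingHom.map_det, RingHom.mapMatrix_apply, Matrix.map_add f (map_add f), Matrix.transpose_map,
    map_mat7, h, h, h]

theorem eval_disc7 (T0 T1 T2 : Matrix (Fin 6) (Fin 6) S) (x : Fin 3 → S) :
    eval x (disc7 T0 T1 T2) = (mat7 T0 T1 T2 x + (mat7 T0 T1 T2 x)ᵀ).det := by
  have h := hom_disc7 (eval x) T0 T1 T2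
  have h1 : ∀ T : Matrix (Fin 6) (Fin 6) S, T.map ((eval x).comp C) = T := fun T => by
    ext i j
    simp
  have h2 : (eval x) ∘ (X : Fin 3 → MvPolynomial (Fin 3) S) = x := by
    funext i
    simp
  rw [h1, h1, h1, h2] at h
  exact h

theorem map_disc7 (φ : S →+* S') (T0 T1 T2 : Matrix (Fin 6) (Fin 6) S) :
    map φ (disc7 T0 T1 T2) = disc7 (T0.map φ) (T1.map φ) (T2.map φ) := by
  have h := hom_disc7 (map φ : MvPolynomial (Fin 3) S →+* MvPolynomial (Fin 3) S') T0 T1 T2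
  have h1 : ∀ T : Matrix (Fin 6) (Fin 6) S, T.map ((map φ : MvPolynomial (Fin 3) S →+*
      MvPolynomial (Fin 3) S').comp C) = (T.map φ).map C := fun T => by
    ext i j
    simp
  have h2 : (map φ : MvPolynomial (Fin 3) S →+* MvPolynomial (Fin 3) S') ∘
      (X : Fin 3 → MvPolynomial (Fin 3) S) = X := by
    funext i
    simp
  rw [h1, h1, h1, h2] at h
  exact h

theorem mat7_castSucc (T0 T1 T2 : Matrix (Fin 6) (Fin 6) S) (x : Fin 3 → S) (i j : Fin 6) :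
    mat7 T0 T1 T2 x i.castSucc j.castSucc = x 0 * T1 i j + x 1 * T2 i j + x 2 * T0 i j := by
  simp [mat7]

theorem mat7_last (T0 T1 T2 : Matrix (Fin 6) (Fin 6) S) (x : Fin 3 → S) (i : Fin 6) :
    mat7 T0 T1 T2 x i.castSucc (Fin.last 6) =
      (![0, 0, x 0 ^ 2, x 0 * x 1, x 1 ^ 2, x 2 ^ 2] : Fin 6 → S) i := by
  unfold mat7
  rw [Matrix.of_apply, Fin.snoc_castSucc, Fin.snoc_last]

theorem mat7_zero (T0 T1 T2 : Matrix (Fin 6) (Fin 6) S) (x : Fin 3 → S) (j : Fin 7) :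
    mat7 T0 T1 T2 x (Fin.last 6) j = 0 := by
  unfold mat7
  rw [Matrix.of_apply, Fin.snoc_last]
  rfl

theorem hvec_hom (i : Fin 6) : ((![0, 0, X 0 ^ 2, X 0 * X 1, X 1 ^ 2, X 2 ^ 2] :
    Fin 6 → MvPolynomial (Fin 3) S) i).IsHomogeneous 2 := by
  have h : ∀ j : Fin 3, ((X j : MvPolynomial (Fin 3) S) ^ 2).IsHomogeneous 2 := fun j =>
    isHomogeneous_X_pow j 2
  fin_cases i
  · exact isHomogeneous_zero _ _ _
  · exact isHomogeneous_zero _ _ _
  · exact h 0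
  · exact (isHomogeneous_X S 0).mul (isHomogeneous_X S 1)
  · exact h 1
  · exact h 2

theorem disc7_hom (T0 T1 T2 : Matrix (Fin 6) (Fin 6) S) : (disc7 T0 T1 T2).IsHomogeneous 9 := by
  unfold disc7
  refine D9.DS.det_hom' _ (Fin.snoc (α := fun _ => ℤ) (fun _ => 1) 2)
    (Fin.snoc (α := fun _ => ℤ) (fun _ => 0) 1) 9 ?_ ?_
  · rw [Fin.sum_univ_castSucc, Fin.sum_univ_castSucc]
    simp only [Fin.snoc_castSucc, Fin.snoc_last, Finset.sum_const, Finset.card_univ,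
      Fintype.card_fin]
    norm_num
  · intro a b
    refine Fin.lastCases ?_ (fun i => ?_) a
    · refine Fin.lastCases ?_ (fun j => ?_) b
      · left
        rw [Matrix.add_apply, Matrix.transpose_apply, mat7_zero, add_zero]
      · right
        refine ⟨2, ?_, by rw [Fin.snoc_last, Fin.snoc_castSucc]; norm_num⟩
        rw [Matrix.add_apply, Matrix.transpose_apply, mat7_zero, zero_add, mat7_last]
        exact hvec_hom j
    · refine Fin.lastCases ?_ (fun j => ?_) b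
      · right
        refine ⟨2, ?_, by rw [Fin.snoc_last, Fin.snoc_castSucc]; norm_num⟩
        rw [Matrix.add_apply, Matrix.transpose_apply, mat7_zero, add_zero, mat7_last]
        exact hvec_hom i
      · right
        refine ⟨1, ?_, by simp⟩
        rw [Matrix.add_apply, Matrix.transpose_apply, mat7_castSucc, mat7_castSucc]
        have h : ∀ (l : Fin 3) (s : S), (X l * C s : MvPolynomial (Fin 3) S).IsHomogeneous 1 :=
          fun l s => (isHomogeneous_X S l).mul (isHomogeneous_C _ _)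
        simp only [Matrix.map_apply]
        exact (((h 0 _).add (h 1 _)).add (h 2 _)).add (((h 0 _).add (h 1 _)).add (h 2 _))

end basic

section witness

/-- the witness -/
def u0 (R : Type*) [CommRing R] : Matrix (Fin 6) (Fin 6) R :=
  !![-2, 0, 0, 0, 0, 0; 0, 2, 0, 0, 0, 0; 0, 0, 0, 2, 0, 0; 0, 0, 0, 0, 0, 0; 0, 0, 0, 0, 0, 0;
    0, 0, 0, 0, 0, 0]

/-- the witness -/
def u1 (R : Type*) [CommRing R] : Matrix (Fin 6) (Fin 6) R :=
  !![0, 0, 0, 0, 0, 0; 0, 0, 0, 0, 0, 4; 0, 0, 0, 0, 0, 0; 0, 0, 0, 0, 2, 0; 0, 0, 0, 0, 0, 0;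
    0, 0, 0, 0, 0, 0]

/-- the witness -/
def u2 (R : Type*) [CommRing R] : Matrix (Fin 6) (Fin 6) R :=
  !![0, 0, 4, 0, 0, 0; 0, 0, 0, 0, 0, 0; 0, 0, 0, 0, 0, 0; 0, 0, 0, 0, 0, 2; 0, 0, 0, 0, 1, 0;
    0, 0, 0, 0, 0, 0]

variable {R : Type*} [CommRing R]

theorem det_w (x y t : R) :
    (!![-4 * t, 0, 4 * y, 0, 0, 0, 0; 0, 4 * t, 0, 0, 0, 4 * x, 0; 4 * y, 0, 0, 2 * t, 0, 0, x ^ 2;
      0, 0, 2 * t, 0, 2 * x, 2 * y, x * y; 0, 0, 0, 2 * x, 2 * y, 0, y ^ 2;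
      0, 4 * x, 0, 2 * y, 0, 0, t ^ 2; 0, 0, x ^ 2, x * y, y ^ 2, t ^ 2, 0] :
      Matrix (Fin 7) (Fin 7) R).det =
      128 * (2 * x ^ 8 * t + 4 * x ^ 4 * y ^ 5 - x ^ 4 * y ^ 3 * t ^ 2 + 2 * x ^ 2 * y ^ 4 * t ^ 3 -
        2 * y ^ 8 * t - y * t ^ 8) := by
  simp [Matrix.det_succ_row_zero, Fin.sum_univ_succ, Fin.succAbove]
  ring

theorem mat_w (x : Fin 3 → R) : mat7 (u0 R) (u1 R) (u2 R) x + (mat7 (u0 R) (u1 R) (u2 R) x)ᵀ =
    !![-4 * x 2, 0, 4 * x 1, 0, 0, 0, 0; 0, 4 * x 2, 0, 0, 0, 4 * x 0, 0;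
      4 * x 1, 0, 0, 2 * x 2, 0, 0, x 0 ^ 2; 0, 0, 2 * x 2, 0, 2 * x 0, 2 * x 1, x 0 * x 1;
      0, 0, 0, 2 * x 0, 2 * x 1, 0, x 1 ^ 2; 0, 4 * x 0, 0, 2 * x 1, 0, 0, x 2 ^ 2;
      0, 0, x 0 ^ 2, x 0 * x 1, x 1 ^ 2, x 2 ^ 2, 0] := by
  have h6 : (6 : Fin 7) = Fin.last 6 := rfl
  have h0 : (0 : Fin 7) = (0 : Fin 6).castSucc := rfl
  have h1 : (1 : Fin 7) = (1 : Fin 6).castSucc := rfl
  have h2 : (2 : Fin 7) = (2 : Fin 6).castSucc := rfl
  have h3 : (3 : Fin 7) = (3 : Fin 6).castSucc := rfl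
  have h4 : (4 : Fin 7) = (4 : Fin 6).castSucc := rfl
  have h5 : (5 : Fin 7) = (5 : Fin 6).castSucc := rfl
  ext i j
  rw [Matrix.add_apply, Matrix.transpose_apply]
  refine Fin.lastCases ?_ (fun i => ?_) i
  · refine Fin.lastCases ?_ (fun j => ?_) j
    · rw [mat7_zero, add_zero]
      rfl
    · rw [mat7_zero, zero_add, mat7_last]
      fin_cases j <;> rfl
  · refine Fin.lastCases ?_ (fun j => ?_) j
    · rw [mat7_zero, add_zero, mat7_last]
      fin_cases i <;> rfl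
    · rw [mat7_castSucc, mat7_castSucc]
      fin_cases i <;> fin_cases j <;> simp [u0, u1, u2] <;> try ring

variable {R' : Type*} [CommRing R'] (φ : R →+* R')

theorem u0_map : (u0 R).map φ = u0 R' := by
  refine Matrix.ext fun i j => ?_
  fin_cases i <;> fin_cases j <;> simp [u0] <;> exact map_ofNat φ 2

theorem u1_map : (u1 R).map φ = u1 R' := by
  refine Matrix.ext fun i j => ?_
  fin_cases i <;> fin_cases j <;> simp [u1] <;>
    first | exact map_ofNat φ 2 | exact map_ofNat φ 4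

theorem u2_map : (u2 R).map φ = u2 R' := by
  refine Matrix.ext fun i j => ?_
  fin_cases i <;> fin_cases j <;> simp [u2] <;>
    first | exact map_ofNat φ 2 | exact map_ofNat φ 4

end witness

section smooth

variable {F : Type*} [Field F] [CharZero F]

theorem disc_w (F : Type*) [Field F] : disc7 (u0 F) (u1 F) (u2 F) =
    128 * (2 * X 0 ^ 8 * X 2 + 4 * X 0 ^ 4 * X 1 ^ 5 - X 0 ^ 4 * X 1 ^ 3 * X 2 ^ 2 +
      2 * X 0 ^ 2 * X 1 ^ 4 * X 2 ^ 3 - 2 * X 1 ^ 8 * X 2 - X 1 * X 2 ^ 8) := by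
  unfold disc7
  rw [u0_map, u1_map, u2_map, mat_w, det_w]

theorem disc_w_smooth (x : Fin 3 → F)
    (h : ∀ j, eval x (pderiv j (disc7 (u0 F) (u1 F) (u2 F))) = 0) : x = 0 := by
  have n : ∀ (m : ℕ) (j : Fin 3), pderiv j ((m : ℕ) : MvPolynomial (Fin 3) F) = 0 := fun m j =>
    Derivation.map_natCast _ _
  have n2 : ∀ j : Fin 3, pderiv j (2 : MvPolynomial (Fin 3) F) = 0 := fun j => n 2 j
  have n4 : ∀ j : Fin 3, pderiv j (4 : MvPolynomial (Fin 3) F) = 0 := fun j => n 4 j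
  have n128 : ∀ j : Fin 3, pderiv j (128 : MvPolynomial (Fin 3) F) = 0 := fun j => n 128 j
  rw [disc_w] at h
  have e0 := h 0
  have e1 := h 1
  have e2 := h 2
  simp [Derivation.leibniz, Derivation.leibniz_pow, pderiv_X, n2, n4, n128] at e0 e1 e2
  obtain ⟨a, b, c⟩ := core7 (x 0) (x 1) (x 2) (by linear_combination e0)
    (by linear_combination e1) (by linear_combination e2)
  funext j
  fin_cases j
  · exact a
  · exact b
  · exact c

end smooth

section generic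

/-- the generic matrices -/
noncomputable def gS (R : Type*) [CommRing R] (i : Fin 3) :
    Matrix (Fin 6) (Fin 6) (MvPolynomial (Fin 3 × Fin 6 × Fin 6) R) :=
  Matrix.of fun r c => X (i, r, c)

theorem gS_map {R K : Type*} [CommRing R] [CommRing K]
    (φ : MvPolynomial (Fin 3 × Fin 6 × Fin 6) R →+* K) (T0 T1 T2 : Matrix (Fin 6) (Fin 6) K)
    (h : ∀ s, φ (X s) = par6 T0 T1 T2 s) (i : Fin 3) : (gS R i).map φ = ![T0, T1, T2] i := by
  refine Matrix.ext fun r c => ?_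
  show φ (X (i, r, c)) = _
  rw [h]
  rfl

theorem eval₂_pd7 {R K : Type*} [CommRing R] [CommRing K]
    (φ : MvPolynomial (Fin 3 × Fin 6 × Fin 6) R →+* K) (T0 T1 T2 : Matrix (Fin 6) (Fin 6) K)
    (h : ∀ s, φ (X s) = par6 T0 T1 T2 s) (x : Fin 3 → K) (j : Fin 3) :
    eval₂ φ x (pderiv j (disc7 (gS R 0) (gS R 1) (gS R 2))) =
      eval x (pderiv j (disc7 T0 T1 T2)) := by
  have h1 := map_disc7 φ (gS R 0) (gS R 1) (gS R 2)
  rw [gS_map φ T0 T1 T2 h, gS_map φ T0 T1 T2 h, gS_map φ T0 T1 T2 h] at h1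
  have h2 : map φ (disc7 (gS R 0) (gS R 1) (gS R 2)) = disc7 T0 T1 T2 := h1
  rw [← h2, pderiv_map, eval_map]

/-- **The discriminant curve is smooth for general parameters.** -/
theorem disc7_generic : ∃ Φ : MvPolynomial (Fin 3 × Fin 6 × Fin 6) ℚ, Φ ≠ 0 ∧
    ∀ (Ω : Type*) [Field Ω] [Algebra ℚ Ω] (T0 T1 T2 : Matrix (Fin 6) (Fin 6) Ω),
      aeval (par6 T0 T1 T2) Φ ≠ 0 →
      ∀ x : Fin 3 → Ω, x ≠ 0 → ∃ j, eval x (pderiv j (disc7 T0 T1 T2)) ≠ 0 := by
  obtain ⟨Φ, h1, h2⟩ := D9.EL.elim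
    (fun j : Fin 3 => pderiv j (disc7 (gS ℚ 0) (gS ℚ 1) (gS ℚ 2))) (fun _ => 8)
    (fun j => (disc7_hom (gS ℚ 0) (gS ℚ 1) (gS ℚ 2)).pderiv) (par6 (u0 ℚ) (u1 ℚ) (u2 ℚ))
    (AlgebraicClosure ℚ) (by
      intro x hx
      apply disc_w_smooth
      intro j
      have h3 := hx j
      rw [aeval_def, eval₂_map] at h3
      rw [← h3]
      symm
      apply eval₂_pd7
      intro s
      rw [RingHom.comp_apply, eval_X]
      obtain ⟨i, r, c⟩ := s
      have e0 := congrFun (congrFun (u0_map (algebraMap ℚ (AlgebraicClosure ℚ))) r) c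
      have e1 := congrFun (congrFun (u1_map (algebraMap ℚ (AlgebraicClosure ℚ))) r) c
      have e2 := congrFun (congrFun (u2_map (algebraMap ℚ (AlgebraicClosure ℚ))) r) c
      fin_cases i
      · exact e0
      · exact e1
      · exact e2)
  refine ⟨Φ, ?_, ?_⟩
  · intro h0
    rw [h0, map_zero] at h1
    exact zero_ne_one h1
  · intro Ω _ _ T0 T1 T2 hΦ x hx
    by_contra hcon
    push Not at hcon
    apply hx
    refine h2 Ω (aeval (par6 T0 T1 T2)).toRingHom hΦ x fun j => ?_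
    rw [← hcon j]
    apply eval₂_pd7
    intro s
    exact aeval_X _ _

universe u v

/-- the same over a subfield, and the discriminant form is not zero -/
theorem disc7_geo : ∃ Φ : MvPolynomial (Fin 3 × Fin 6 × Fin 6) ℚ, Φ ≠ 0 ∧
    ∀ (k : Type u) (Ω : Type v) [Field k] [CharZero k] [Field Ω] [Algebra k Ω]
      (T0 T1 T2 : Matrix (Fin 6) (Fin 6) k), aeval (par6 T0 T1 T2) Φ ≠ 0 →
      disc7 T0 T1 T2 ≠ 0 ∧ ∀ x : Fin 3 → Ω, x ≠ 0 →
        ∃ j, aeval x (pderiv j (disc7 T0 T1 T2)) ≠ 0 := by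
  obtain ⟨Φ, h0, h1⟩ := disc7_generic.{u}
  obtain ⟨Φ', h0', h1'⟩ := disc7_generic.{v}
  refine ⟨Φ * Φ', mul_ne_zero h0 h0', ?_⟩
  intro k Ω _ _ _ _ T0 T1 T2 hΦ
  rw [map_mul] at hΦ
  constructor
  · intro hd
    obtain ⟨j, hj⟩ := h1 k T0 T1 T2 (left_ne_zero_of_mul hΦ) ![1, 0, 0] (fun h => by
      have := congrFun h 0
      simp at this)
    apply hj
    rw [hd, map_zero, map_zero]
  · intro x hx
    let _ : Algebra ℚ Ω := ((algebraMap k Ω).comp (algebraMap ℚ k)).toAlgebra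
    have h2 : aeval (par6 (T0.map (algebraMap k Ω)) (T1.map (algebraMap k Ω))
        (T2.map (algebraMap k Ω))) Φ' = algebraMap k Ω (aeval (par6 T0 T1 T2) Φ') := by
      rw [aeval_def, aeval_def, eval₂_comp_left (algebraMap k Ω)]
      congr 1
      funext s
      obtain ⟨i, r, c⟩ := s
      fin_cases i <;> rfl
    obtain ⟨j, hj⟩ := h1' Ω (T0.map (algebraMap k Ω)) (T1.map (algebraMap k Ω))
      (T2.map (algebraMap k Ω)) (by
        rw [h2]
        exact (map_ne_zero _).2 (right_ne_zero_of_mul hΦ)) x hx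
    refine ⟨j, ?_⟩
    rw [← map_disc7, pderiv_map, eval_map] at hj
    rw [aeval_def]
    exact hj

end generic

end Pool.Agent.Work.D9odd
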