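import Mathlib
import Pool.Agent.Work.MP_b62148_ag.D9odd.Odd9
import Pool.Agent.Work.MP_b62148_ag.D9odd.DiscOdd

/-!
The determinant of a conic bundle of the odd class is, up to a factor and a square, the form of
degree nine.
-/

namespace Pool.Agent.Work.D9odd

open Matrix MvPolynomial

theorem det_mat3 {S : Type*} [CommRing S] (Q : Matrix (Fin 3) (Fin 3) S) :
    (mat3 Q + (mat3 Q)ᵀ).det = (Q + Qᵀ).det := by
  have h : mat3 Q + (mat3 Q)ᵀ = (fromBlocks (Q + Qᵀ) 0 0
      (!![0, 1, 0, 0; 1, 0, 0, 0; 0, 0, 0, 1; 0, 0, 1, 0] : Matrix (Fin 4) (Fin 4) S)).submatrix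
        (finSumFinEquiv (m := 3) (n := 4)).symm (finSumFinEquiv (m := 3) (n := 4)).symm := by
    ext i j
    fin_cases i <;> fin_cases j <;> simp [mat3] <;> rfl
  rw [h, det_submatrix_equiv_self, det_fromBlocks_zero₂₁]
  have h4 : (!![0, 1, 0, 0; 1, 0, 0, 0; 0, 0, 0, 1; 0, 0, 1, 0] : Matrix (Fin 4) (Fin 4) S).det
      = 1 := by
    simp [Matrix.det_succ_row_zero, Fin.sum_univ_succ]
    rfl
  rw [h4, mul_one]

/-- **The determinant of a conic bundle of the class.** -/
theorem det_of_iso {k : Type*} [Field k] [CharZero k] {T0 T1 T2 : Matrix (Fin 6) (Fin 6) k}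
    {Q : Matrix (Fin 3) (Fin 3) (MvPolynomial (Fin 3) k)}
    (P : Matrix (Fin 7) (Fin 7) (MvPolynomial (Fin 3) k)) (c : MvPolynomial (Fin 3) k)
    (hi : ∀ y : Fin 7 → MvPolynomial (Fin 3) k,
      form7 (T0.map C) (T1.map C) (T2.map C) X (P *ᵥ y) = c * form3 Q y) :
    P.det ^ 2 * disc7 T0 T1 T2 = c ^ 7 * (Q + Qᵀ).det := by
  set M := mat7 (T0.map C) (T1.map C) (T2.map C) (X : Fin 3 → MvPolynomial (Fin 3) k) with hM
  set N := Pᵀ * M * P - c • mat3 Q with hN
  have h1 : N + Nᵀ = 0 := by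
    apply add_transpose_zero
    intro y
    have := hi y
    rw [bf_mat7, bf_mat3] at this
    have e : bf N y y = bf (Pᵀ * M * P) y y - c * bf (mat3 Q) y y := by
      rw [hN]
      simp only [bf, Matrix.sub_mulVec, dotProduct_sub, Matrix.smul_mulVec, dotProduct_smul,
        smul_eq_mul]
    rw [e, bf_congr, this, sub_self]
  have h2 : Pᵀ * (M + Mᵀ) * P = c • (mat3 Q + (mat3 Q)ᵀ) := by
    have h3 : N + Nᵀ = Pᵀ * (M + Mᵀ) * P - c • (mat3 Q + (mat3 Q)ᵀ) := by
      rw [hN, Matrix.transpose_sub, Matrix.transpose_mul, Matrix.transpose_mul,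
        Matrix.transpose_transpose, Matrix.transpose_smul, smul_add, Matrix.mul_add,
        Matrix.add_mul, Matrix.mul_assoc Pᵀ Mᵀ P]
      abel
    rw [h3] at h1
    exact sub_eq_zero.mp h1
  have h3 := congrArg Matrix.det h2
  rw [det_mul, det_mul, det_transpose, det_smul, det_mat3, Fintype.card_fin] at h3
  rw [← h3]
  unfold disc7
  ring

end Pool.Agent.Work.D9odd
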