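import Mathlib
import Pool.Agent.Work.MP_b62148_ag.D9odd.Form

/-!
A non degenerate quadratic form in seven variables with a totally isotropic plane is the sum of a
ternary form and two hyperbolic planes.
-/

namespace Pool.Agent.Work.D9odd

open Matrix

variable {K : Type*} [Field K]

theorem mulVec_cols {n : Type*} [Fintype n] {m : Type*} (w : n → (m → K)) (y : n → K) :
    (Matrix.of w)ᵀ *ᵥ y = ∑ j, y j • w j := by
  ext i
  simp [Matrix.mulVec, dotProduct, mul_comm]

/-- the linear functional `v ↦ F(a, v)` -/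
noncomputable def fnl {n : Type*} [Fintype n] (F : Matrix n n K) (a : n → K) :
    (n → K) →ₗ[K] K where
  toFun := fun v => bf F a v
  map_add' := fun v v' => bf_add_right F a v v'
  map_smul' := fun c v => bf_smul_right F c a v

theorem fnl_apply {n : Type*} [Fintype n] (F : Matrix n n K) (a v : n → K) :
    fnl F a v = bf F a v := rfl

/-- dual vectors -/
theorem exists_dual {n : Type*} [Fintype n] [DecidableEq n] (F : Matrix n n K) (hs : Fᵀ = F)
    (hd : F.det ≠ 0) (a e : n → K) (hind : LinearIndependent K ![a, e]) (s t : K) :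
    ∃ v, bf F a v = s ∧ bf F e v = t := by
  classical
  have hinj : Function.Injective F.mulVec := inj_of_det F hd
  -- the functionals are independent
  have h1 : LinearIndependent K ![F *ᵥ a, F *ᵥ e] := lin_indep_map F hinj a e hind
  obtain ⟨i, j, hij⟩ : ∃ i j, (F *ᵥ a) i * (F *ᵥ e) j - (F *ᵥ a) j * (F *ᵥ e) i ≠ 0 := by
    by_contra hcon
    push Not at hcon
    have ha0 : F *ᵥ a ≠ 0 := h1.ne_zero 0
    obtain ⟨i, hi⟩ : ∃ i, (F *ᵥ a) i ≠ 0 := by
      by_contra h
      push Not at h
      exact ha0 (funext h)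
    have h2 := (LinearIndependent.pair_iff.mp h1) (-(F *ᵥ e) i) ((F *ᵥ a) i) (by
      funext j
      have := hcon i j
      simp only [Pi.add_apply, Pi.smul_apply, smul_eq_mul, Pi.zero_apply]
      linear_combination this)
    exact hi h2.2
  set D := (F *ᵥ a) i * (F *ᵥ e) j - (F *ᵥ a) j * (F *ᵥ e) i with hD
  have hb : ∀ (u : n → K) (l : n), bf F u (Pi.single l 1) = (F *ᵥ u) l := by
    intro u l
    rw [bf_comm hs, bf, single_one_dotProduct]
  refine ⟨((s * (F *ᵥ e) j - t * (F *ᵥ a) j) / D) • Pi.single i 1 +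
    ((t * (F *ᵥ a) i - s * (F *ᵥ e) i) / D) • Pi.single j 1, ?_, ?_⟩
  · rw [bf_add_right, bf_smul_right, bf_smul_right, hb, hb]
    field_simp
    rw [hD]; ring
  · rw [bf_add_right, bf_smul_right, bf_smul_right, hb, hb]
    field_simp
    rw [hD]; ring

theorem split_two (h2 : (2 : K) ≠ 0) (F : Matrix (Fin 7) (Fin 7) K) (hs : Fᵀ = F)
    (hd : F.det ≠ 0) (a e : Fin 7 → K) (hind : LinearIndependent K ![a, e]) (haa : bf F a a = 0)
    (hae : bf F a e = 0) (hee : bf F e e = 0) :
    ∃ (P : Matrix (Fin 7) (Fin 7) K) (Q : Matrix (Fin 3) (Fin 3) K), P.det ≠ 0 ∧ Qᵀ = Q ∧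
      Q.det ≠ 0 ∧ ∀ y : Fin 7 → K, bf F (P *ᵥ y) (P *ᵥ y) =
        bf Q ![y 0, y 1, y 2] ![y 0, y 1, y 2] + y 3 * y 4 + y 5 * y 6 := by
  classical
  have hea : bf F e a = 0 := by rw [bf_comm hs]; exact hae
  obtain ⟨c1, h11, h21⟩ := exists_dual F hs hd a e hind 1 0
  obtain ⟨c2, h12, h22⟩ := exists_dual F hs hd a e hind 0 1
  have h11' : bf F c1 a = 1 := by rw [bf_comm hs]; exact h11
  have h21' : bf F c1 e = 0 := by rw [bf_comm hs]; exact h21
  have h12' : bf F c2 a = 0 := by rw [bf_comm hs]; exact h12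
  have h22' : bf F c2 e = 1 := by rw [bf_comm hs]; exact h22
  have hc21 : bf F c2 c1 = bf F c1 c2 := bf_comm hs _ _
  set b1 : Fin 7 → K := c1 - (bf F c1 c1 / 2) • a - (bf F c1 c2 / 2) • e with hb1
  set b2 : Fin 7 → K := c2 - (bf F c1 c2 / 2) • a - (bf F c2 c2 / 2) • e with hb2
  have ab1 : bf F a b1 = 1 := by
    rw [hb1, bf_sub_right, bf_sub_right, bf_smul_right, bf_smul_right, haa, hae, h11]; ring
  have eb1 : bf F e b1 = 0 := by
    rw [hb1, bf_sub_right, bf_sub_right, bf_smul_right, bf_smul_right, hea, hee, h21]; ring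
  have ab2 : bf F a b2 = 0 := by
    rw [hb2, bf_sub_right, bf_sub_right, bf_smul_right, bf_smul_right, haa, hae, h12]; ring
  have eb2 : bf F e b2 = 1 := by
    rw [hb2, bf_sub_right, bf_sub_right, bf_smul_right, bf_smul_right, hea, hee, h22]; ring
  have ba1 : bf F b1 a = 1 := by rw [bf_comm hs]; exact ab1
  have be1 : bf F b1 e = 0 := by rw [bf_comm hs]; exact eb1
  have ba2 : bf F b2 a = 0 := by rw [bf_comm hs]; exact ab2
  have be2 : bf F b2 e = 1 := by rw [bf_comm hs]; exact eb2
  have l1 : ∀ v, bf F b1 v = bf F c1 v - bf F c1 c1 / 2 * bf F a v - bf F c1 c2 / 2 * bf F e v := by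
    intro v
    rw [hb1, bf_sub_left, bf_sub_left, bf_smul_left, bf_smul_left]
  have l2 : ∀ v, bf F b2 v = bf F c2 v - bf F c1 c2 / 2 * bf F a v - bf F c2 c2 / 2 * bf F e v := by
    intro v
    rw [hb2, bf_sub_left, bf_sub_left, bf_smul_left, bf_smul_left]
  have b11 : bf F b1 b1 = 0 := by
    rw [l1, ab1, eb1]
    rw [hb1, bf_sub_right, bf_sub_right, bf_smul_right, bf_smul_right, h11', h21']
    field_simp
    ring
  have b12 : bf F b1 b2 = 0 := by
    rw [l1, ab2, eb2]
    rw [hb2, bf_sub_right, bf_sub_right, bf_smul_right, bf_smul_right, h11', h21']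
    field_simp
    ring
  have b21 : bf F b2 b1 = 0 := by rw [bf_comm hs]; exact b12
  have b22 : bf F b2 b2 = 0 := by
    rw [l2, ab2, eb2]
    rw [hb2, bf_sub_right, bf_sub_right, bf_smul_right, bf_smul_right, h12', h22']
    field_simp
    ring
  -- the orthogonal complement
  set φ : (Fin 7 → K) →ₗ[K] (Fin 4 → K) :=
    LinearMap.pi ![fnl F a, fnl F e, fnl F b1, fnl F b2] with hφ
  have hφ0 : ∀ v, φ v 0 = bf F a v := fun v => rfl
  have hφ1 : ∀ v, φ v 1 = bf F e v := fun v => rfl
  have hφ2 : ∀ v, φ v 2 = bf F b1 v := fun v => rfl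
  have hφ3 : ∀ v, φ v 3 = bf F b2 v := fun v => rfl
  have hsurj : Function.Surjective φ := by
    intro z
    refine ⟨z 0 • b1 + z 1 • b2 + z 2 • a + z 3 • e, ?_⟩
    funext i
    fin_cases i
    · show φ _ 0 = z 0
      rw [hφ0]
      simp only [bf_add_right, bf_smul_right, ab1, ab2, haa, hae]; ring
    · show φ _ 1 = z 1
      rw [hφ1]
      simp only [bf_add_right, bf_smul_right, eb1, eb2, hea, hee]; ring
    · show φ _ 2 = z 2
      rw [hφ2]
      simp only [bf_add_right, bf_smul_right, b11, b12, ba1, be1]; ring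
    · show φ _ 3 = z 3
      rw [hφ3]
      simp only [bf_add_right, bf_smul_right, b21, b22, ba2, be2]; ring
  have hrank : Module.finrank K (LinearMap.ker φ) = 3 := by
    have h := LinearMap.finrank_range_add_finrank_ker φ
    rw [LinearMap.range_eq_top.mpr hsurj, finrank_top] at h
    simp at h
    omega
  set β := Module.finBasisOfFinrankEq K (LinearMap.ker φ) hrank with hβ
  set w : Fin 3 → (Fin 7 → K) := fun i => (β i : Fin 7 → K) with hw
  have hwk : ∀ i, φ (w i) = 0 := fun i => (β i).2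
  have wa : ∀ i, bf F a (w i) = 0 := fun i => by rw [← hφ0, hwk]; rfl
  have we : ∀ i, bf F e (w i) = 0 := fun i => by rw [← hφ1, hwk]; rfl
  have wb1 : ∀ i, bf F b1 (w i) = 0 := fun i => by rw [← hφ2, hwk]; rfl
  have wb2 : ∀ i, bf F b2 (w i) = 0 := fun i => by rw [← hφ3, hwk]; rfl
  have wa' : ∀ i, bf F (w i) a = 0 := fun i => by rw [bf_comm hs]; exact wa i
  have we' : ∀ i, bf F (w i) e = 0 := fun i => by rw [bf_comm hs]; exact we i
  have wb1' : ∀ i, bf F (w i) b1 = 0 := fun i => by rw [bf_comm hs]; exact wb1 i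
  have wb2' : ∀ i, bf F (w i) b2 = 0 := fun i => by rw [bf_comm hs]; exact wb2 i
  have hwind : LinearIndependent K w := by
    have := β.linearIndependent
    exact this.map' (LinearMap.ker φ).subtype (Submodule.ker_subtype _)
  set V : Fin 7 → (Fin 7 → K) := ![w 0, w 1, w 2, a, (2 : K)⁻¹ • b1, e, (2 : K)⁻¹ • b2] with hV
  set P : Matrix (Fin 7) (Fin 7) K := (Matrix.of V)ᵀ with hP
  have hPy : ∀ y : Fin 7 → K, P *ᵥ y = y 0 • w 0 + y 1 • w 1 + y 2 • w 2 + y 3 • a +
      y 4 • ((2 : K)⁻¹ • b1) + y 5 • e + y 6 • ((2 : K)⁻¹ • b2) := by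
    intro y
    rw [hP, mulVec_cols, Fin.sum_univ_seven]
    rfl
  have hPinj : ∀ y : Fin 7 → K, P *ᵥ y = 0 → y = 0 := by
    intro y hy
    rw [hPy] at hy
    have e4 : y 4 = 0 := by
      have h := congrArg (bf F a) hy
      simp only [bf_add_right, bf_smul_right, wa, haa, ab1, hae, ab2] at h
      have h0 : bf F a 0 = 0 := by simp [bf]
      rw [h0] at h
      have h3 : y 4 * (2 : K)⁻¹ = 0 := by linear_combination h
      exact (mul_eq_zero.mp h3).resolve_right (inv_ne_zero h2)
    have e6 : y 6 = 0 := by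
      have h := congrArg (bf F e) hy
      simp only [bf_add_right, bf_smul_right, we, hea, eb1, hee, eb2] at h
      have h0 : bf F e 0 = 0 := by simp [bf]
      rw [h0] at h
      have h3 : y 6 * (2 : K)⁻¹ = 0 := by linear_combination h
      exact (mul_eq_zero.mp h3).resolve_right (inv_ne_zero h2)
    have e3 : y 3 = 0 := by
      have h := congrArg (bf F b1) hy
      simp only [bf_add_right, bf_smul_right, wb1, ba1, b11, be1, b12] at h
      have h0 : bf F b1 0 = 0 := by simp [bf]
      rw [h0] at h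
      linear_combination h
    have e5 : y 5 = 0 := by
      have h := congrArg (bf F b2) hy
      simp only [bf_add_right, bf_smul_right, wb2, ba2, b21, be2, b22] at h
      have h0 : bf F b2 0 = 0 := by simp [bf]
      rw [h0] at h
      linear_combination h
    rw [e3, e4, e5, e6] at hy
    simp only [zero_smul, add_zero] at hy
    have h3 := Fintype.linearIndependent_iff.mp hwind ![y 0, y 1, y 2] (by
      rw [Fin.sum_univ_three]; exact hy)
    funext i
    fin_cases i
    · exact h3 0
    · exact h3 1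
    · exact h3 2
    · exact e3
    · exact e4
    · exact e5
    · exact e6
  have hPdet : P.det ≠ 0 := by
    intro h
    obtain ⟨v, hv, hv0⟩ := Matrix.exists_mulVec_eq_zero_iff.mpr h
    exact hv (hPinj v hv0)
  set Q : Matrix (Fin 3) (Fin 3) K := Matrix.of fun i j => bf F (w i) (w j) with hQ
  have hQsum : ∀ u v : Fin 3 → K, bf Q u v = bf F (∑ i, u i • w i) (∑ i, v i • w i) := by
    intro u v
    simp only [Fin.sum_univ_three, bf_add_left, bf_add_right, bf_smul_left, bf_smul_right]
    simp only [hQ, bf, Matrix.mulVec, dotProduct, Fin.sum_univ_three, Matrix.of_apply]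
    ring
  refine ⟨P, Q, hPdet, ?_, ?_, ?_⟩
  · ext i j
    rw [Matrix.transpose_apply]
    exact bf_comm hs _ _
  · intro h
    obtain ⟨u, hu, hu0⟩ := Matrix.exists_mulVec_eq_zero_iff.mpr h
    apply hu
    -- `u` gives a vector in the radical of `F`
    set v : Fin 7 → K := ∑ i, u i • w i with hv
    have hrad : ∀ v' : Fin 7 → K, bf F v' v = 0 := by
      intro v'
      have hP' : ∃ y, P *ᵥ y = v' := by
        refine ⟨P⁻¹ *ᵥ v', ?_⟩
        rw [Matrix.mulVec_mulVec, Matrix.mul_nonsing_inv _ (isUnit_iff_ne_zero.mpr hPdet),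
          Matrix.one_mulVec]
      obtain ⟨y, rfl⟩ := hP'
      have hw3 : ∀ z : Fin 7 → K, (∀ i, bf F z (w i) = 0) → bf F z v = 0 := by
        intro z hz
        rw [hv, Fin.sum_univ_three, bf_add_right, bf_add_right, bf_smul_right, bf_smul_right,
          bf_smul_right, hz, hz, hz]
        ring
      have hQu : ∀ i, bf F (w i) v = 0 := by
        intro i
        have h3 := hQsum (Pi.single i 1) u
        have h4 : (∑ j, (Pi.single i (1 : K) : Fin 3 → K) j • w j) = w i := by
          rw [Finset.sum_eq_single i]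
          · rw [Pi.single_eq_same, one_smul]
          · intro j _ hj
            rw [Pi.single_eq_of_ne hj, zero_smul]
          · intro hi
            exact absurd (Finset.mem_univ i) hi
        rw [h4] at h3
        rw [hv, ← h3, bf, hu0, dotProduct_zero]
      rw [hPy]
      simp only [bf_add_left, bf_smul_left, hQu, hw3 a wa, hw3 e we, hw3 b1 wb1, hw3 b2 wb2]
      ring
    have hv0 : F *ᵥ v = 0 := by
      funext i
      have := hrad (Pi.single i 1)
      rw [bf, single_one_dotProduct] at this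
      exact this
    have hv1 : v = 0 := inj_of_det F hd (by rw [hv0, Matrix.mulVec_zero])
    exact funext (Fintype.linearIndependent_iff.mp hwind u hv1)
  · intro y
    have h3 : bf Q ![y 0, y 1, y 2] ![y 0, y 1, y 2] =
        bf F (y 0 • w 0 + y 1 • w 1 + y 2 • w 2) (y 0 • w 0 + y 1 • w 1 + y 2 • w 2) := by
      rw [hQsum]
      simp [Fin.sum_univ_three]
    rw [h3, hPy]
    simp only [bf_add_left, bf_add_right, bf_smul_left, bf_smul_right, wa, we, wb1, wb2, wa', we',
      wb1', wb2', haa, hae, hea, hee, ab1, ab2, eb1, eb2, ba1, ba2, be1, be2, b11, b12, b21, b22]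
    field_simp
    ring

end Pool.Agent.Work.D9odd
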