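import Mathlib
import Pool.Agent.Work.MP_b62148_ag.D9odd.Odd9
import Pool.Agent.Work.MP_b62148_ag.D9odd.Hyp
import Pool.Agent.Work.MP_b62148_ag.QLang

/-!
Every net has a conic bundle of the odd class, over a finite extension (Tsen, Lang).
-/

namespace Pool.Agent.Work.D9odd

open Matrix MvPolynomial

section frac

variable {Ω : Type*} [Field Ω]

/-- the embedding into the field of rational functions -/
noncomputable def i3 (Ω : Type*) [Field Ω] : MvPolynomial (Fin 3) Ω →+*
    FractionRing (MvPolynomial (Fin 3) Ω) := algebraMap _ _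

theorem i3_injective : Function.Injective (i3 Ω) :=
  IsFractionRing.injective (MvPolynomial (Fin 3) Ω) (FractionRing (MvPolynomial (Fin 3) Ω))

/-- dehomogenisation -/
noncomputable def deh (Ω : Type*) [Field Ω] : MvPolynomial (Fin 2) Ω →+*
    FractionRing (MvPolynomial (Fin 3) Ω) :=
  MvPolynomial.eval₂Hom ((i3 Ω).comp C) ![i3 Ω (X 0) / i3 Ω (X 2), i3 Ω (X 1) / i3 Ω (X 2)]

theorem deh_C (a : Ω) : deh Ω (C a) = i3 Ω (C a) := by
  rw [deh, MvPolynomial.coe_eval₂Hom, MvPolynomial.eval₂_C]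
  rfl

theorem deh_X0 : deh Ω (X 0) = i3 Ω (X 0) / i3 Ω (X 2) := by
  rw [deh, MvPolynomial.coe_eval₂Hom, MvPolynomial.eval₂_X]
  rfl

theorem deh_X1 : deh Ω (X 1) = i3 Ω (X 1) / i3 Ω (X 2) := by
  rw [deh, MvPolynomial.coe_eval₂Hom, MvPolynomial.eval₂_X]
  rfl

theorem x2_ne : i3 Ω (X 2) ≠ 0 := by
  intro h
  exact X_ne_zero (R := Ω) (2 : Fin 3) (i3_injective (by rw [h, map_zero]))

theorem deh_hom (p : MvPolynomial (Fin 2) Ω) : ∃ (N : ℕ) (q : MvPolynomial (Fin 3) Ω),
    i3 Ω q = i3 Ω (X 2) ^ N * deh Ω p ∧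
    aeval (![X 0, X 1, 1] : Fin 3 → MvPolynomial (Fin 2) Ω) q = p := by
  induction p using MvPolynomial.induction_on with
  | C a =>
    refine ⟨0, C a, ?_, ?_⟩
    · rw [pow_zero, one_mul, deh_C]
    · rw [aeval_C]
      rfl
  | add p q hp hq =>
    obtain ⟨N, p', h1, h2⟩ := hp
    obtain ⟨M, q', h3, h4⟩ := hq
    refine ⟨N + M, X 2 ^ M * p' + X 2 ^ N * q', ?_, ?_⟩
    · rw [map_add, map_mul, map_mul, map_pow, map_pow, h1, h3, map_add]
      ring
    · rw [map_add, map_mul, map_mul, map_pow, map_pow, h2, h4, aeval_X]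
      simp
  | mul_X p i hp =>
    obtain ⟨N, p', h1, h2⟩ := hp
    have hne := x2_ne (Ω := Ω)
    fin_cases i
    · refine ⟨N + 1, p' * X 0, ?_, ?_⟩
      · rw [map_mul, h1, map_mul]
        show _ = _ * (_ * deh Ω (X (0 : Fin 2)))
        rw [deh_X0, pow_succ]
        field_simp
      · rw [map_mul, h2, aeval_X]
        rfl
    · refine ⟨N + 1, p' * X 1, ?_, ?_⟩
      · rw [map_mul, h1, map_mul]
        show _ = _ * (_ * deh Ω (X (1 : Fin 2)))
        rw [deh_X1, pow_succ]
        field_simp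
      · rw [map_mul, h2, aeval_X]
        rfl

theorem deh_injective : Function.Injective (deh Ω) := by
  rw [injective_iff_map_eq_zero]
  intro p hp
  obtain ⟨N, q, h1, h2⟩ := deh_hom p
  rw [hp, mul_zero] at h1
  have hq : q = 0 := i3_injective (by rw [h1, map_zero])
  rw [← h2, hq, map_zero]

end frac

section isotropic

variable {Ω : Type*} [Field Ω] [IsAlgClosed Ω]

theorem map_netForm {S S' : Type*} [CommRing S] [CommRing S'] (f : S →+* S') {n : Type*}
    [Fintype n] (T0 T1 T2 : Matrix n n S) (x : Fin 3 → S) (A : n → S) :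
    f (netForm T0 T1 T2 x A) = netForm (T0.map f) (T1.map f) (T2.map f) (f ∘ x) (f ∘ A) := by
  unfold netForm
  rw [map_add, map_add, map_mul, map_mul, map_mul, map_bf, map_bf, map_bf]
  rfl

theorem map_hForm {S S' : Type*} [CommRing S] [CommRing S'] (f : S →+* S')
    (x : Fin 3 → S) (A : Fin 6 → S) : f (hForm x A) = hForm (f ∘ x) (f ∘ A) := by
  simp [hForm]

theorem hForm_scale {K : Type*} [Field K] (x : Fin 3 → K) (hx : x 2 ≠ 0) (A : Fin 6 → K) :
    hForm x A = x 2 ^ 2 * hForm ![x 0 / x 2, x 1 / x 2, 1] A := by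
  simp only [hForm, Matrix.cons_val_zero, Matrix.cons_val_one, Matrix.cons_val]
  field_simp

theorem netForm_scale {K : Type*} [Field K] {n : Type*} [Fintype n] (T0 T1 T2 : Matrix n n K)
    (x : Fin 3 → K) (hx : x 2 ≠ 0) (A : n → K) :
    netForm T0 T1 T2 x A = x 2 * netForm T0 T1 T2 ![x 0 / x 2, x 1 / x 2, 1] A := by
  simp only [netForm, Matrix.cons_val_zero, Matrix.cons_val_one, Matrix.cons_val]
  field_simp

/-- an isotropic vector over the polynomials in two variables -/
theorem exists_iso_two (T0 T1 T2 : Matrix (Fin 6) (Fin 6) Ω) :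
    ∃ A : Fin 6 → MvPolynomial (Fin 2) Ω, A ≠ 0 ∧
      hForm (![X 0, X 1, 1] : Fin 3 → MvPolynomial (Fin 2) Ω) A = 0 ∧
      netForm (T0.map C) (T1.map C) (T2.map C)
        (![X 0, X 1, 1] : Fin 3 → MvPolynomial (Fin 2) Ω) A = 0 := by
  set H : Matrix (Fin 6) (Fin 5) (MvPolynomial (Fin 2) Ω) :=
    !![1, 0, 0, 0, 0; 0, 1, 0, 0, 0; 0, 0, 1, 0, 0; 0, 0, 0, 1, 0; 0, 0, 0, 0, 1;
      0, 0, -X 0 ^ 2, -(X 0 * X 1), -X 1 ^ 2] with hH
  set N : Matrix (Fin 6) (Fin 6) (MvPolynomial (Fin 2) Ω) :=
    (X 0 : MvPolynomial (Fin 2) Ω) • T1.map C + (X 1 : MvPolynomial (Fin 2) Ω) • T2.map C +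
      T0.map C with hN
  obtain ⟨v, hv, hvv⟩ := PD.exists_isotropic (K := Ω) (N := 5) (m := 2) (by norm_num)
    (fun i j => (Hᵀ * N * H) i j)
  have hb : bf (Hᵀ * N * H) v v = 0 := by
    rw [← hvv]
    simp only [bf, PD.bil, Matrix.mulVec, dotProduct, Finset.mul_sum]
    refine Finset.sum_congr rfl fun i _ => Finset.sum_congr rfl fun j _ => ?_
    ring
  rw [bf_congr] at hb
  refine ⟨H *ᵥ v, ?_, ?_, ?_⟩
  · intro h
    apply hv
    funext i
    have h0 := congrFun h i.castSucc
    fin_cases i <;> simpa [hH, Matrix.mulVec, dotProduct, Fin.sum_univ_five] using h0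
  · simp [hH, hForm, Matrix.mulVec, dotProduct, Fin.sum_univ_five]
    ring
  · rw [← hb]
    simp only [hN, netForm, bf_add_mat, bf_smul_mat]
    simp

variable [CharZero Ω]

/-- **Existence of the conic bundle.** -/
theorem exists_iso_closed (T0 T1 T2 : Matrix (Fin 6) (Fin 6) Ω)
    (hdet : (mat7 (T0.map C) (T1.map C) (T2.map C) (X : Fin 3 → MvPolynomial (Fin 3) Ω) +
      (mat7 (T0.map C) (T1.map C) (T2.map C) (X : Fin 3 → MvPolynomial (Fin 3) Ω))ᵀ).det ≠ 0) :
    ∃ Q : Matrix (Fin 3) (Fin 3) (MvPolynomial (Fin 3) Ω), (Q + Qᵀ).det ≠ 0 ∧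
      HasIso T0 T1 T2 Q := by
  classical
  let R := MvPolynomial (Fin 3) Ω
  let K := FractionRing R
  set i : R →+* K := i3 Ω with hi
  have hinj : Function.Injective i := i3_injective
  have hinj0 : ∀ a, i a = 0 → a = 0 := fun a ha => hinj (by rw [ha, map_zero])
  have h2K : (2 : K) ≠ 0 := by
    intro h
    have h3 : i 2 = 0 := by rw [map_ofNat]; exact h
    exact two_ne_zero (hinj0 2 h3)
  set M : Matrix (Fin 7) (Fin 7) R := mat7 (T0.map C) (T1.map C) (T2.map C) X with hM
  set F : Matrix (Fin 7) (Fin 7) K := (M + Mᵀ).map i with hF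
  have hFs : Fᵀ = F := by
    rw [hF, ← Matrix.transpose_map, Matrix.transpose_add, Matrix.transpose_transpose, add_comm]
  have hFd : F.det ≠ 0 := by
    intro h
    apply hdet
    apply hinj0
    rw [RingHom.map_det]
    exact h
  have hFM : ∀ y, bf F y y = 2 * bf (M.map i) y y := by
    intro y
    have e : F = M.map i + (M.map i)ᵀ := by
      rw [hF, ← Matrix.transpose_map]
      ext a b
      simp
    have e2 : bf (M.map i)ᵀ y y = bf (M.map i) y y := by
      unfold bf
      rw [Matrix.mulVec_transpose, dotProduct_comm, Matrix.dotProduct_mulVec]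
    rw [e, bf_add_mat, e2]
    ring
  set T0' : Matrix (Fin 6) (Fin 6) K := (T0.map C).map i with hT0
  set T1' : Matrix (Fin 6) (Fin 6) K := (T1.map C).map i with hT1
  set T2' : Matrix (Fin 6) (Fin 6) K := (T2.map C).map i with hT2
  have hform : ∀ y, bf (M.map i) y y = form7 T0' T1' T2' (i ∘ X) y := by
    intro y
    rw [bf_mat7, hM, map_mat7]
  obtain ⟨A, hA, hAh, hAn⟩ := exists_iso_two T0 T1 T2
  have hx2 : i (X 2) ≠ 0 := x2_ne
  set A' : Fin 6 → K := deh Ω ∘ A with hA'
  have hA'0 : A' ≠ 0 := by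
    intro h
    apply hA
    funext j
    apply deh_injective
    rw [Pi.zero_apply, map_zero]
    exact congrFun h j
  have hd0 : deh Ω (X 0) = i (X 0) / i (X 2) := deh_X0
  have hd1 : deh Ω (X 1) = i (X 1) / i (X 2) := deh_X1
  have hdC : ∀ T : Matrix (Fin 6) (Fin 6) Ω, (T.map C).map (deh Ω) = (T.map C).map i := by
    intro T
    ext a b
    simp only [Matrix.map_apply]
    exact deh_C _
  have hcomp : (deh Ω) ∘ (![X 0, X 1, 1] : Fin 3 → MvPolynomial (Fin 2) Ω) =
      ![i (X 0) / i (X 2), i (X 1) / i (X 2), 1] := by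
    funext j
    fin_cases j
    · exact hd0
    · exact hd1
    · exact map_one _
  have hh : hForm (i ∘ X) A' = 0 := by
    have h := congrArg (deh Ω) hAh
    rw [map_hForm, map_zero, hcomp] at h
    have h3 := hForm_scale (i ∘ X) hx2 A'
    have h3' : hForm (i ∘ X) A' = i (X 2) ^ 2 *
        hForm (![i (X 0) / i (X 2), i (X 1) / i (X 2), 1] : Fin 3 → K) A' := h3
    rw [h3', h, mul_zero]
  have hn : netForm T0' T1' T2' (i ∘ X) A' = 0 := by
    have h := congrArg (deh Ω) hAn
    rw [map_netForm, map_zero, hcomp, hdC, hdC, hdC] at h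
    have h3 := netForm_scale T0' T1' T2' (i ∘ X) hx2 A'
    have h3' : netForm T0' T1' T2' (i ∘ X) A' = i (X 2) *
        netForm T0' T1' T2' (![i (X 0) / i (X 2), i (X 1) / i (X 2), 1] : Fin 3 → K) A' := h3
    rw [h3', h, mul_zero]
  set a : Fin 7 → K := Fin.snoc (α := fun _ => K) A' 0 with ha
  set e : Fin 7 → K := Fin.snoc (α := fun _ => K) 0 1 with he
  have ha6 : a 6 = 0 := Fin.snoc_last (n := 6) (α := fun _ => K) _ _
  have he6 : e 6 = 1 := Fin.snoc_last (n := 6) (α := fun _ => K) _ _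
  have hac : (fun j : Fin 6 => a j.castSucc) = A' := by
    funext j
    exact Fin.snoc_castSucc (n := 6) (α := fun _ => K) _ _ j
  have hec : (fun j : Fin 6 => e j.castSucc) = 0 := by
    funext j
    exact Fin.snoc_castSucc (n := 6) (α := fun _ => K) _ _ j
  have n0 : netForm T0' T1' T2' (i ∘ X) (0 : Fin 6 → K) = 0 := by
    simp [netForm, bf]
  have h0 : hForm (i ∘ X) (0 : Fin 6 → K) = 0 := by
    simp [hForm]
  have qa : bf F a a = 0 := by
    rw [hFM, hform, form7, hac, ha6, hn]; ring
  have qe : bf F e e = 0 := by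
    rw [hFM, hform, form7, hec, he6, n0, h0]; ring
  have qae : bf F a e = 0 := by
    have h3 : bf F (a + e) (a + e) = 0 := by
      rw [hFM, hform, form7]
      have e1 : (fun j : Fin 6 => (a + e) j.castSucc) = A' := by
        funext j
        rw [Pi.add_apply]
        have h4 := congrFun hac j
        have h5 := congrFun hec j
        rw [h4, h5, Pi.zero_apply, add_zero]
      rw [e1, hn, hh]; ring
    rw [bf_add_left, bf_add_right, bf_add_right, qa, qe, bf_comm hFs e a] at h3
    have h4 : 2 * bf F a e = 0 := by linear_combination h3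
    exact (mul_eq_zero.mp h4).resolve_left h2K
  have hind : LinearIndependent K ![a, e] := by
    rw [LinearIndependent.pair_iff]
    intro s t hst
    have h6 := congrFun hst 6
    simp only [Pi.add_apply, Pi.smul_apply, smul_eq_mul, ha6, he6, Pi.zero_apply, mul_zero,
      mul_one, zero_add] at h6
    subst h6
    rw [zero_smul, add_zero] at hst
    refine ⟨?_, rfl⟩
    rcases smul_eq_zero.mp hst with h | h
    · exact h
    · exfalso
      apply hA'0
      rw [← hac, h]
      rfl
  obtain ⟨P, Q0, hP, hQs, hQd, hPQ⟩ := split_two h2K F hFs hFd a e hind qa qae qe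
  -- clear the denominators
  obtain ⟨d, hdQ⟩ := IsLocalization.exist_integer_multiples_of_finite (nonZeroDivisors R)
    (fun t : Fin 3 × Fin 3 => Q0 t.1 t.2)
  choose q hq using hdQ
  have hd0 : i (d : R) ≠ 0 := by
    intro h
    exact nonZeroDivisors.coe_ne_zero d (hinj0 _ h)
  set D : Matrix (Fin 7) (Fin 7) K := Matrix.diagonal ![i d, i d, i d, 1, 1, 1, 1] with hD
  have hDdet : D.det ≠ 0 := by
    rw [hD, Matrix.det_diagonal, Fin.prod_univ_seven]
    simp [hd0]
  obtain ⟨d', hdP⟩ := IsLocalization.exist_integer_multiples_of_finite (nonZeroDivisors R)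
    (fun t : Fin 7 × Fin 7 => (P * D) t.1 t.2)
  choose p hp using hdP
  have hd'0 : i (d' : R) ≠ 0 := by
    intro h
    exact nonZeroDivisors.coe_ne_zero d' (hinj0 _ h)
  set P' : Matrix (Fin 7) (Fin 7) R := Matrix.of fun a b => p (a, b) with hP'
  set Q' : Matrix (Fin 3) (Fin 3) R := Matrix.of fun a b => (d : R) * q (a, b) with hQ'
  have hpi : ∀ a b, i (p (a, b)) = i (d' : R) * (P * D) a b := by
    intro a b
    have := hp (a, b)
    rw [Algebra.smul_def] at this
    exact this
  have hqi : ∀ a b, i (q (a, b)) = i (d : R) * Q0 a b := by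
    intro a b
    have := hq (a, b)
    rw [Algebra.smul_def] at this
    exact this
  have hPm : P'.map i = i (d' : R) • (P * D) := by
    ext a b
    rw [Matrix.map_apply, Matrix.smul_apply, smul_eq_mul, ← hpi]
    rfl
  have hQm : Q'.map i = (i (d : R)) ^ 2 • Q0 := by
    ext a b
    rw [Matrix.map_apply, Matrix.smul_apply, smul_eq_mul]
    have e1 : i (Q' a b) = i (d : R) * i (q (a, b)) := map_mul _ _ _
    rw [e1, hqi]
    ring
  refine ⟨Q', ?_, P', C (2⁻¹ : Ω) * (d' : R) ^ 2, ?_, ?_, ?_⟩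
  · intro h
    have h3 : ((Q' + Q'ᵀ).map i).det = 0 := by
      have := congrArg i h
      rw [map_zero, RingHom.map_det] at this
      exact this
    have h4 : (Q' + Q'ᵀ).map i = (2 * (i (d : R)) ^ 2) • Q0 := by
      have e1 : (Q' + Q'ᵀ).map i = Q'.map i + (Q'.map i)ᵀ := by
        ext a b; simp
      rw [e1, hQm, Matrix.transpose_smul, hQs, ← add_smul]
      congr 1
      ring
    rw [h4, Matrix.det_smul] at h3
    exact mul_ne_zero (pow_ne_zero _ (mul_ne_zero h2K (pow_ne_zero 2 hd0))) hQd h3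
  · intro h
    have h3 : (P'.map i).det = 0 := by
      have := congrArg i h
      rw [map_zero, RingHom.map_det] at this
      exact this
    rw [hPm, Matrix.det_smul, Matrix.det_mul] at h3
    exact mul_ne_zero (pow_ne_zero _ hd'0) (mul_ne_zero hP hDdet) h3
  · refine mul_ne_zero ?_ (pow_ne_zero 2 (nonZeroDivisors.coe_ne_zero d'))
    rw [Ne, MvPolynomial.C_eq_zero]
    exact inv_ne_zero two_ne_zero
  · intro y
    apply hinj
    have h3 : i (form7 (T0.map C) (T1.map C) (T2.map C) X (P' *ᵥ y)) =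
        bf (M.map i) (P'.map i *ᵥ (i ∘ y)) (P'.map i *ᵥ (i ∘ y)) := by
      rw [bf_mat7, map_bf]
      have : i ∘ (P' *ᵥ y) = P'.map i *ᵥ (i ∘ y) := by
        funext j
        exact RingHom.map_mulVec i P' y j
      rw [this]
    have h4 : D *ᵥ (i ∘ y) = ![i d * i (y 0), i d * i (y 1), i d * i (y 2), i (y 3), i (y 4),
        i (y 5), i (y 6)] := by
      funext j
      rw [hD, Matrix.mulVec_diagonal]
      fin_cases j <;> simp
    have h5 : P'.map i *ᵥ (i ∘ y) = i (d' : R) • (P *ᵥ (D *ᵥ (i ∘ y))) := by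
      rw [hPm, Matrix.smul_mulVec, Matrix.mulVec_mulVec]
    have h6 := hPQ (D *ᵥ (i ∘ y))
    rw [hFM] at h6
    rw [h3, h5, bf_smul_left, bf_smul_right, map_mul, map_mul, map_pow]
    have h7 : i (C (2⁻¹ : Ω)) * 2 = 1 := by
      have : (2 : K) = i (C 2) := by
        rw [map_ofNat, map_ofNat]
      rw [this, ← map_mul, ← map_mul, inv_mul_cancel₀ (two_ne_zero), map_one, map_one]
    have h8 : i (form3 Q' y) = bf Q0 ![i d * i (y 0), i d * i (y 1), i d * i (y 2)]
        ![i d * i (y 0), i d * i (y 1), i d * i (y 2)] + i (y 3) * i (y 4) + i (y 5) * i (y 6) := by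
      rw [form3, map_add, map_add, map_mul, map_mul, map_bf, hQm, bf_smul_mat]
      congr 2
      have e1 : (![i d * i (y 0), i d * i (y 1), i d * i (y 2)] : Fin 3 → K) =
          i (d : R) • (i ∘ ![y 0, y 1, y 2]) := by
        funext j
        fin_cases j <;> simp
      rw [e1, bf_smul_left, bf_smul_right]
      ring
    rw [h8]
    rw [h4] at h6 ⊢
    simp only [Matrix.cons_val_zero, Matrix.cons_val_one, Matrix.cons_val] at h6
    linear_combination (i (C (2⁻¹ : Ω)) * i (d' : R) ^ 2) * h6 -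
      (i (d' : R) ^ 2 * bf (M.map i) (P *ᵥ ![i d * i (y 0), i d * i (y 1), i d * i (y 2), i (y 3),
        i (y 4), i (y 5), i (y 6)]) (P *ᵥ ![i d * i (y 0), i d * i (y 1), i d * i (y 2), i (y 3),
        i (y 4), i (y 5), i (y 6)])) * h7

end isotropic

section descend

variable {k Ω : Type*} [Field k] [Field Ω] [Algebra k Ω]

/-- a finite family of polynomials is defined over a finite extension -/
theorem descend [Algebra.IsAlgebraic k Ω] {τ ι : Type*} [Finite ι] (f : ι → MvPolynomial τ Ω) :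
    ∃ (L : IntermediateField k Ω) (_ : FiniteDimensional k L) (g : ι → MvPolynomial τ L),
      ∀ i, MvPolynomial.map (algebraMap L Ω) (g i) = f i := by
  classical
  have := Fintype.ofFinite ι
  let s : Finset Ω := Finset.univ.biUnion fun i => (f i).support.image fun d => (f i).coeff d
  let L : IntermediateField k Ω := IntermediateField.adjoin k (s : Set _)
  have hfd : FiniteDimensional k L := by
    apply IntermediateField.finiteDimensional_adjoin
    intro a _
    exact Algebra.IsIntegral.isIntegral a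
  have hmem : ∀ i d, (f i).coeff d ∈ L := by
    intro i d
    by_cases hd : d ∈ (f i).support
    · apply IntermediateField.subset_adjoin
      simp only [s, Finset.coe_biUnion]
      simp only [Set.mem_iUnion]
      refine ⟨i, by simp, ?_⟩
      simp only [Finset.coe_image]
      exact ⟨d, hd, rfl⟩
    · rw [MvPolynomial.notMem_support_iff.mp hd]
      exact L.zero_mem
  refine ⟨L, hfd, fun i => ∑ d ∈ (f i).support, MvPolynomial.monomial d ⟨(f i).coeff d, hmem i d⟩,
    ?_⟩
  intro i
  rw [map_sum]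
  simp only [MvPolynomial.map_monomial]
  exact MvPolynomial.support_sum_monomial_coeff (f i)

theorem form7_injective_aux {k L : Type*} [Field k] [Field L] (f : k →+* L)
    (T0 T1 T2 : Matrix (Fin 6) (Fin 6) k) (Q : Matrix (Fin 3) (Fin 3) (MvPolynomial (Fin 3) k))
    (P : Matrix (Fin 7) (Fin 7) (MvPolynomial (Fin 3) k)) (c : MvPolynomial (Fin 3) k)
    (h : ∀ y : Fin 7 → MvPolynomial (Fin 3) L,
      form7 ((T0.map f).map C) ((T1.map f).map C) ((T2.map f).map C) X
        (P.map (MvPolynomial.map f) *ᵥ y) =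
      MvPolynomial.map f c * form3 (Q.map (MvPolynomial.map f)) y)
    (y : Fin 7 → MvPolynomial (Fin 3) k) :
    form7 (T0.map C) (T1.map C) (T2.map C) X (P *ᵥ y) = c * form3 Q y := by
  set g : MvPolynomial (Fin 3) k →+* MvPolynomial (Fin 3) L := MvPolynomial.map f with hg
  have hginj : Function.Injective g := MvPolynomial.map_injective f f.injective
  apply hginj
  have h1 := h (g ∘ y)
  have e1 : ∀ T : Matrix (Fin 6) (Fin 6) k, (T.map (C : k →+* MvPolynomial (Fin 3) k)).map g =
      (T.map f).map (C : L →+* MvPolynomial (Fin 3) L) := by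
    intro T
    ext i j : 2
    simp [hg]
  have e2 : (g ∘ (X : Fin 3 → MvPolynomial (Fin 3) k)) = X := by
    funext i
    simp [hg]
  have e3 : g ∘ (P *ᵥ y) = P.map g *ᵥ (g ∘ y) := by
    funext j
    exact RingHom.map_mulVec g P y j
  rw [bf_mat7, map_bf, map_mat7, e1, e1, e1, e2, e3, ← bf_mat7, h1, map_mul, bf_mat3, bf_mat3,
    map_bf, map_mat3]

/-- **Existence of the conic bundle over a finite extension.** -/
theorem exists_iso [CharZero k] [IsAlgClosed Ω] [Algebra.IsAlgebraic k Ω]
    (T0 T1 T2 : Matrix (Fin 6) (Fin 6) k)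
    (hdet : (mat7 (T0.map C) (T1.map C) (T2.map C) (X : Fin 3 → MvPolynomial (Fin 3) k) +
      (mat7 (T0.map C) (T1.map C) (T2.map C) (X : Fin 3 → MvPolynomial (Fin 3) k))ᵀ).det ≠ 0) :
    ∃ L : IntermediateField k Ω, FiniteDimensional k L ∧
      ∃ Q : Matrix (Fin 3) (Fin 3) (MvPolynomial (Fin 3) L), (Q + Qᵀ).det ≠ 0 ∧
        HasIso (T0.map (algebraMap k L)) (T1.map (algebraMap k L)) (T2.map (algebraMap k L)) Q := by
  have : CharZero Ω := charZero_of_injective_algebraMap (algebraMap k Ω).injective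
  obtain ⟨Q, hQ, P, c, hP, hc, hi⟩ := exists_iso_closed (T0.map (algebraMap k Ω))
    (T1.map (algebraMap k Ω)) (T2.map (algebraMap k Ω)) (by
      set g : MvPolynomial (Fin 3) k →+* MvPolynomial (Fin 3) Ω :=
        MvPolynomial.map (algebraMap k Ω) with hg
      have hginj : Function.Injective g :=
        MvPolynomial.map_injective _ (algebraMap k Ω).injective
      have e1 : ∀ T : Matrix (Fin 6) (Fin 6) k,
          (T.map (C : k →+* MvPolynomial (Fin 3) k)).map g =
          (T.map (algebraMap k Ω)).map (C : Ω →+* MvPolynomial (Fin 3) Ω) := by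
        intro T
        ext i j : 2
        simp [hg]
      have e2 : (g ∘ (X : Fin 3 → MvPolynomial (Fin 3) k)) = X := by
        funext i
        simp [hg]
      have e4 : mat7 ((T0.map (algebraMap k Ω)).map C) ((T1.map (algebraMap k Ω)).map C)
          ((T2.map (algebraMap k Ω)).map C) (X : Fin 3 → MvPolynomial (Fin 3) Ω) =
          (mat7 (T0.map C) (T1.map C) (T2.map C) (X : Fin 3 → MvPolynomial (Fin 3) k)).map g := by
        rw [map_mat7, e1, e1, e1, e2]
      rw [e4]
      intro h
      apply hdet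
      apply hginj
      rw [RingHom.map_det, map_zero, ← h]
      congr 1
      ext i j : 2
      simp)
  obtain ⟨L, hL, g, hg⟩ := descend (k := k)
    (Sum.elim (fun t : Fin 7 × Fin 7 => P t.1 t.2)
      (Sum.elim (fun t : Fin 3 × Fin 3 => Q t.1 t.2) (fun _ : Unit => c)))
  have hinj : Function.Injective (MvPolynomial.map (σ := Fin 3) (algebraMap L Ω)) :=
    MvPolynomial.map_injective _ (algebraMap L Ω).injective
  set P' : Matrix (Fin 7) (Fin 7) (MvPolynomial (Fin 3) L) :=
    Matrix.of fun i j => g (Sum.inl (i, j)) with hP'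
  set Q' : Matrix (Fin 3) (Fin 3) (MvPolynomial (Fin 3) L) :=
    Matrix.of fun i j => g (Sum.inr (Sum.inl (i, j))) with hQ'
  set c' : MvPolynomial (Fin 3) L := g (Sum.inr (Sum.inr ())) with hc'
  have eP : P'.map (MvPolynomial.map (algebraMap L Ω)) = P := by
    refine Matrix.ext fun i j => ?_
    exact hg (Sum.inl (i, j))
  have eQ : Q'.map (MvPolynomial.map (algebraMap L Ω)) = Q := by
    refine Matrix.ext fun i j => ?_
    exact hg (Sum.inr (Sum.inl (i, j)))
  have ec : MvPolynomial.map (algebraMap L Ω) c' = c := hg (Sum.inr (Sum.inr ()))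
  have hT : ∀ T : Matrix (Fin 6) (Fin 6) k,
      (T.map (algebraMap k L)).map (algebraMap L Ω) = T.map (algebraMap k Ω) := by
    intro T
    ext i j
    simp only [Matrix.map_apply]
    exact (IsScalarTower.algebraMap_apply k L Ω _).symm
  refine ⟨L, hL, Q', ?_, P', c', ?_, ?_, ?_⟩
  · intro h
    apply hQ
    have h3 := congrArg (MvPolynomial.map (algebraMap L Ω)) h
    rw [map_zero, RingHom.map_det] at h3
    rw [← h3, ← eQ]
    congr 1
    ext i j : 2
    simp
  · intro h
    apply hP
    have h3 := congrArg (MvPolynomial.map (algebraMap L Ω)) h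
    rw [map_zero, RingHom.map_det] at h3
    rw [← eP]
    exact h3
  · intro h
    apply hc
    rw [← ec, h, map_zero]
  · apply form7_injective_aux (algebraMap L Ω)
    intro y
    rw [eP, eQ, ec, hT, hT, hT]
    exact hi y

end descend

end Pool.Agent.Work.D9odd
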