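import Mathlib
import Pool.Agent.Work.MP_b62148_ag.D9odd.Odd9
import Pool.Agent.Work.MP_b62148_ag.D9odd.ExIso
import Pool.Agent.Work.MP_b62148_ag.D9odd.DiscOdd
import Pool.Agent.Work.MP_b62148_ag.D9odd.Absorb

/-!
Odd class: the full statement, with the discriminant curve, the existence of a conic bundle of the
class over a finite extension, the same-field density and the potential density.
-/

namespace Pool.Agent.Work.D9odd

open Matrix MvPolynomial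

universe u v

/-- **Odd class.** -/
theorem odd_full : ∃ Φ : MvPolynomial (Fin 3 × Fin 6 × Fin 6) ℚ, Φ ≠ 0 ∧
    ∀ (k : Type u) (Ω : Type v) [Field k] [CharZero k] [Field Ω] [IsAlgClosed Ω] [Algebra k Ω]
      (T0 T1 T2 : Matrix (Fin 6) (Fin 6) k), aeval (par6 T0 T1 T2) Φ ≠ 0 →
      (disc7 T0 T1 T2 ≠ 0 ∧ ∀ x : Fin 3 → Ω, x ≠ 0 →
        ∃ j, aeval x (pderiv j (disc7 T0 T1 T2)) ≠ 0) ∧
      (IsoPlane (sub5 T0) → InfE T0 T1 T2 →
        ∀ Q : Matrix (Fin 3) (Fin 3) (MvPolynomial (Fin 3) k), (Q + Qᵀ).det ≠ 0 →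
          HasIso T0 T1 T2 Q → DensePts k Ω Q) ∧
      (Algebra.IsAlgebraic k Ω → ∃ L : IntermediateField k Ω,
        FiniteDimensional k L ∧
        IsoPlane (sub5 (T0.map (algebraMap k L))) ∧
        InfE (T0.map (algebraMap k L)) (T1.map (algebraMap k L)) (T2.map (algebraMap k L)) ∧
        (∃ Q : Matrix (Fin 3) (Fin 3) (MvPolynomial (Fin 3) L), (Q + Qᵀ).det ≠ 0 ∧
          HasIso (T0.map (algebraMap k L)) (T1.map (algebraMap k L)) (T2.map (algebraMap k L)) Q) ∧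
        ∀ Q : Matrix (Fin 3) (Fin 3) (MvPolynomial (Fin 3) L), (Q + Qᵀ).det ≠ 0 →
          HasIso (T0.map (algebraMap k L)) (T1.map (algebraMap k L)) (T2.map (algebraMap k L)) Q →
            DensePts L Ω Q) := by
  obtain ⟨Φ₁, h₁, H₁⟩ := general_odd.{u, v}
  obtain ⟨Φ₂, h₂, H₂⟩ := disc7_geo.{u, v}
  refine ⟨Φ₁ * Φ₂, mul_ne_zero h₁ h₂, ?_⟩
  intro k Ω _ _ _ _ _ T0 T1 T2 hT
  rw [map_mul] at hT
  obtain ⟨a1, a2⟩ := H₁ k Ω T0 T1 T2 (left_ne_zero_of_mul hT)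
  have b := H₂ k Ω T0 T1 T2 (right_ne_zero_of_mul hT)
  refine ⟨b, a1, fun halg => ?_⟩
  obtain ⟨L₁, hfd₁, Q, hQ, hiso⟩ := exists_iso (Ω := Ω) T0 T1 T2 b.1
  obtain ⟨W, hW⟩ := exists_gens L₁
  obtain ⟨L, hfd, hWL, c1, c2, c3⟩ := a2 halg W
  exact ⟨L, hfd, c1, c2, HasIso.extend (hW L hWL) Q hQ hiso, c3⟩

end Pool.Agent.Work.D9odd
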