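import Mathlib
import Pool.Agent.Work.MP_b62148_ag.D9odd.N1Data

/-!
Odd class: the numerical checks for the rank of the discriminant map.
-/

namespace Pool.Agent.Work.D9odd.N1

open Pool.Agent.Work.Nonic

/-- coordinates of the grid points -/
def y0 (i : ℕ) : ℕ := (gridL.getD i (0, 0, 0)).1
/-- coordinates of the grid points -/
def y1 (i : ℕ) : ℕ := (gridL.getD i (0, 0, 0)).2.1
/-- coordinates of the grid points -/
def y2 (i : ℕ) : ℕ := (gridL.getD i (0, 0, 0)).2.2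

theorem grid_y : ∀ i : Fin 55, grid i 0 = y0 i ∧ grid i 1 = y1 i ∧ grid i 2 = y2 i := by
  decide +kernel

/-- the rows of the product of the matrix and its inverse -/
def row (i u v : ℕ) : ℕ :=
  match u with
  | 0 => 2 * y1 i * In i 0 v + y2 i * In i 3 v + y0 i * In i 4 v
  | 1 => 2 * (y0 i + y2 i) * In i 1 v + y1 i * In i 2 v
  | 2 => y1 i * In i 1 v + y2 i * In i 4 v + y1 i * In i 5 v + y0 i ^ 2 * In i 6 v
  | 3 => y2 i * In i 0 v + (y0 i + y1 i) * In i 5 v + y0 i * y1 i * In i 6 v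
  | 4 => y0 i * In i 0 v + y2 i * In i 2 v + y1 i ^ 2 * In i 6 v
  | 5 => y1 i * In i 2 v + (y0 i + y1 i) * In i 3 v + 2 * y2 i * In i 5 v + y2 i ^ 2 * In i 6 v
  | _ => y0 i ^ 2 * In i 2 v + y0 i * y1 i * In i 3 v + y1 i ^ 2 * In i 4 v + y2 i ^ 2 * In i 5 v

theorem row_check : ∀ i < 55, ∀ u < 7, ∀ v < 7, row i u v % 31 = if u = v then 1 else 0 := by
  decide +kernel

/-- derivative in the direction of `y0` -/
def D0 (i : ℕ) : ℕ := 2 * In i 1 1 + (In i 0 4 + In i 4 0) + (In i 3 5 + In i 5 3) +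
  2 * y0 i * (In i 2 6 + In i 6 2) + y1 i * (In i 3 6 + In i 6 3)

/-- derivative in the direction of `y1` -/
def D1 (i : ℕ) : ℕ := 2 * In i 0 0 + (In i 1 2 + In i 2 1) + (In i 2 5 + In i 5 2) +
  (In i 3 5 + In i 5 3) + y0 i * (In i 3 6 + In i 6 3) + 2 * y1 i * (In i 4 6 + In i 6 4)

/-- derivative in the direction of `y2` -/
def D2 (i : ℕ) : ℕ := 2 * In i 1 1 + 2 * In i 5 5 + (In i 0 3 + In i 3 0) +
  (In i 2 4 + In i 4 2) + 2 * y2 i * (In i 5 6 + In i 6 5)

/-- the coordinate which multiplies the net -/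
def yT (i : ℕ) (t : Fin 3) : ℕ := ![y2 i, y0 i, y1 i] t

/-- the entries of the Jacobian matrix, up to the determinants -/
def KN (i l : ℕ) : ℕ :=
  if l < 51 then yT i (tF l) * (In i (rF l) (cF l) + In i (cF l) (rF l))
  else if l = 51 then y2 i * D0 i else if l = 52 then y2 i * D1 i
  else if l = 53 then y0 i * D2 i else y1 i * D2 i

theorem Bn_check : ∀ l < 55, ∀ c < 55, dig 65536 (Bn l) c < 31 := by
  decide +kernel

theorem Bn_lt (l : ℕ) : Bn l < 65536 ^ 55 := Nat.mod_lt _ (pow_pos (by norm_num) _)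

theorem KN_check : ∀ i < 55, ∀ c < 55,
    dig 65536 (sumTo (fun l => KN i l % 31 * Bn l) 55) c % 31 = if i = c then 1 % 31 else 0 := by
  decide +kernel

end Pool.Agent.Work.D9odd.N1
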