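import Mathlib
import Pool.Agent.Work.MP_b62148_ag.D9odd.N1Check
import Pool.Agent.Work.MP_b62148_ag.D9odd.DiscOdd
import Pool.Agent.Work.MP_b62148_ag.Nonic.Red
import Pool.Agent.Work.MP_b62148_ag.Nonic.Form9

/-!
Odd class: the general form of degree nine is a discriminant.
-/

namespace Pool.Agent.Work.D9odd.N1

open MvPolynomial Matrix Pool.Agent.Work.Nonic

/-- parameters: the net and the change of coordinates -/
abbrev PT : Type := (Fin 3 × Fin 6 × Fin 6) ⊕ (Fin 3 × Fin 3)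

section gen

variable (S : Type*) [CommRing S]

/-- generic net -/
noncomputable def TG (t : Fin 3) : Matrix (Fin 6) (Fin 6) (MvPolynomial PT S) :=
  Matrix.of fun r c => X (Sum.inl (t, r, c))

/-- generic change of coordinates at the point `x` -/
noncomputable def yG (x : Fin 3 → ℕ) : Fin 3 → MvPolynomial PT S :=
  fun r => ∑ s, X (Sum.inr (r, s)) * ((x s : ℕ) : MvPolynomial PT S)

/-- generic matrix -/
noncomputable def M0 (x : Fin 3 → ℕ) : Matrix (Fin 7) (Fin 7) (MvPolynomial PT S) :=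
  mat7 (TG S 0) (TG S 1) (TG S 2) (yG S x)

/-- generic symmetric matrix -/
noncomputable def MG (x : Fin 3 → ℕ) : Matrix (Fin 7) (Fin 7) (MvPolynomial PT S) :=
  M0 S x + (M0 S x)ᵀ

end gen

section wit

/-- the net at the special point -/
def w (t : Fin 3) : Matrix (Fin 6) (Fin 6) ℤ :=
  ![!![0, 0, 0, 1, 0, 0; 0, 1, 0, 0, 0, 0; 0, 0, 0, 0, 1, 0; 0, 0, 0, 0, 0, 0; 0, 0, 0, 0, 0, 0;
      0, 0, 0, 0, 0, 1],
    !![0, 0, 0, 0, 1, 0; 0, 1, 0, 0, 0, 0; 0, 0, 0, 0, 0, 0; 0, 0, 0, 0, 0, 1; 0, 0, 0, 0, 0, 0;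
      0, 0, 0, 0, 0, 0],
    !![1, 0, 0, 0, 0, 0; 0, 0, 1, 0, 0, 0; 0, 0, 0, 0, 0, 1; 0, 0, 0, 0, 0, 1; 0, 0, 0, 0, 0, 0;
      0, 0, 0, 0, 0, 0]] t

/-- the special point -/
def a0 : PT → ℤ := Sum.elim (fun t => w t.1 t.2.1 t.2.2) fun s => if s.1 = s.2 then 1 else 0

/-- the matrix at the special point -/
def Am (y : Fin 3 → ℤ) : Matrix (Fin 7) (Fin 7) ℤ :=
  !![2 * y 1, 0, 0, y 2, y 0, 0, 0;
    0, 2 * (y 0 + y 2), y 1, 0, 0, 0, 0;
    0, y 1, 0, 0, y 2, y 1, y 0 ^ 2;
    y 2, 0, 0, 0, 0, y 0 + y 1, y 0 * y 1;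
    y 0, 0, y 2, 0, 0, 0, y 1 ^ 2;
    0, 0, y 1, y 0 + y 1, 0, 2 * y 2, y 2 ^ 2;
    0, 0, y 0 ^ 2, y 0 * y 1, y 1 ^ 2, y 2 ^ 2, 0]

theorem eval_yG (x : Fin 3 → ℕ) : (eval a0) ∘ (yG ℤ x) = fun r => (x r : ℤ) := by
  funext r
  show eval a0 (yG ℤ x r) = _
  unfold yG
  rw [map_sum, Fin.sum_univ_three]
  simp only [map_mul, eval_X, map_natCast, a0, Sum.elim_inr]
  fin_cases r <;> simp

theorem eval_TG (t : Fin 3) : (TG ℤ t).map (eval a0) = w t := by
  ext r c
  simp [TG, a0]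

theorem w_mat (y : Fin 3 → ℤ) : mat7 (w 0) (w 1) (w 2) y + (mat7 (w 0) (w 1) (w 2) y)ᵀ = Am y := by
  have h6 : (6 : Fin 7) = Fin.last 6 := rfl
  ext i j
  rw [Matrix.add_apply, Matrix.transpose_apply]
  refine Fin.lastCases ?_ (fun i => ?_) i
  · refine Fin.lastCases ?_ (fun j => ?_) j
    · rw [mat7_zero, add_zero]
      rfl
    · rw [mat7_zero, zero_add, mat7_last]
      fin_cases j <;> rfl
  · refine Fin.lastCases ?_ (fun j => ?_) j
    · rw [mat7_zero, add_zero, mat7_last]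
      fin_cases i <;> rfl
    · rw [mat7_castSucc, mat7_castSucc]
      fin_cases i <;> fin_cases j <;> simp [w, Am] <;> try ring

theorem eval_MG (x : Fin 3 → ℕ) : (MG ℤ x).map (eval a0) = Am fun r => (x r : ℤ) := by
  have h : (M0 ℤ x).map (eval a0) = mat7 (w 0) (w 1) (w 2) fun r => (x r : ℤ) := by
    unfold M0
    rw [map_mat7, eval_yG, eval_TG, eval_TG, eval_TG]
  unfold MG
  rw [Matrix.map_add (eval a0) (map_add (eval a0)), Matrix.transpose_map, h, w_mat]

end wit

section der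

/-- derivative of a polynomial at the special point -/
noncomputable def De (l : PT) (f : MvPolynomial PT ℤ) : ℤ := eval a0 (pderiv l f)

theorem De_add (l : PT) (f g : MvPolynomial PT ℤ) : De l (f + g) = De l f + De l g := by
  simp [De]

theorem De_mul (l : PT) (f g : MvPolynomial PT ℤ) :
    De l (f * g) = De l f * eval a0 g + eval a0 f * De l g := by
  simp [De, Derivation.leibniz]
  ring

theorem De_zero (l : PT) : De l 0 = 0 := by simp [De]

theorem De_X (l m : PT) : De l (X m) = if m = l then 1 else 0 := by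
  unfold De
  rw [pderiv_X]
  by_cases h : m = l
  · subst h; simp
  · rw [Pi.single_eq_of_ne h, map_zero, if_neg h]

theorem De_natCast (l : PT) (n : ℕ) : De l (n : MvPolynomial PT ℤ) = 0 := by
  unfold De
  rw [Derivation.map_natCast, map_zero]

theorem De_yG_inl (t : Fin 3 × Fin 6 × Fin 6) (x : Fin 3 → ℕ) (r : Fin 3) :
    De (Sum.inl t) (yG ℤ x r) = 0 := by
  unfold yG
  rw [Fin.sum_univ_three]
  simp [De_add, De_mul, De_X, De_natCast]

theorem De_yG_inr (r s : Fin 3) (x : Fin 3 → ℕ) (r' : Fin 3) :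
    De (Sum.inr (r, s)) (yG ℤ x r') = if r' = r then (x s : ℤ) else 0 := by
  unfold yG
  rw [Fin.sum_univ_three]
  simp only [De_add, De_mul, De_X, De_natCast, map_natCast, mul_zero, add_zero, Sum.inr.injEq,
    Prod.mk.injEq]
  fin_cases r <;> fin_cases s <;> fin_cases r' <;> simp

theorem De_TG_inr (s : Fin 3 × Fin 3) (t : Fin 3) (u v : Fin 6) :
    De (Sum.inr s) (TG ℤ t u v) = 0 := by
  show De _ (X _) = 0
  rw [De_X, if_neg (by simp)]

theorem De_TG_inl (t : Fin 3) (r c : Fin 6) (t' : Fin 3) (u v : Fin 6) :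
    De (Sum.inl (t, r, c)) (TG ℤ t' u v) = if t' = t ∧ u = r ∧ v = c then 1 else 0 := by
  show De _ (X _) = _
  rw [De_X]
  simp

theorem eval_yG' (x : Fin 3 → ℕ) (r : Fin 3) : eval a0 (yG ℤ x r) = x r :=
  congrFun (eval_yG x) r

theorem eval_TG' (t : Fin 3) (u v : Fin 6) : eval a0 (TG ℤ t u v) = w t u v :=
  congrFun (congrFun (eval_TG t) u) v

theorem De_inl (t : Fin 3) (r c : Fin 6) (x : Fin 3 → ℕ) :
    (M0 ℤ x).map (De (Sum.inl (t, r, c))) =
      Matrix.single r.castSucc c.castSucc (![(x 2 : ℤ), x 0, x 1] t) := by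
  ext i j
  rw [Matrix.map_apply]
  unfold M0
  refine Fin.lastCases ?_ (fun i => ?_) i
  · rw [mat7_zero, De_zero, Matrix.single_apply_of_row_ne]
    exact (Fin.castSucc_lt_last r).ne
  · refine Fin.lastCases ?_ (fun j => ?_) j
    · rw [mat7_last, Matrix.single_apply_of_col_ne _ _ (Fin.castSucc_lt_last c).ne]
      fin_cases i <;> simp [pow_two, De_mul, De_yG_inl, De_zero]
    · rw [mat7_castSucc]
      simp only [De_add, De_mul, De_yG_inl, zero_mul, zero_add, eval_yG', De_TG_inl]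
      rw [Matrix.single_apply]
      simp only [Fin.castSucc_inj]
      by_cases h : r = i ∧ c = j
      · obtain ⟨rfl, rfl⟩ := h
        fin_cases t <;> simp
      · rw [if_neg h]
        have h' : ∀ t' : Fin 3, ¬ (t' = t ∧ i = r ∧ j = c) := by
          rintro t' ⟨_, h1, h2⟩
          exact h ⟨h1.symm, h2.symm⟩
        simp [h']

/-- derivatives of the matrix at the special point with respect to the coordinates -/
def Ey (y : Fin 3 → ℤ) (r : Fin 3) : Matrix (Fin 7) (Fin 7) ℤ :=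
  ![!![0, 0, 0, 0, 1, 0, 0; 0, 1, 0, 0, 0, 0, 0; 0, 0, 0, 0, 0, 0, 2 * y 0;
      0, 0, 0, 0, 0, 1, y 1; 0, 0, 0, 0, 0, 0, 0; 0, 0, 0, 0, 0, 0, 0; 0, 0, 0, 0, 0, 0, 0],
    !![1, 0, 0, 0, 0, 0, 0; 0, 0, 1, 0, 0, 0, 0; 0, 0, 0, 0, 0, 1, 0;
      0, 0, 0, 0, 0, 1, y 0; 0, 0, 0, 0, 0, 0, 2 * y 1; 0, 0, 0, 0, 0, 0, 0; 0, 0, 0, 0, 0, 0, 0],
    !![0, 0, 0, 1, 0, 0, 0; 0, 1, 0, 0, 0, 0, 0; 0, 0, 0, 0, 1, 0, 0;
      0, 0, 0, 0, 0, 0, 0; 0, 0, 0, 0, 0, 0, 0; 0, 0, 0, 0, 0, 1, 2 * y 2;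
      0, 0, 0, 0, 0, 0, 0]] r

theorem De_inr (r s : Fin 3) (x : Fin 3 → ℕ) :
    (M0 ℤ x).map (De (Sum.inr (r, s))) = (x s : ℤ) • Ey (fun j => (x j : ℤ)) r := by
  ext i j
  rw [Matrix.map_apply, Matrix.smul_apply, smul_eq_mul]
  unfold M0
  refine Fin.lastCases ?_ (fun i => ?_) i
  · rw [mat7_zero, De_zero]
    fin_cases r <;> fin_cases j <;> simp [Ey]
  · refine Fin.lastCases ?_ (fun j => ?_) j
    · rw [mat7_last]
      fin_cases r <;> fin_cases i <;> simp [pow_two, De_mul, De_yG_inr, De_zero, eval_yG', Ey] <;>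
        ring
    · rw [mat7_castSucc]
      simp only [De_add, De_mul, De_yG_inr, De_TG_inr, mul_zero, add_zero, eval_TG']
      fin_cases r <;> fin_cases i <;> fin_cases j <;> simp [w, Ey]

theorem De_MG (l : PT) (x : Fin 3 → ℕ) :
    ((MG ℤ x).map fun f => eval a0 (pderiv l f)) =
      (M0 ℤ x).map (De l) + ((M0 ℤ x).map (De l))ᵀ := by
  ext i j
  rw [Matrix.map_apply, Matrix.add_apply, Matrix.transpose_apply, Matrix.map_apply,
    Matrix.map_apply]
  unfold MG
  rw [Matrix.add_apply, Matrix.transpose_apply]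
  exact De_add l _ _

end der

section cert

/-- the inverse matrices modulo 31 -/
def IM (i : Fin 55) : Matrix (Fin 7) (Fin 7) (ZMod 31) := Matrix.of fun u v => ((In i u v : ℕ) : ZMod 31)

/-- the parameters used -/
def jF (l : Fin 55) : PT :=
  if (l : ℕ) < 51 then Sum.inl (tF l, rF l, cF l) else if (l : ℕ) = 51 then Sum.inr (0, 2)
  else if (l : ℕ) = 52 then Sum.inr (1, 2) else if (l : ℕ) = 53 then Sum.inr (2, 0)
  else Sum.inr (2, 1)

theorem IM_inv (i : Fin 55) : ((MG ℤ (grid i)).map (eval a0)).map (Int.cast : ℤ → ZMod 31) *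
    IM i = 1 := by
  rw [eval_MG]
  obtain ⟨e0, e1, e2⟩ := grid_y i
  have key : ∀ u v : Fin 7, ((row i u v : ℕ) : ZMod 31) = if u = v then 1 else 0 := by
    intro u v
    have h := congrArg (Nat.cast : ℕ → ZMod 31) (row_check i i.2 u u.2 v v.2)
    rw [ZMod.natCast_mod] at h
    rw [h]
    by_cases huv : u = v
    · rw [if_pos huv, if_pos (congrArg Fin.val huv), Nat.cast_one]
    · rw [if_neg huv, if_neg (fun h => huv (Fin.ext h)), Nat.cast_zero]
  ext u v
  rw [Matrix.one_apply, ← key u v, Matrix.mul_apply, Fin.sum_univ_seven]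
  simp only [Matrix.map_apply, IM, Matrix.of_apply]
  fin_cases u <;> simp [Am, row, e0, e1, e2]

theorem trace_inl (i : Fin 55) (t : Fin 3) (r c : Fin 6) :
    trace (IM i * ((MG ℤ (grid i)).map fun f => eval a0 (pderiv (Sum.inl (t, r, c)) f)).map
      (Int.cast : ℤ → ZMod 31)) = ((yT i t * (In i r c + In i c r) : ℕ) : ZMod 31) := by
  obtain ⟨e0, e1, e2⟩ := grid_y i
  rw [De_MG, De_inl, Matrix.transpose_single]
  have h1 : (Matrix.single r.castSucc c.castSucc
      (![(grid i 2 : ℤ), grid i 0, grid i 1] t) + Matrix.single c.castSucc r.castSucc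
      (![(grid i 2 : ℤ), grid i 0, grid i 1] t)).map (Int.cast : ℤ → ZMod 31) =
      Matrix.single r.castSucc c.castSucc ((yT i t : ℕ) : ZMod 31) +
      Matrix.single c.castSucc r.castSucc ((yT i t : ℕ) : ZMod 31) := by
    have h2 : ((![(grid i 2 : ℤ), grid i 0, grid i 1] t : ℤ) : ZMod 31) =
        ((yT i t : ℕ) : ZMod 31) := by
      rw [e0, e1, e2]
      unfold yT
      fin_cases t <;> simp
    ext u v
    simp only [Matrix.map_apply, Matrix.add_apply, Matrix.single_apply]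
    push_cast
    rw [h2]
  rw [h1, Matrix.mul_add, Matrix.trace_add, Matrix.trace_mul_single, Matrix.trace_mul_single]
  simp only [IM, Matrix.of_apply, op_smul_eq_mul, Fin.val_castSucc]
  push_cast
  ring

theorem trace_inr (i : Fin 55) (r s : Fin 3) :
    trace (IM i * ((MG ℤ (grid i)).map fun f => eval a0 (pderiv (Sum.inr (r, s)) f)).map
      (Int.cast : ℤ → ZMod 31)) = ((![y0 i, y1 i, y2 i] s * ![D0 i, D1 i, D2 i] r : ℕ) :
        ZMod 31) := by
  obtain ⟨e0, e1, e2⟩ := grid_y i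
  have es : ((grid i s : ℕ) : ZMod 31) = ((![y0 i, y1 i, y2 i] s : ℕ) : ZMod 31) := by
    fin_cases s
    · show ((grid i 0 : ℕ) : ZMod 31) = _
      rw [e0]; rfl
    · show ((grid i 1 : ℕ) : ZMod 31) = _
      rw [e1]; rfl
    · show ((grid i 2 : ℕ) : ZMod 31) = _
      rw [e2]; rfl
  rw [De_MG, De_inr]
  have h1 : (((grid i s : ℕ) : ℤ) • Ey (fun j => (grid i j : ℤ)) r +
      (((grid i s : ℕ) : ℤ) • Ey (fun j => (grid i j : ℤ)) r)ᵀ).map (Int.cast : ℤ → ZMod 31) =
      ((![y0 i, y1 i, y2 i] s : ℕ) : ZMod 31) • ((Ey (fun j => (grid i j : ℤ)) r).map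
        (Int.cast : ℤ → ZMod 31) + ((Ey (fun j => (grid i j : ℤ)) r).map
        (Int.cast : ℤ → ZMod 31))ᵀ) := by
    ext u v
    simp only [Matrix.map_apply, Matrix.add_apply, Matrix.smul_apply, Matrix.transpose_apply,
      smul_eq_mul]
    push_cast
    rw [es]
    ring
  rw [h1, Matrix.mul_smul, Matrix.trace_smul, smul_eq_mul, Nat.cast_mul]
  congr 1
  simp only [Matrix.trace, Matrix.diag_apply, Matrix.mul_apply, Matrix.add_apply,
    Matrix.transpose_apply, Matrix.map_apply, IM, Matrix.of_apply]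
  simp only [Fin.sum_univ_seven]
  fin_cases r
  · simp [Ey, D0, e0, e1]
    ring
  · simp [Ey, D1, e0, e1]
    ring
  · simp [Ey, D2, e2]
    ring

theorem trace_KN (i l : Fin 55) :
    trace (IM i * ((MG ℤ (grid i)).map fun f => eval a0 (pderiv (jF l) f)).map
      (Int.cast : ℤ → ZMod 31)) = ((KN i l : ℕ) : ZMod 31) := by
  unfold jF KN
  split_ifs
  · exact trace_inl i _ _ _
  · exact trace_inr i 0 2
  · exact trace_inr i 1 2
  · exact trace_inr i 2 0
  · exact trace_inr i 2 1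

instance : Fact (Nat.Prime 31) := ⟨by norm_num⟩

/-- **The values of the discriminant at the grid are algebraically independent.** -/
theorem indep_odd : AlgebraicIndependent ℚ
    fun i : Fin 55 => map (Int.castRingHom ℚ) (MG ℤ (grid i)).det := by
  refine indep_of_cert (F := ZMod 31) (fun i => MG ℤ (grid i)) a0 jF IM
    (Matrix.of fun l c : Fin 55 => ((dig 65536 (Bn l) c : ℕ) : ZMod 31)) IM_inv ?_
  have h := mul_cert 31 65536 55 (by norm_num) (fun i l => KN i l) Bn
    (fun l _ => Bn_lt l) Bn_check (by norm_num) KN (fun _ _ => rfl) KN_check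
  have e : (Matrix.of fun i l : Fin 55 => trace (IM i * ((MG ℤ (grid i)).map fun f =>
      eval a0 (pderiv (jF l) f)).map (Int.cast : ℤ → ZMod 31))) =
      Matrix.of fun i l : Fin 55 => ((KN i l : ℕ) : ZMod 31) := by
    ext i l
    rw [Matrix.of_apply, Matrix.of_apply]
    exact trace_KN i l
  rw [e]
  exact h

end cert

section final

theorem map_MG {S S' : Type*} [CommRing S] [CommRing S'] (φ : S →+* S') (x : Fin 3 → ℕ) :
    (MG S x).map (map φ) = MG S' x := by
  have h : (M0 S x).map (map φ) = M0 S' x := by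
    unfold M0
    rw [map_mat7]
    have e1 : ∀ t, (TG S t).map (map φ) = TG S' t := by
      intro t
      ext r c : 2
      simp [TG]
    have e2 : (map φ : MvPolynomial PT S →+* MvPolynomial PT S') ∘ (yG S x) = yG S' x := by
      funext r
      simp [yG]
    rw [e1, e1, e1, e2]
  unfold MG
  rw [Matrix.map_add (map φ) (map_add (map φ)), Matrix.transpose_map, h]

/-- the generic discriminant form in general coordinates -/
noncomputable def FG (S : Type*) [CommRing S] : MvPolynomial (Fin 3) (MvPolynomial PT S) :=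
  aeval (fun r => ∑ s, C (X (Sum.inr (r, s))) * X s) (disc7 (TG S 0) (TG S 1) (TG S 2))

theorem FG_hom (S : Type*) [CommRing S] : (FG S).IsHomogeneous 9 := by
  unfold FG
  have := (disc7_hom (TG S 0) (TG S 1) (TG S 2)).aeval (τ := Fin 3) (n := 1)
    (fun r => ∑ s, C (X (Sum.inr (r, s)) : MvPolynomial PT S) * X s) (fun r =>
      IsHomogeneous.sum _ _ _ fun s _ => isHomogeneous_C_mul_X _ _)
  rwa [one_mul] at this

theorem eval_FG (S : Type*) [CommRing S] (x : Fin 3 → ℕ) :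
    eval (fun t => ((x t : ℕ) : MvPolynomial PT S)) (FG S) = (MG S x).det := by
  unfold FG
  have h := MvPolynomial.comp_aeval_apply (f := fun r : Fin 3 => ∑ s,
      C (X (Sum.inr (r, s)) : MvPolynomial PT S) * (X s : MvPolynomial (Fin 3) (MvPolynomial PT S)))
    (aeval (fun t => ((x t : ℕ) : MvPolynomial PT S))) (disc7 (TG S 0) (TG S 1) (TG S 2))
  rw [← aeval_eq_eval]
  show aeval (fun t => ((x t : ℕ) : MvPolynomial PT S)) _ = _
  rw [h, aeval_eq_eval]
  have e : (fun r : Fin 3 => aeval (fun t => ((x t : ℕ) : MvPolynomial PT S)) (∑ s,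
      C (X (Sum.inr (r, s)) : MvPolynomial PT S) *
        (X s : MvPolynomial (Fin 3) (MvPolynomial PT S)))) = yG S x := by
    funext r
    simp [yG]
  rw [e]
  show eval (yG S x) _ = _
  rw [eval_disc7]
  rfl

theorem indep_FG : AlgebraicIndependent ℚ fun i : Fin 55 =>
    eval (fun t => ((grid i t : ℕ) : MvPolynomial PT ℚ)) (FG ℚ) := by
  have h : (fun i : Fin 55 => eval (fun t => ((grid i t : ℕ) : MvPolynomial PT ℚ)) (FG ℚ)) =
      fun i : Fin 55 => map (Int.castRingHom ℚ) (MG ℤ (grid i)).det := by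
    funext i
    rw [eval_FG, RingHom.map_det, RingHom.mapMatrix_apply, map_MG]
  rw [h]
  exact indep_odd

/-- **The general form of degree nine is the discriminant of a member of the odd class**, in
suitable coordinates, and the member may be taken general. -/
theorem general_disc7 (Φ : MvPolynomial (Fin 3 × Fin 6 × Fin 6) ℚ) (hΦ : Φ ≠ 0) :
    ∃ Ψ : MvPolynomial (Fin 55) ℚ, Ψ ≠ 0 ∧
      ∀ (Ω : Type*) [Field Ω] [IsAlgClosed Ω] [CharZero Ω] (d : Fin 55 → Ω), aeval d Ψ ≠ 0 →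
        ∃ (T0 T1 T2 : Matrix (Fin 6) (Fin 6) Ω) (g : Matrix (Fin 3) (Fin 3) Ω),
          aeval (par6 T0 T1 T2) Φ ≠ 0 ∧ g.det ≠ 0 ∧
          aeval (fun r => ∑ s, C (g r s) * X s) (disc7 T0 T1 T2) = nonic d := by
  let G : Matrix (Fin 3) (Fin 3) (MvPolynomial PT ℚ) := Matrix.of fun r s => X (Sum.inr (r, s))
  have hG : G.det ≠ 0 := by
    intro h
    have h1 := congrArg (eval (Sum.elim (fun _ => (0 : ℚ)) fun s => if s.1 = s.2 then 1 else 0)) h
    rw [RingHom.map_det, map_zero] at h1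
    have h2 : (eval (Sum.elim (fun _ => (0 : ℚ)) fun s => if s.1 = s.2 then 1 else 0)).mapMatrix
        G = 1 := by
      ext r s
      simp [G, Matrix.one_apply]
    rw [h2, Matrix.det_one] at h1
    exact one_ne_zero h1
  have hΦ' : rename (Sum.inl : _ → PT) Φ ≠ 0 := fun h =>
    hΦ (rename_injective _ Sum.inl_injective (by rw [h, map_zero]))
  obtain ⟨Ψ, hΨ, H⟩ := general_nonic (FG ℚ) (FG_hom ℚ) indep_FG
    (rename (Sum.inl : _ → PT) Φ * G.det) (mul_ne_zero hΦ' hG)
  refine ⟨Ψ, hΨ, ?_⟩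
  intro Ω _ _ _ d hd
  obtain ⟨t, ht, he⟩ := H Ω d hd
  rw [map_mul] at ht
  let T : Fin 3 → Matrix (Fin 6) (Fin 6) Ω := fun i => Matrix.of fun r c => t (Sum.inl (i, r, c))
  let g : Matrix (Fin 3) (Fin 3) Ω := Matrix.of fun r s => t (Sum.inr (r, s))
  refine ⟨T 0, T 1, T 2, g, ?_, ?_, ?_⟩
  · have h1 := left_ne_zero_of_mul ht
    rw [aeval_rename] at h1
    have e : t ∘ Sum.inl = par6 (T 0) (T 1) (T 2) := by
      funext ⟨i, r, c⟩
      fin_cases i <;> rfl
    rwa [e] at h1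
  · have h1 := right_ne_zero_of_mul ht
    have e : aeval t G.det = g.det := by
      rw [AlgHom.map_det]
      congr 1
      ext r s
      simp [G, g]
    rwa [e] at h1
  · rw [← he]
    unfold FG
    set φ : MvPolynomial PT ℚ →+* Ω := (aeval t : MvPolynomial PT ℚ →ₐ[ℚ] Ω).toRingHom with hφ
    have e1 : ∀ i, (TG ℚ i).map φ = T i := by
      intro i
      ext r c
      simp [TG, T, hφ]
    have e2 : map φ (disc7 (TG ℚ 0) (TG ℚ 1) (TG ℚ 2)) = disc7 (T 0) (T 1) (T 2) := by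
      rw [map_disc7, e1, e1, e1]
    rw [← e2]
    have e3 : ∀ f : MvPolynomial (Fin 3) (MvPolynomial PT ℚ),
        aeval (fun r => ∑ s, C (g r s) * X s : Fin 3 → MvPolynomial (Fin 3) Ω) (map φ f) =
        map φ (aeval (fun r => ∑ s, C (X (Sum.inr (r, s))) * X s :
          Fin 3 → MvPolynomial (Fin 3) (MvPolynomial PT ℚ)) f) := by
      intro f
      induction f using MvPolynomial.induction_on with
      | C a => simp
      | add p q hp hq => simp only [map_add, hp, hq]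
      | mul_X p n hp =>
        simp only [map_mul, hp, map_X, aeval_X, map_sum, map_C]
        congr 1
        refine Finset.sum_congr rfl fun s _ => ?_
        simp [g, hφ]
    exact e3 _

end final

end Pool.Agent.Work.D9odd.N1
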