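import Mathlib
import Pool.Agent.Work.MP_b62148_ag.D9odd.Form

/-!
A non degenerate quinary quadratic form with a non trivial zero is the sum of a ternary form and a
hyperbolic plane.
-/

namespace Pool.Agent.Work.D9odd

open Matrix

section

variable {K : Type*} [Field K]

theorem bf_sum_left {n ι : Type*} [Fintype n] (s : Finset ι) (M : Matrix n n K) (f : ι → n → K)
    (v : n → K) : bf M (∑ i ∈ s, f i) v = ∑ i ∈ s, bf M (f i) v := by
  classical
  induction s using Finset.induction_on with
  | empty => simp [bf]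
  | insert a s ha ih => rw [Finset.sum_insert ha, Finset.sum_insert ha, bf_add_left, ih]

theorem split5 (h2 : (2 : K) ≠ 0) (M : Matrix (Fin 5) (Fin 5) K) (hM : Mᵀ = M) (hdet : M.det ≠ 0)
    (a : Fin 5 → K) (ha : a ≠ 0) (haa : bf M a a = 0) :
    ∃ (P : Matrix (Fin 5) (Fin 5) K) (Q : Matrix (Fin 3) (Fin 3) K), P.det ≠ 0 ∧ Qᵀ = Q ∧
      Q.det ≠ 0 ∧ ∀ y : Fin 5 → K, bf M (P *ᵥ y) (P *ᵥ y)
        = bf Q ![y 0, y 1, y 2] ![y 0, y 1, y 2] + y 3 * y 4 := by
  classical
  have hMinj : ∀ v : Fin 5 → K, M *ᵥ v = 0 → v = 0 := by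
    intro v hv
    exact Matrix.eq_zero_of_mulVec_eq_zero hdet hv
  obtain ⟨i, hi⟩ : ∃ i, (M *ᵥ a) i ≠ 0 := by
    by_contra hcon
    push Not at hcon
    exact ha (hMinj a (funext hcon))
  -- the partner of `a`
  set b0 : Fin 5 → K := Pi.single i 1 with hb0
  have h1 : bf M a b0 ≠ 0 := by
    rw [bf_comm hM]
    unfold bf
    rw [hb0, single_dotProduct, one_mul]
    exact hi
  obtain ⟨b1, hab1⟩ : ∃ b1 : Fin 5 → K, bf M a b1 = 2⁻¹ := by
    refine ⟨(2 * bf M a b0)⁻¹ • b0, ?_⟩
    rw [bf_smul_right, mul_inv]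
    field_simp
  have hb1a : bf M b1 a = 2⁻¹ := by rw [bf_comm hM, hab1]
  obtain ⟨b, hab, hbb⟩ : ∃ b : Fin 5 → K, bf M a b = 2⁻¹ ∧ bf M b b = 0 := by
    refine ⟨b1 + (-bf M b1 b1) • a, ?_, ?_⟩
    · rw [bf_add_right, bf_smul_right, haa, mul_zero, add_zero, hab1]
    · simp only [bf_add_left, bf_add_right, bf_smul_left, bf_smul_right, hab1, hb1a, haa]
      field_simp
      ring
  have hba : bf M b a = 2⁻¹ := by rw [bf_comm hM, hab]
  -- the orthogonal complement
  let f : (Fin 5 → K) →ₗ[K] K × K :=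
    { toFun := fun y => (bf M a y, bf M b y)
      map_add' := fun y z => by
        rw [bf_add_right, bf_add_right]; rfl
      map_smul' := fun c y => by
        rw [bf_smul_right, bf_smul_right]; rfl }
  have hf : Function.Surjective f := by
    rintro ⟨s, t⟩
    refine ⟨(2 * s) • b + (2 * t) • a, ?_⟩
    apply Prod.ext
    · show bf M a _ = s
      rw [bf_add_right, bf_smul_right, bf_smul_right, hab, haa]
      field_simp
      ring
    · show bf M b _ = t
      rw [bf_add_right, bf_smul_right, bf_smul_right, hbb, hba]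
      field_simp
      ring
  have hker : Module.finrank K (LinearMap.ker f) = 3 := by
    have h := LinearMap.finrank_range_add_finrank_ker f
    rw [LinearMap.range_eq_top.2 hf, finrank_top, Module.finrank_prod, Module.finrank_self,
      Module.finrank_fin_fun] at h
    omega
  let w := Module.finBasisOfFinrankEq K (LinearMap.ker f) hker
  have hwa : ∀ j, bf M a (w j).1 = 0 := fun j => congrArg Prod.fst (w j).2
  have hwb : ∀ j, bf M b (w j).1 = 0 := fun j => congrArg Prod.snd (w j).2
  let P : Matrix (Fin 5) (Fin 5) K := Matrix.of fun r j => (![(w 0).1, (w 1).1, (w 2).1, a, b] j) r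
  have hP : ∀ y, P *ᵥ y = (∑ j : Fin 3, ![y 0, y 1, y 2] j • (w j).1) + (y 3 • a + y 4 • b) := by
    intro y
    funext r
    simp only [P, mulVec, dotProduct, Matrix.of_apply, Fin.sum_univ_five, Fin.sum_univ_three,
      Pi.add_apply, Pi.smul_apply, smul_eq_mul]
    simp
    ring
  have hbig : ∀ (u : Fin 3 → K) (s t : K) (u' : Fin 3 → K) (s' t' : K),
      bf M ((∑ j : Fin 3, u j • (w j).1) + (s • a + t • b))
        ((∑ j : Fin 3, u' j • (w j).1) + (s' • a + t' • b))
      = bf (Matrix.of fun i j => bf M (w i).1 (w j).1) u u' + 2⁻¹ * (s * t' + t * s') := by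
    intro u s t u' s' t'
    have hwa' : ∀ j, bf M (w j).1 a = 0 := fun j => by rw [bf_comm hM, hwa]
    have hwb' : ∀ j, bf M (w j).1 b = 0 := fun j => by rw [bf_comm hM, hwb]
    simp only [Fin.sum_univ_three, bf_add_left, bf_add_right, bf_smul_left, bf_smul_right, hwa, hwb,
      hwa', hwb', haa, hbb, hab, hba, mul_zero, add_zero, zero_add]
    simp only [bf, dotProduct, mulVec, Matrix.of_apply, Fin.sum_univ_three]
    ring
  have hPdet : P.det ≠ 0 := by
    have hinj : Function.Injective P.mulVec := by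
      intro y z hyz
      have h0 : P *ᵥ (y - z) = 0 := by
        rw [mulVec_sub]
        exact sub_eq_zero.mpr hyz
      set d := y - z with hd
      rw [hP] at h0
      have e4 := hbig ![d 0, d 1, d 2] (d 3) (d 4) 0 1 0
      have e3 := hbig ![d 0, d 1, d 2] (d 3) (d 4) 0 0 1
      rw [h0] at e3 e4
      have z1 : ∀ v, bf M 0 v = 0 := fun v => by simp [bf]
      have z2 : ∀ N : Matrix (Fin 3) (Fin 3) K, ∀ v, bf N v 0 = 0 := fun N v => by simp [bf]
      rw [z1, z2] at e3 e4
      have d4 : d 4 = 0 := by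
        have : (2 : K)⁻¹ * (d 4) = 0 := by linear_combination -e4
        exact (mul_eq_zero.mp this).resolve_left (inv_ne_zero h2)
      have d3 : d 3 = 0 := by
        have : (2 : K)⁻¹ * (d 3) = 0 := by linear_combination -e3
        exact (mul_eq_zero.mp this).resolve_left (inv_ne_zero h2)
      rw [d3, d4, zero_smul, zero_smul, add_zero, add_zero] at h0
      have h5 : ∑ j : Fin 3, ![d 0, d 1, d 2] j • w j = 0 := by
        apply Subtype.ext
        rw [AddSubmonoidClass.coe_finsetSum]
        exact h0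
      have h6 := Fintype.linearIndependent_iff.mp w.linearIndependent _ h5
      have hd0 : d = 0 := by
        funext j
        fin_cases j
        · exact h6 0
        · exact h6 1
        · exact h6 2
        · exact d3
        · exact d4
      exact sub_eq_zero.mp hd0
    have hu := (Matrix.mulVec_injective_iff_isUnit).mp hinj
    exact ((Matrix.isUnit_iff_isUnit_det P).mp hu).ne_zero
  set Q : Matrix (Fin 3) (Fin 3) K := Matrix.of fun i j => bf M (w i).1 (w j).1 with hQ
  refine ⟨P, Q, hPdet, ?_, ?_, ?_⟩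
  · ext i j
    exact bf_comm hM _ _
  · intro hQ0
    obtain ⟨u, hu0, hu⟩ := Matrix.exists_mulVec_eq_zero_iff.mpr hQ0
    -- the vector in the radical
    set v : Fin 5 → K := ∑ j : Fin 3, u j • (w j).1 with hv
    have hv0 : v ≠ 0 := by
      intro h0
      have h5 : ∑ j : Fin 3, u j • w j = 0 := by
        apply Subtype.ext
        rw [AddSubmonoidClass.coe_finsetSum]
        exact h0
      exact hu0 (funext (Fintype.linearIndependent_iff.mp w.linearIndependent _ h5))
    have hrad : ∀ z, bf M z v = 0 := by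
      intro z
      have hu' : IsUnit P := (Matrix.isUnit_iff_isUnit_det P).mpr (isUnit_iff_ne_zero.mpr hPdet)
      have hz : z = P *ᵥ (P⁻¹ *ᵥ z) := by
        rw [Matrix.mulVec_mulVec, Matrix.mul_nonsing_inv P ((Matrix.isUnit_iff_isUnit_det P).mp hu'),
          Matrix.one_mulVec]
      rw [hz, hP]
      have e := hbig ![(P⁻¹ *ᵥ z) 0, (P⁻¹ *ᵥ z) 1, (P⁻¹ *ᵥ z) 2] ((P⁻¹ *ᵥ z) 3) ((P⁻¹ *ᵥ z) 4) u 0 0
      rw [zero_smul, zero_smul, add_zero, add_zero, ← hv] at e
      rw [e]
      have : bf Q ![(P⁻¹ *ᵥ z) 0, (P⁻¹ *ᵥ z) 1, (P⁻¹ *ᵥ z) 2] u = 0 := by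
        unfold bf
        rw [hu, dotProduct_zero]
      rw [this]
      ring
    apply hv0
    apply hMinj
    funext j
    have := hrad (Pi.single j 1)
    unfold bf at this
    rw [single_dotProduct, one_mul] at this
    exact this
  · intro y
    rw [hP, hbig]
    field_simp
    ring

end

end Pool.Agent.Work.D9odd
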