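import Mathlib
import Pool.Agent.Work.MP_b62148_ag.HS
import Pool.Agent.Work.MP_b62148_ag.D9odd.AMaps

/-!
Quinary quadratic forms over the ring of polynomials in two variables over an algebraically closed
field are isotropic.
-/

namespace Pool.Agent.Work.D9odd

open Matrix

section bideg

variable {R : Type*} [CommRing R]

/-- bidegree at most `m` -/
def BD (m : ℕ) (f : Polynomial (Polynomial R)) : Prop :=
  ∀ p q, (m < p ∨ m < q) → (f.coeff q).coeff p = 0

theorem BD.add {m : ℕ} {f g : Polynomial (Polynomial R)} (hf : BD m f) (hg : BD m g) :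
    BD m (f + g) := by
  intro p q h
  rw [Polynomial.coeff_add, Polynomial.coeff_add, hf p q h, hg p q h, add_zero]

theorem BD.zero (m : ℕ) : BD m (0 : Polynomial (Polynomial R)) := by
  intro p q _
  simp

theorem BD.sum {m : ℕ} {ι : Type*} (s : Finset ι) (f : ι → Polynomial (Polynomial R))
    (h : ∀ i ∈ s, BD m (f i)) : BD m (∑ i ∈ s, f i) := by
  intro p q hpq
  rw [Polynomial.finsetSum_coeff, Polynomial.finsetSum_coeff]
  exact Finset.sum_eq_zero fun i hi => h i hi p q hpq

theorem BD.mul {m n : ℕ} {f g : Polynomial (Polynomial R)} (hf : BD m f) (hg : BD n g) :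
    BD (m + n) (f * g) := by
  intro p q hpq
  rw [Polynomial.coeff_mul, Polynomial.finsetSum_coeff]
  refine Finset.sum_eq_zero fun x hx => ?_
  rw [Polynomial.coeff_mul]
  refine Finset.sum_eq_zero fun y hy => ?_
  have h1 := Finset.HasAntidiagonal.mem_antidiagonal.mp hx
  have h2 := Finset.HasAntidiagonal.mem_antidiagonal.mp hy
  by_cases hc : m < y.1 ∨ m < x.1
  · rw [hf _ _ hc, zero_mul]
  · rw [hg y.2 x.2 (by omega), mul_zero]

theorem BD.mono {m n : ℕ} (h : m ≤ n) {f : Polynomial (Polynomial R)} (hf : BD m f) : BD n f :=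
  fun p q hpq => hf p q (by omega)

theorem exists_BD (f : Polynomial (Polynomial R)) : ∃ m, BD m f := by
  refine ⟨f.natDegree + ∑ q ∈ Finset.range (f.natDegree + 1), (f.coeff q).natDegree, ?_⟩
  intro p q h
  by_cases hq : f.natDegree < q
  · rw [Polynomial.coeff_eq_zero_of_natDegree_lt hq, Polynomial.coeff_zero]
  · have h1 : (f.coeff q).natDegree ≤ ∑ q ∈ Finset.range (f.natDegree + 1), (f.coeff q).natDegree :=
      Finset.single_le_sum (f := fun q => (f.coeff q).natDegree) (fun _ _ => Nat.zero_le _)
        (Finset.mem_range.mpr (by omega))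
    exact Polynomial.coeff_eq_zero_of_natDegree_lt (by omega)

theorem exists_BD_fin {ι : Type*} [Fintype ι] (f : ι → Polynomial (Polynomial R)) :
    ∃ m, 1 ≤ m ∧ ∀ i, BD m (f i) := by
  choose m hm using fun i => exists_BD (f i)
  refine ⟨1 + ∑ i, m i, by omega, fun i => (hm i).mono ?_⟩
  have := Finset.single_le_sum (f := m) (fun _ _ => Nat.zero_le _) (Finset.mem_univ i)
  omega

/-- the vector of polynomials with given coefficients -/
noncomputable def vec {N : ℕ} (c : Fin 5 × Fin N × Fin N → R) : Fin 5 → Polynomial (Polynomial R) :=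
  fun i => ∑ q : Fin N, Polynomial.monomial (q : ℕ)
    (∑ p : Fin N, Polynomial.monomial (p : ℕ) (c (i, p, q)))

theorem vec_coeff {N : ℕ} (c : Fin 5 × Fin N × Fin N → R) (i : Fin 5) (p q : Fin N) :
    ((vec c i).coeff q).coeff p = c (i, p, q) := by
  unfold vec
  rw [Polynomial.finsetSum_coeff]
  simp only [Polynomial.coeff_monomial]
  rw [Finset.sum_eq_single q]
  · rw [if_pos rfl, Polynomial.finsetSum_coeff]
    simp only [Polynomial.coeff_monomial]
    rw [Finset.sum_eq_single p]
    · rw [if_pos rfl]
    · intro b _ hb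
      rw [if_neg (fun h => hb (Fin.ext h))]
    · intro h
      exact absurd (Finset.mem_univ _) h
  · intro b _ hb
    rw [if_neg (fun h => hb (Fin.ext h))]
  · intro h
    exact absurd (Finset.mem_univ _) h

theorem vec_BD {d : ℕ} (c : Fin 5 × Fin (d + 1) × Fin (d + 1) → R) (i : Fin 5) : BD d (vec c i) := by
  unfold vec
  refine BD.sum _ _ fun q _ => ?_
  intro p' q' h
  rw [Polynomial.coeff_monomial]
  split_ifs with hq
  · rw [Polynomial.finsetSum_coeff]
    refine Finset.sum_eq_zero fun p _ => ?_
    rw [Polynomial.coeff_monomial, if_neg]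
    have := p.2
    have := q.2
    omega
  · rw [Polynomial.coeff_zero]

theorem vec_map {S : Type*} [CommRing S] (φ : R →+* S) {N : ℕ} (c : Fin 5 × Fin N × Fin N → R)
    (i : Fin 5) : Polynomial.mapRingHom (Polynomial.mapRingHom φ) (vec c i) = vec (φ ∘ c) i := by
  unfold vec
  simp only [map_sum, Polynomial.coe_mapRingHom, Polynomial.map_monomial, Function.comp]

end bideg

section iso

variable {Ω : Type*} [Field Ω] [IsAlgClosed Ω]

/-- A quinary quadratic form over the polynomials in two variables over an algebraically closed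
field has a non trivial zero. -/
theorem exists_iso5 (M : Matrix (Fin 5) (Fin 5) (Polynomial (Polynomial Ω))) :
    ∃ a : Fin 5 → Polynomial (Polynomial Ω), a ≠ 0 ∧ bf M a a = 0 := by
  classical
  obtain ⟨D, hD1, hD⟩ := exists_BD_fin (fun t : Fin 5 × Fin 5 => M t.1 t.2)
  set d := 5 * D with hd
  set m := Fintype.card (Fin (2 * d + D + 1) × Fin (2 * d + D + 1)) with hm
  set n := Fintype.card (Fin 5 × Fin (d + 1) × Fin (d + 1)) with hn
  have hmn : m < n := by
    rw [hm, hn]
    simp only [Fintype.card_prod, Fintype.card_fin, hd]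
    nlinarith
  let e : Fin 5 × Fin (d + 1) × Fin (d + 1) ≃ Fin n := Fintype.equivFin _
  let e' : Fin (2 * d + D + 1) × Fin (2 * d + D + 1) ≃ Fin m := Fintype.equivFin _
  let S := MvPolynomial (Fin n) Ω
  let cS : Fin 5 × Fin (d + 1) × Fin (d + 1) → S := fun t => MvPolynomial.X (e t)
  let BS := bf (M.map (Polynomial.mapRingHom (Polynomial.mapRingHom (MvPolynomial.C : Ω →+* S))))
    (vec cS) (vec cS)
  let F : Fin m → S := fun t => (BS.coeff (e'.symm t).2).coeff (e'.symm t).1
  have hF : ∀ (y : Fin n → Ω) (t : Fin m), MvPolynomial.eval y (F t)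
      = ((bf M (vec (y ∘ e)) (vec (y ∘ e))).coeff (e'.symm t).2).coeff (e'.symm t).1 := by
    intro y t
    have h1 : Polynomial.mapRingHom (Polynomial.mapRingHom (MvPolynomial.eval y)) BS
        = bf M (vec (y ∘ e)) (vec (y ∘ e)) := by
      have e0 := map_bf (Polynomial.mapRingHom (Polynomial.mapRingHom (MvPolynomial.eval y)))
        (M.map (Polynomial.mapRingHom (Polynomial.mapRingHom (MvPolynomial.C : Ω →+* S))))
        (vec cS) (vec cS)
      refine e0.trans ?_
      have e1 : (M.map (Polynomial.mapRingHom (Polynomial.mapRingHom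
          (MvPolynomial.C : Ω →+* S)))).map
          (Polynomial.mapRingHom (Polynomial.mapRingHom (MvPolynomial.eval y))) = M := by
        ext i j : 2
        rw [Matrix.map_apply, Matrix.map_apply, Polynomial.coe_mapRingHom, Polynomial.coe_mapRingHom,
          Polynomial.map_map, Polynomial.mapRingHom_comp]
        have : (MvPolynomial.eval y).comp (MvPolynomial.C : Ω →+* S) = RingHom.id Ω := by
          ext c
          simp
        rw [this, Polynomial.mapRingHom_id, Polynomial.map_id]
      have e2 : (Polynomial.mapRingHom (Polynomial.mapRingHom (MvPolynomial.eval y))) ∘ vec cS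
          = vec (y ∘ e) := by
        funext i
        rw [Function.comp, vec_map]
        congr 1
        funext t
        simp [cS]
      rw [e1, e2]
    rw [← h1, Polynomial.coe_mapRingHom, Polynomial.coeff_map, Polynomial.coe_mapRingHom,
      Polynomial.coeff_map]
  obtain ⟨y, hy0, hy⟩ := PD.exists_common_zero hmn F (by
    intro t
    rw [hF]
    have h1 : vec ((0 : Fin n → Ω) ∘ e) = 0 := by
      funext i
      unfold vec
      simp
    rw [h1]
    simp [bf])
  refine ⟨vec (y ∘ e), ?_, ?_⟩
  · intro h0
    apply hy0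
    funext j
    have h1 := vec_coeff (y ∘ e) (e.symm j).1 (e.symm j).2.1 (e.symm j).2.2
    rw [h0] at h1
    simp only [Pi.zero_apply, Polynomial.coeff_zero, Function.comp] at h1
    rw [Pi.zero_apply, h1]
    exact congrArg y (e.apply_symm_apply j).symm
  · have hBD : BD (2 * d + D) (bf M (vec (y ∘ e)) (vec (y ∘ e))) := by
      unfold bf
      simp only [dotProduct, mulVec]
      refine BD.sum _ _ fun i _ => ?_
      have h1 : BD (D + d) (∑ j, M i j * vec (y ∘ e) j) :=
        BD.sum _ _ fun j _ => (hD (i, j)).mul (vec_BD _ j)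
      exact ((vec_BD (y ∘ e) i).mul h1).mono (by omega)
    ext q p
    rw [Polynomial.coeff_zero, Polynomial.coeff_zero]
    by_cases h : 2 * d + D < p ∨ 2 * d + D < q
    · exact hBD p q h
    · push Not at h
      have h1 := hy (e' (⟨p, by omega⟩, ⟨q, by omega⟩))
      rw [hF, e'.symm_apply_apply] at h1
      exact h1

end iso

end Pool.Agent.Work.D9odd
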